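import Mathlib
import Pool.Agent.Helper40_Pisot.LinAlg2
import Pool.Agent.Helper94_Pisot.Words

/-!
# The left eigenform and the contracting part
-/

set_option autoImplicit false

namespace Pool.Agent.Helper40_Random

open Finset Matrix
open Pool.Agent.Helper94_Pisot (ab wt)

variable {d : ℕ}

/-- the linear form on real vectors -/
noncomputable def lr (l : Fin d → ℝ) (x : Fin d → ℝ) : ℝ := ∑ i, l i * x i

/-- the projection along `α` -/
noncomputable def qr (l α : Fin d → ℝ) (x : Fin d → ℝ) : Fin d → ℝ := fun i => x i - lr l x * α i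

/-- real version of an integer vector -/
def re (v : Fin d → ℤ) : Fin d → ℝ := fun i => (v i : ℝ)

theorem re_add (u v : Fin d → ℤ) : re (u + v) = re u + re v := by
  funext i; simp [re]

theorem re_sub (u v : Fin d → ℤ) : re (u - v) = re u - re v := by
  funext i; simp [re]

theorem re_neg (u : Fin d → ℤ) : re (-u) = -re u := by
  funext i; simp [re]

@[simp] theorem re_zero : re (0 : Fin d → ℤ) = 0 := by
  funext i; simp [re]

theorem re_sum {ι : Type*} (s : Finset ι) (f : ι → Fin d → ℤ) :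
    re (∑ k ∈ s, f k) = ∑ k ∈ s, re (f k) := by
  funext i
  simp [re, Finset.sum_apply]

theorem lr_add (l x y : Fin d → ℝ) : lr l (x + y) = lr l x + lr l y := by
  simp only [lr, Pi.add_apply, mul_add, Finset.sum_add_distrib]

theorem lr_sub (l x y : Fin d → ℝ) : lr l (x - y) = lr l x - lr l y := by
  simp only [lr, Pi.sub_apply, mul_sub, Finset.sum_sub_distrib]

theorem lr_neg (l x : Fin d → ℝ) : lr l (-x) = -lr l x := by
  simp only [lr, Pi.neg_apply, mul_neg, Finset.sum_neg_distrib]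

@[simp] theorem lr_zero (l : Fin d → ℝ) : lr l 0 = 0 := by
  simp [lr]

theorem lr_smul (l : Fin d → ℝ) (c : ℝ) (x : Fin d → ℝ) : lr l (c • x) = c * lr l x := by
  simp only [lr, Pi.smul_apply, smul_eq_mul, Finset.mul_sum]
  exact Finset.sum_congr rfl fun i _ => by ring

theorem lr_sum {ι : Type*} (l : Fin d → ℝ) (s : Finset ι) (f : ι → Fin d → ℝ) :
    lr l (∑ k ∈ s, f k) = ∑ k ∈ s, lr l (f k) := by
  classical
  induction s using Finset.induction_on with
  | empty => simp
  | insert k s hk ih => rw [Finset.sum_insert hk, lr_add, ih, Finset.sum_insert hk]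

theorem qr_add (l α x y : Fin d → ℝ) : qr l α (x + y) = qr l α x + qr l α y := by
  funext i
  simp only [qr, lr_add, Pi.add_apply]
  ring

theorem qr_sub (l α x y : Fin d → ℝ) : qr l α (x - y) = qr l α x - qr l α y := by
  funext i
  simp only [qr, lr_sub, Pi.sub_apply]
  ring

theorem qr_neg (l α x : Fin d → ℝ) : qr l α (-x) = -qr l α x := by
  funext i
  simp only [qr, lr_neg, Pi.neg_apply]
  ring

@[simp] theorem qr_zero (l α : Fin d → ℝ) : qr l α 0 = 0 := by
  funext i
  simp [qr]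

theorem qr_smul (l α : Fin d → ℝ) (c : ℝ) (x : Fin d → ℝ) : qr l α (c • x) = c • qr l α x := by
  funext i
  simp only [qr, lr_smul, Pi.smul_apply, smul_eq_mul]
  ring

theorem qr_sum {ι : Type*} (l α : Fin d → ℝ) (s : Finset ι) (f : ι → Fin d → ℝ) :
    qr l α (∑ k ∈ s, f k) = ∑ k ∈ s, qr l α (f k) := by
  classical
  induction s using Finset.induction_on with
  | empty => simp
  | insert k s hk ih => rw [Finset.sum_insert hk, qr_add, ih, Finset.sum_insert hk]

theorem wt_eq_lr (l : Fin d → ℝ) (w : List (Fin d)) : wt l w = lr l (re (ab w)) := rfl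

theorem lr_single (l : Fin d → ℝ) (i : Fin d) : lr l (re (Pi.single i 1)) = l i := by
  simp only [lr, re]
  rw [Finset.sum_eq_single i]
  · simp
  · intro j _ hj
    simp [hj]
  · simp

/-- The constants of a Pisot matrix, with normalized eigenvectors -/
structure Setup (M : Matrix (Fin d) (Fin d) ℤ) (r : ℝ) (α l : Fin d → ℝ) (C ρ : ℝ) : Prop where
  two_le : 2 ≤ d
  one_lt : 1 < r
  α_pos : ∀ i, 0 < α i
  α_sum : ∑ i, α i = 1
  l_pos : ∀ i, 0 < l i
  norm : lr l α = 1
  irr : Irreducible (M.charpoly.map (Int.castRingHom ℚ))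
  det : M.det = 1 ∨ M.det = -1
  prim : ∃ K : ℕ, ∀ k, K ≤ k → ∀ i j, 0 < (M ^ k) i j
  one_le : 1 ≤ C
  ρ_pos : 0 < ρ
  ρ_lt : ρ < 1
  lr_mul : ∀ (k : ℕ) (v : Fin d → ℤ), lr l (re ((M ^ k) *ᵥ v)) = r ^ k * lr l (re v)
  decay : ∀ (k : ℕ) (v : Fin d → ℤ),
    ‖qr l α (re ((M ^ k) *ᵥ v))‖ ≤ C * ρ ^ k * ‖qr l α (re v)‖

open Pool.Agent.Helper40_Pisot in
theorem exists_setup {M : Matrix (Fin d) (Fin d) ℤ} {r : ℝ} {α l' : Fin d → ℝ} (hd : 2 ≤ d)
    (hP : PisotMat M r) (h : PFData M r α l') :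
    ∃ l C ρ, Setup M r α l C ρ := by
  obtain ⟨C, ρ, hC, hρ0, hρ1, hdec⟩ := h.decay
  have hne : (Finset.univ : Finset (Fin d)).Nonempty := ⟨⟨0, by omega⟩, Finset.mem_univ _⟩
  set s : ℝ := lr l' α with hs
  have hs0 : 0 < s := by
    rw [hs, lr]
    exact Finset.sum_pos (fun i _ => mul_pos (h.l_pos i) (h.α_pos i)) hne
  set l : Fin d → ℝ := fun i => l' i / s with hl
  have hl0 : ∀ i, 0 < l i := fun i => div_pos (h.l_pos i) hs0
  have hlr : ∀ x, lr l x = lr l' x / s := by
    intro x
    simp only [lr, hl]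
    rw [Finset.sum_div]
    exact Finset.sum_congr rfl fun i _ => by ring
  have hnorm : lr l α = 1 := by
    rw [hlr, ← hs, div_self hs0.ne']
  have hlrM : ∀ (k : ℕ) (v : Fin d → ℤ), lr l (re ((M ^ k) *ᵥ v)) = r ^ k * lr l (re v) := by
    intro k
    induction k with
    | zero => intro v; simp
    | succ k ih =>
      intro v
      rw [pow_succ', ← Matrix.mulVec_mulVec]
      have h1 : ∀ u : Fin d → ℤ, lr l (re (M *ᵥ u)) = r * lr l (re u) := by
        intro u
        rw [hlr, hlr]
        have h2 : lr l' (re (M *ᵥ u)) = r * lr l' (re u) := by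
          simp only [lr, re, Matrix.mulVec, dotProduct]
          push_cast
          simp only [Finset.mul_sum]
          rw [Finset.sum_comm]
          refine Finset.sum_congr rfl fun j _ => ?_
          rw [← mul_assoc, ← h.l_eig j, Finset.sum_mul]
          exact Finset.sum_congr rfl fun i _ => by ring
        rw [h2]
        ring
      rw [h1, ih, pow_succ]
      ring
  have hαM : ∀ (k : ℕ) (i : Fin d), ∑ j, ((M ^ k) i j : ℝ) * α j = r ^ k * α i := by
    intro k
    induction k with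
    | zero =>
      intro i
      simp only [pow_zero, one_mul]
      rw [Finset.sum_eq_single i]
      · simp
      · intro j _ hj
        simp [Matrix.one_apply_ne (Ne.symm hj)]
      · simp
    | succ k ih =>
      intro i
      have e1 : ∑ j, ((M ^ (k + 1)) i j : ℝ) * α j =
          ∑ t, (M i t : ℝ) * ∑ j, ((M ^ k) t j : ℝ) * α j := by
        have e2 : ∀ j, ((M ^ (k + 1)) i j : ℝ) * α j =
            ∑ t, (M i t : ℝ) * (((M ^ k) t j : ℝ) * α j) := by
          intro j
          rw [pow_succ', Matrix.mul_apply]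
          push_cast
          rw [Finset.sum_mul]
          exact Finset.sum_congr rfl fun t _ => by ring
        rw [Finset.sum_congr rfl fun j _ => e2 j, Finset.sum_comm]
        exact Finset.sum_congr rfl fun t _ => by rw [Finset.mul_sum]
      rw [e1]
      have e3 : ∀ t, (M i t : ℝ) * ∑ j, ((M ^ k) t j : ℝ) * α j = r ^ k * ((M i t : ℝ) * α t) := by
        intro t
        rw [ih t]
        ring
      rw [Finset.sum_congr rfl fun t _ => e3 t, ← Finset.mul_sum, h.α_eig i, pow_succ]
      ring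
  set S : ℝ := ∑ i, l i with hS
  have hS0 : 0 < S := Finset.sum_pos (fun i _ => hl0 i) hne
  refine ⟨l, C * d * (1 + S) + 1, ρ, ⟨hd, hP.one_lt, h.α_pos, h.α_sum, hl0, hnorm, hP.irr, hP.det,
    h.prim, by nlinarith [show 0 ≤ C * d * (1 + S) by positivity], hρ0, hρ1, hlrM, ?_⟩⟩
  intro k v
  set e : Fin d → Fin d → ℝ := fun i j => ((M ^ k) i j : ℝ) - (∑ t, ((M ^ k) t j : ℝ)) * α i with he
  have he1 : ∀ i, ∑ j, e i j * α j = 0 := by
    intro i
    have e1 : ∑ j, e i j * α j =
        ∑ j, ((M ^ k) i j : ℝ) * α j - α i * ∑ j, (∑ t, ((M ^ k) t j : ℝ)) * α j := by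
      rw [Finset.mul_sum, ← Finset.sum_sub_distrib]
      refine Finset.sum_congr rfl fun j _ => ?_
      simp only [he]
      ring
    have e2 : ∑ j, (∑ t, ((M ^ k) t j : ℝ)) * α j = r ^ k := by
      have : ∀ j, (∑ t, ((M ^ k) t j : ℝ)) * α j = ∑ t, ((M ^ k) t j : ℝ) * α j := fun j =>
        Finset.sum_mul _ _ _
      rw [Finset.sum_congr rfl fun j _ => this j, Finset.sum_comm,
        Finset.sum_congr rfl fun t _ => hαM k t, ← Finset.mul_sum, h.α_sum, mul_one]
    rw [e1, e2, hαM]
    ring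
  set Q := qr l α (re v) with hQ
  have hv : ∀ j, (v j : ℝ) = Q j + lr l (re v) * α j := by
    intro j
    simp only [hQ, qr, re]
    ring
  set E : Fin d → ℝ := fun i => ∑ j, e i j * Q j with hE
  have hEb : ∀ i, |E i| ≤ C * ρ ^ k * d * ‖Q‖ := by
    intro i
    simp only [hE]
    refine (Finset.abs_sum_le_sum_abs _ _).trans ?_
    calc ∑ j, |e i j * Q j| ≤ ∑ _j : Fin d, C * ρ ^ k * ‖Q‖ := by
          refine Finset.sum_le_sum fun j _ => ?_
          rw [abs_mul]
          refine mul_le_mul (hdec k i j) ?_ (abs_nonneg _) (by positivity)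
          rw [← Real.norm_eq_abs]
          exact norm_le_pi_norm Q j
      _ = C * ρ ^ k * d * ‖Q‖ := by
          rw [Finset.sum_const, Finset.card_univ, Fintype.card_fin, nsmul_eq_mul]
          ring
  set S' : ℝ := ∑ j, (∑ t, ((M ^ k) t j : ℝ)) * (v j : ℝ) with hS'
  have hMv : ∀ i, (((M ^ k) *ᵥ v) i : ℝ) = S' * α i + E i := by
    intro i
    simp only [Matrix.mulVec, dotProduct]
    push_cast
    have e1 : ∀ j, ((M ^ k) i j : ℝ) * (v j : ℝ) =
        (∑ t, ((M ^ k) t j : ℝ)) * (v j : ℝ) * α i + e i j * Q j +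
          lr l (re v) * (e i j * α j) := by
      intro j
      have e2 : ((M ^ k) i j : ℝ) = (∑ t, ((M ^ k) t j : ℝ)) * α i + e i j := by
        simp only [he]
        ring
      have e3 := hv j
      calc ((M ^ k) i j : ℝ) * (v j : ℝ)
          = ((∑ t, ((M ^ k) t j : ℝ)) * α i + e i j) * (v j : ℝ) := by rw [← e2]
        _ = (∑ t, ((M ^ k) t j : ℝ)) * (v j : ℝ) * α i + e i j * (v j : ℝ) := by ring
        _ = (∑ t, ((M ^ k) t j : ℝ)) * (v j : ℝ) * α i +
            e i j * (Q j + lr l (re v) * α j) := by rw [← e3]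
        _ = _ := by ring
    rw [Finset.sum_congr rfl fun j _ => e1 j, Finset.sum_add_distrib, Finset.sum_add_distrib,
      ← Finset.sum_mul, ← Finset.mul_sum, he1 i, mul_zero, add_zero]
  have hlE : lr l (re ((M ^ k) *ᵥ v)) = S' + lr l E := by
    have e1 : re ((M ^ k) *ᵥ v) = S' • α + E := by
      funext i
      simp only [re, hMv i, Pi.add_apply, Pi.smul_apply, smul_eq_mul]
    rw [e1, lr_add, lr_smul, hnorm, mul_one]
  have hq : ∀ i, qr l α (re ((M ^ k) *ᵥ v)) i = E i - lr l E * α i := by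
    intro i
    simp only [qr, hlE, re, hMv i]
    ring
  have hlEb : |lr l E| ≤ S * (C * ρ ^ k * d * ‖Q‖) := by
    simp only [lr]
    refine (Finset.abs_sum_le_sum_abs _ _).trans ?_
    rw [hS, Finset.sum_mul]
    refine Finset.sum_le_sum fun i _ => ?_
    rw [abs_mul, abs_of_pos (hl0 i)]
    exact mul_le_mul_of_nonneg_left (hEb i) (hl0 i).le
  have hα1 : ∀ i, α i ≤ 1 := by
    intro i
    rw [← h.α_sum]
    exact Finset.single_le_sum (f := α) (fun j _ => (h.α_pos j).le) (Finset.mem_univ i)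
  rw [pi_norm_le_iff_of_nonneg (by positivity)]
  intro i
  rw [hq i, Real.norm_eq_abs]
  have h0 : 0 ≤ C * ρ ^ k * d * ‖Q‖ := by positivity
  calc |E i - lr l E * α i| ≤ |E i| + |lr l E * α i| := abs_sub _ _
    _ ≤ C * ρ ^ k * d * ‖Q‖ + S * (C * ρ ^ k * d * ‖Q‖) := by
        refine add_le_add (hEb i) ?_
        rw [abs_mul, abs_of_pos (h.α_pos i)]
        calc |lr l E| * α i ≤ |lr l E| * 1 :=
              mul_le_mul_of_nonneg_left (hα1 i) (abs_nonneg _)
          _ ≤ _ := by rw [mul_one]; exact hlEb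
    _ = (C * d * (1 + S)) * ρ ^ k * ‖Q‖ := by ring
    _ ≤ (C * d * (1 + S) + 1) * ρ ^ k * ‖Q‖ := by
        have : 0 ≤ ρ ^ k * ‖Q‖ := by positivity
        nlinarith

end Pool.Agent.Helper40_Random
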