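import Mathlib
import Pool.Agent.Helper40_Random.Norm

/-!
# Integer vectors near the line spanned by the eigenvector
-/

set_option autoImplicit false

namespace Pool.Agent.Helper40_Random

open Finset Matrix

variable {d : ℕ}

theorem card_lt_aux (Q d : ℕ) (hQ : 1 ≤ Q) (hd : 2 ≤ d) : Q ^ d + 1 < (Q + 1) ^ d := by
  obtain ⟨e, rfl⟩ : ∃ e, d = e + 2 := ⟨d - 2, by omega⟩
  have h1 : Q ^ (e + 1) ≤ (Q + 1) ^ (e + 1) := Nat.pow_le_pow_left (by omega) _
  have h2 : Q + 1 ≤ (Q + 1) ^ (e + 1) := Nat.le_self_pow (by omega) _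
  have h3 : (Q + 1) ^ (e + 2) = (Q + 1) ^ (e + 1) * Q + (Q + 1) ^ (e + 1) := by ring
  have h4 : Q ^ (e + 2) = Q ^ (e + 1) * Q := by ring
  have h5 : Q ^ (e + 1) * Q ≤ (Q + 1) ^ (e + 1) * Q := Nat.mul_le_mul_right _ h1
  omega

/-- pigeonhole -/
theorem exists_small {l : Fin d → ℝ} (hl : ∀ i, 0 < l i) (hd : 2 ≤ d) {Q : ℕ} (hQ : 1 ≤ Q) :
    ∃ v : Fin d → ℤ, v ≠ 0 ∧ (∀ i, |v i| ≤ Q) ∧
      |lr l (re v)| ≤ (∑ i, l i) / (Q : ℝ) ^ (d - 1) := by
  classical
  have hne : (Finset.univ : Finset (Fin d)).Nonempty := ⟨⟨0, by omega⟩, Finset.mem_univ _⟩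
  set S : ℝ := ∑ i, l i with hS
  have hS0 : 0 < S := Finset.sum_pos (fun i _ => hl i) hne
  have hQ0 : (1 : ℝ) ≤ Q := by exact_mod_cast hQ
  set f : (Fin d → ℕ) → ℕ := fun x => ⌊(∑ i, l i * (x i : ℝ)) * (Q : ℝ) ^ (d - 1) / S⌋₊ with hf
  set D : Finset (Fin d → ℕ) := Fintype.piFinset (fun _ : Fin d => Finset.range (Q + 1)) with hD
  have hmem : ∀ x ∈ D, ∀ i, x i ≤ Q := by
    intro x hx i
    have := (Fintype.mem_piFinset.1 hx) i
    rw [Finset.mem_range] at this
    omega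
  have hmaps : ∀ x ∈ D, f x ∈ Finset.range (Q ^ d + 1) := by
    intro x hx
    rw [Finset.mem_range]
    have h1 : ∑ i, l i * (x i : ℝ) ≤ S * Q := by
      rw [hS, Finset.sum_mul]
      refine Finset.sum_le_sum fun i _ => ?_
      have : (x i : ℝ) ≤ Q := by exact_mod_cast hmem x hx i
      exact mul_le_mul_of_nonneg_left this (hl i).le
    have h2 : (∑ i, l i * (x i : ℝ)) * (Q : ℝ) ^ (d - 1) / S ≤ (Q : ℝ) ^ d := by
      rw [div_le_iff₀ hS0]
      have h3 : (Q : ℝ) ^ d = Q * (Q : ℝ) ^ (d - 1) := by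
        rw [← pow_succ']
        congr 1
        omega
      rw [h3]
      have h4 : (0 : ℝ) < (Q : ℝ) ^ (d - 1) := by positivity
      nlinarith
    have h5 : f x ≤ Q ^ d := by
      apply Nat.floor_le_of_le
      push_cast
      exact h2
    omega
  have hcard : (Finset.range (Q ^ d + 1)).card < D.card := by
    rw [Finset.card_range, hD, Fintype.card_piFinset]
    simp only [Finset.card_range, Finset.prod_const, Finset.card_univ, Fintype.card_fin]
    exact card_lt_aux Q d hQ hd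
  obtain ⟨x, hx, y, hy, hxy, hfxy⟩ :=
    Finset.exists_ne_map_eq_of_card_lt_of_maps_to hcard hmaps
  refine ⟨fun i => (x i : ℤ) - (y i : ℤ), ?_, ?_, ?_⟩
  · intro h
    apply hxy
    funext i
    have := congrFun h i
    simp only [Pi.zero_apply] at this
    omega
  · intro i
    have h1 := hmem x hx i
    have h2 := hmem y hy i
    change |(x i : ℤ) - (y i : ℤ)| ≤ Q
    rw [abs_le]
    constructor <;> omega
  · have h1 : lr l (re fun i => (x i : ℤ) - (y i : ℤ)) =
        (∑ i, l i * (x i : ℝ)) - ∑ i, l i * (y i : ℝ) := by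
      simp only [lr, re]
      rw [← Finset.sum_sub_distrib]
      refine Finset.sum_congr rfl fun i _ => ?_
      push_cast
      ring
    have hQd : (0 : ℝ) < (Q : ℝ) ^ (d - 1) := by positivity
    have hnn : ∀ x : Fin d → ℕ, 0 ≤ (∑ i, l i * (x i : ℝ)) * (Q : ℝ) ^ (d - 1) / S := by
      intro x
      have : 0 ≤ ∑ i, l i * (x i : ℝ) :=
        Finset.sum_nonneg fun i _ => mul_nonneg (hl i).le (Nat.cast_nonneg _)
      positivity
    have e1 := Nat.floor_le (hnn x)
    have e2 := Nat.lt_floor_add_one ((∑ i, l i * (x i : ℝ)) * (Q : ℝ) ^ (d - 1) / S)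
    have e3 := Nat.floor_le (hnn y)
    have e4 := Nat.lt_floor_add_one ((∑ i, l i * (y i : ℝ)) * (Q : ℝ) ^ (d - 1) / S)
    have e5 : ((f x : ℕ) : ℝ) = ((f y : ℕ) : ℝ) := by rw [hfxy]
    simp only [hf] at e5
    rw [h1, le_div_iff₀ hQd]
    have h2 : |((∑ i, l i * (x i : ℝ)) - ∑ i, l i * (y i : ℝ)) * (Q : ℝ) ^ (d - 1) / S| ≤ 1 := by
      have e6 : ((∑ i, l i * (x i : ℝ)) - ∑ i, l i * (y i : ℝ)) * (Q : ℝ) ^ (d - 1) / S =
          (∑ i, l i * (x i : ℝ)) * (Q : ℝ) ^ (d - 1) / S -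
            (∑ i, l i * (y i : ℝ)) * (Q : ℝ) ^ (d - 1) / S := by ring
      rw [e6, abs_le]
      constructor <;> linarith
    rw [abs_div, abs_mul, abs_of_pos hQd, abs_of_pos hS0, div_le_one hS0] at h2
    exact h2

/-- the powers of `M` applied to a nonzero integer vector span -/
theorem exists_span {M : Matrix (Fin d) (Fin d) ℤ}
    (irr : Irreducible (M.charpoly.map (Int.castRingHom ℚ))) (hd : 2 ≤ d) {v : Fin d → ℤ}
    (hv : v ≠ 0) (x : Fin d → ℝ) :
    ∃ b : ℕ → ℝ, x = ∑ k ∈ Finset.range d, b k • re ((M ^ k) *ᵥ v) := by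
  classical
  set A : Matrix (Fin d) (Fin d) ℚ := M.map (Int.castRingHom ℚ) with hA
  have hAc : A.charpoly = M.charpoly.map (Int.castRingHom ℚ) := by
    rw [hA, Matrix.charpoly_map]
  have irrA : Irreducible A.charpoly := by rw [hAc]; exact irr
  set vQ : Fin d → ℚ := fun i => (v i : ℚ) with hvQ
  have hvQ0 : vQ ≠ 0 := by
    intro h
    apply hv
    funext i
    have := congrFun h i
    simpa [hvQ] using this
  have hpow : ∀ k : ℕ, A ^ k *ᵥ vQ = fun i => (((M ^ k) *ᵥ v) i : ℚ) := by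
    intro k
    have h1 : A ^ k = (M ^ k).map (Int.castRingHom ℚ) := by
      rw [hA, ← RingHom.mapMatrix_apply, ← RingHom.mapMatrix_apply, map_pow]
    funext i
    rw [h1]
    simp [Matrix.mulVec, dotProduct, hvQ]
  have hbasis : ∀ i : Fin d, ∃ c : ℕ → ℚ,
      (Pi.single i 1 : Fin d → ℚ) = ∑ k ∈ Finset.range d, c k • (A ^ k *ᵥ vQ) := by
    intro i
    obtain ⟨f, hf⟩ := Pool.Agent.Helper40_Pisot.cyclic A irrA vQ hvQ0 (Pi.single i 1)
    set g := f %ₘ A.charpoly with hg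
    have hmon : A.charpoly.Monic := Matrix.charpoly_monic A
    have h1 : (Polynomial.aeval A) g = (Polynomial.aeval A) f := by
      rw [hg]
      exact Polynomial.aeval_modByMonic_eq_self_of_root (Matrix.aeval_self_charpoly A)
    have hdeg : A.charpoly.natDegree = d := by
      rw [Matrix.charpoly_natDegree_eq_dim, Fintype.card_fin]
    have h2 : g.natDegree < d := by
      rw [← hdeg]
      apply Polynomial.natDegree_modByMonic_lt _ hmon
      intro h
      rw [h, Polynomial.natDegree_one] at hdeg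
      omega
    refine ⟨fun k => g.coeff k, ?_⟩
    rw [hf, ← h1, Polynomial.aeval_eq_sum_range' h2, Matrix.sum_mulVec]
    exact Finset.sum_congr rfl fun k _ => by rw [Matrix.smul_mulVec]
  choose c hc using hbasis
  refine ⟨fun k => ∑ i, x i * (c i k : ℝ), ?_⟩
  have hreal : ∀ i j : Fin d, (if j = i then (1 : ℝ) else 0) =
      ∑ k ∈ Finset.range d, (c i k : ℝ) * re ((M ^ k) *ᵥ v) j := by
    intro i j
    have h1 := congrFun (hc i) j
    rw [Finset.sum_apply] at h1
    simp only [Pi.smul_apply, smul_eq_mul, hpow] at h1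
    have h2 : ((Pi.single i (1 : ℚ) : Fin d → ℚ) j : ℚ) = if j = i then 1 else 0 := by
      rw [Pi.single_apply]
    rw [h2] at h1
    have h4 : (((if j = i then 1 else 0 : ℚ)) : ℝ) = if j = i then (1 : ℝ) else 0 := by
      split_ifs <;> simp
    have h3 : (((if j = i then 1 else 0 : ℚ)) : ℝ) =
        ((∑ k ∈ Finset.range d, c i k * (((M ^ k) *ᵥ v) j : ℚ) : ℚ) : ℝ) := by
      rw [← h1]
    rw [h4] at h3
    rw [h3]
    push_cast
    rfl
  funext j
  rw [Finset.sum_apply]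
  simp only [Pi.smul_apply, smul_eq_mul, Finset.sum_mul]
  rw [Finset.sum_comm]
  have h4 : ∀ i, ∑ k ∈ Finset.range d, x i * (c i k : ℝ) * re ((M ^ k) *ᵥ v) j =
      x i * (if j = i then (1 : ℝ) else 0) := by
    intro i
    rw [hreal i j, Finset.mul_sum]
    exact Finset.sum_congr rfl fun k _ => by ring
  rw [Finset.sum_congr rfl fun i _ => h4 i]
  simp

theorem cover {M : Matrix (Fin d) (Fin d) ℤ} {r : ℝ} {α l : Fin d → ℝ} {C ρ : ℝ}
    (S : Setup M r α l C ρ) : ∃ C1 : ℝ, 1 ≤ C1 ∧ ∀ (T : ℝ) (Q : ℕ), 1 ≤ Q →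
      ∃ w : Fin d → ℤ, |lr l (re w) - T| ≤ C1 / (Q : ℝ) ^ (d - 1) ∧
        ‖qr l α (re w)‖ ≤ C1 * Q := by
  have hr := S.one_lt
  have hC := S.one_le
  have hne : (Finset.univ : Finset (Fin d)).Nonempty := ⟨⟨0, by have := S.two_le; omega⟩,
    Finset.mem_univ _⟩
  set s : ℝ := ∑ i, l i with hs
  have hs0 : 0 < s := Finset.sum_pos (fun i _ => S.l_pos i) hne
  have hr0 : 0 < r := by linarith
  refine ⟨d * r ^ d * s + d * C * (1 + s) + 1, by
    have : 0 ≤ d * r ^ d * s := by positivity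
    have : 0 ≤ d * C * (1 + s) := by positivity
    linarith, fun T Q hQ => ?_⟩
  have hQ0 : (1 : ℝ) ≤ Q := by exact_mod_cast hQ
  have hQd : (0 : ℝ) < (Q : ℝ) ^ (d - 1) := by positivity
  have hQd1 : (1 : ℝ) ≤ (Q : ℝ) ^ (d - 1) := one_le_pow₀ hQ0
  obtain ⟨v, hv, hvQ, hlv⟩ := exists_small S.l_pos S.two_le hQ
  obtain ⟨b, hb⟩ := exists_span S.irr S.two_le hv (T • α)
  set w : Fin d → ℤ := ∑ k ∈ Finset.range d, ⌊b k⌋ • ((M ^ k) *ᵥ v) with hw
  have hα1 : ∀ i, α i ≤ 1 := by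
    intro i
    rw [← S.α_sum]
    exact Finset.single_le_sum (f := α) (fun j _ => (S.α_pos j).le) (Finset.mem_univ i)
  have hrew : re w = T • α - ∑ k ∈ Finset.range d, (Int.fract (b k)) • re ((M ^ k) *ᵥ v) := by
    rw [hb, hw, re_sum, ← Finset.sum_sub_distrib]
    refine Finset.sum_congr rfl fun k _ => ?_
    have h1 : re (⌊b k⌋ • ((M ^ k) *ᵥ v)) = (⌊b k⌋ : ℝ) • re ((M ^ k) *ᵥ v) := by
      funext i
      simp [re]
    rw [h1, ← sub_smul, Int.self_sub_fract]
  have hfr : ∀ k, |Int.fract (b k)| ≤ 1 := by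
    intro k
    rw [abs_of_nonneg (Int.fract_nonneg _)]
    exact (Int.fract_lt_one _).le
  refine ⟨w, ?_, ?_⟩
  · rw [hrew, lr_sub, lr_smul, S.norm, mul_one, lr_sum]
    have h1 : T - ∑ k ∈ Finset.range d, lr l (Int.fract (b k) • re ((M ^ k) *ᵥ v)) - T =
        -∑ k ∈ Finset.range d, lr l (Int.fract (b k) • re ((M ^ k) *ᵥ v)) := by ring
    rw [h1, abs_neg]
    refine (Finset.abs_sum_le_sum_abs _ _).trans ?_
    have h2 : ∀ k ∈ Finset.range d, |lr l (Int.fract (b k) • re ((M ^ k) *ᵥ v))| ≤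
        r ^ d * (s / (Q : ℝ) ^ (d - 1)) := by
      intro k hk
      rw [lr_smul, S.lr_mul, abs_mul, abs_mul, abs_of_pos (pow_pos hr0 k)]
      have h3 : r ^ k ≤ r ^ d := pow_le_pow_right₀ hr.le (Finset.mem_range.1 hk).le
      have h4 : r ^ k * |lr l (re v)| ≤ r ^ d * (s / (Q : ℝ) ^ (d - 1)) :=
        mul_le_mul h3 hlv (abs_nonneg _) (by positivity)
      calc |Int.fract (b k)| * (r ^ k * |lr l (re v)|) ≤ 1 * (r ^ k * |lr l (re v)|) :=
            mul_le_mul_of_nonneg_right (hfr k) (by positivity)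
        _ ≤ _ := by rw [one_mul]; exact h4
    refine (Finset.sum_le_sum h2).trans ?_
    rw [Finset.sum_const, Finset.card_range, nsmul_eq_mul]
    have h5 : (d : ℝ) * (r ^ d * (s / (Q : ℝ) ^ (d - 1))) = (d * r ^ d * s) / (Q : ℝ) ^ (d - 1) := by
      ring
    rw [h5]
    apply div_le_div_of_nonneg_right _ hQd.le
    have : 0 ≤ d * C * (1 + s) := by positivity
    linarith
  · rw [hrew, qr_sub, qr_smul, qr_sum]
    have h0 : qr l α α = 0 := by
      funext i
      simp [qr, S.norm]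
    rw [h0, smul_zero, zero_sub, norm_neg]
    refine (norm_sum_le _ _).trans ?_
    have hqv : ‖qr l α (re v)‖ ≤ (1 + s) * Q := by
      rw [pi_norm_le_iff_of_nonneg (by positivity)]
      intro i
      rw [Real.norm_eq_abs]
      simp only [qr, re]
      have h1 : |((v i : ℤ) : ℝ)| ≤ Q := by
        have := hvQ i
        exact_mod_cast this
      calc |(v i : ℝ) - lr l (re v) * α i| ≤ |(v i : ℝ)| + |lr l (re v) * α i| := abs_sub _ _
        _ ≤ Q + s := by
            refine add_le_add h1 ?_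
            rw [abs_mul, abs_of_pos (S.α_pos i)]
            calc |lr l (re v)| * α i ≤ |lr l (re v)| * 1 :=
                  mul_le_mul_of_nonneg_left (hα1 i) (abs_nonneg _)
              _ ≤ s := by
                  rw [mul_one]
                  refine hlv.trans ?_
                  exact div_le_self hs0.le hQd1
        _ ≤ (1 + s) * Q := by nlinarith
    have h2 : ∀ k ∈ Finset.range d, ‖qr l α (Int.fract (b k) • re ((M ^ k) *ᵥ v))‖ ≤
        C * ((1 + s) * Q) := by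
      intro k _
      rw [qr_smul, norm_smul, Real.norm_eq_abs]
      have h3 : ρ ^ k ≤ 1 := pow_le_one₀ S.ρ_pos.le S.ρ_lt.le
      have h4 : 0 < ρ ^ k := pow_pos S.ρ_pos k
      calc |Int.fract (b k)| * ‖qr l α (re ((M ^ k) *ᵥ v))‖
          ≤ 1 * ‖qr l α (re ((M ^ k) *ᵥ v))‖ :=
            mul_le_mul_of_nonneg_right (hfr k) (norm_nonneg _)
        _ ≤ C * ρ ^ k * ‖qr l α (re v)‖ := by rw [one_mul]; exact S.decay k v
        _ ≤ C * 1 * ((1 + s) * Q) := by
            refine mul_le_mul ?_ hqv (norm_nonneg _) (by positivity)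
            exact mul_le_mul_of_nonneg_left h3 (by linarith)
        _ = C * ((1 + s) * Q) := by ring
    refine (Finset.sum_le_sum h2).trans ?_
    rw [Finset.sum_const, Finset.card_range, nsmul_eq_mul]
    have : 0 ≤ d * r ^ d * s := by positivity
    nlinarith

end Pool.Agent.Helper40_Random
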