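import Mathlib
import Pool.Agent.Helper40_Random.Norm
import Pool.Agent.Helper94_Pisot.Fibers

/-!
# Descendants of overlapping letters and the smallness of the swap defect
-/

set_option autoImplicit false

namespace Pool.Agent.Helper40_Random

open Finset Matrix
open Pool.Agent.Helper94_Pisot

variable {d : ℕ}

/-- descendants after `n` steps of the letter `i` placed at `0` and the letter `j` placed at `D` -/
def Desc (A : Matrix (Fin d) (Fin d) ℤ) (τ : Fin d → List (Fin d)) (n : ℕ)
    (i j : Fin d) (D : Fin d → ℤ) (i' j' : Fin d) (D' : Fin d → ℤ) : Prop :=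
  ∃ pre post pre' post' : List (Fin d), it τ n [i] = pre ++ i' :: post ∧
    it τ n [j] = pre' ++ j' :: post' ∧ D' = (A ^ n) *ᵥ D + ab pre' - ab pre

/-- a common descendant after `n` steps -/
def Coin (A : Matrix (Fin d) (Fin d) ℤ) (τ : Fin d → List (Fin d)) (n : ℕ)
    (i j : Fin d) (D : Fin d → ℤ) : Prop :=
  ∃ z, Desc A τ n i j D z z 0

variable {A : Matrix (Fin d) (Fin d) ℤ} {τ : Fin d → List (Fin d)}

theorem Desc.comp (hτ : Sub τ A) {m n : ℕ} {i j i' j' i'' j'' : Fin d} {D D' D'' : Fin d → ℤ}
    (h1 : Desc A τ m i j D i' j' D') (h2 : Desc A τ n i' j' D' i'' j'' D'') :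
    Desc A τ (n + m) i j D i'' j'' D'' := by
  obtain ⟨p, s, p', s', e1, e2, e3⟩ := h1
  obtain ⟨u, v, u', v', f1, f2, f3⟩ := h2
  refine ⟨it τ n p ++ u, v ++ it τ n s, it τ n p' ++ u', v' ++ it τ n s', ?_, ?_, ?_⟩
  · rw [it_add, e1, it_append, it_cons, f1]
    simp
  · rw [it_add, e2, it_append, it_cons, f2]
    simp
  · rw [f3, e3, ab_append, ab_append, ab_it hτ, ab_it hτ, pow_add, ← Matrix.mulVec_mulVec,
      Matrix.mulVec_sub, Matrix.mulVec_add]
    abel

theorem Desc.symm {n : ℕ} {i j i' j' : Fin d} {D D' : Fin d → ℤ}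
    (h : Desc A τ n i j D i' j' D') : Desc A τ n j i (-D) j' i' (-D') := by
  obtain ⟨p, s, p', s', e1, e2, e3⟩ := h
  refine ⟨p', s', p, s, e2, e1, ?_⟩
  rw [e3, Matrix.mulVec_neg]
  abel

theorem Coin.symm {n : ℕ} {i j : Fin d} {D : Fin d → ℤ} (h : Coin A τ n i j D) :
    Coin A τ n j i (-D) := by
  obtain ⟨z, hz⟩ := h
  exact ⟨z, by simpa using hz.symm⟩

theorem Coin.symm' {n : ℕ} {i j : Fin d} {D : Fin d → ℤ} (h : Coin A τ n j i (-D)) :
    Coin A τ n i j D := by
  have := h.symm
  rwa [neg_neg] at this

theorem coin_zero (hτ : Sub τ A) (n : ℕ) (z : Fin d) : Coin A τ n z z 0 := by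
  have h := it_pos hτ n z
  obtain ⟨f, w, hw⟩ : ∃ f w, it τ n [z] = f :: w := by
    cases hh : it τ n [z] with
    | nil => rw [hh] at h; simp at h
    | cons f w => exact ⟨f, w, rfl⟩
  exact ⟨f, [], w, [], w, by simp [hw], by simp [hw], by simp⟩

theorem Desc.coin (hτ : Sub τ A) {m n : ℕ} {i j i' j' : Fin d} {D D' : Fin d → ℤ}
    (h1 : Desc A τ m i j D i' j' D') (h2 : Coin A τ n i' j' D') : Coin A τ (n + m) i j D := by
  obtain ⟨z, hz⟩ := h2
  exact ⟨z, h1.comp hτ hz⟩

theorem Coin.mono (hτ : Sub τ A) {m n : ℕ} (hmn : m ≤ n) {i j : Fin d} {D : Fin d → ℤ}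
    (h : Coin A τ m i j D) : Coin A τ n i j D := by
  obtain ⟨z, hz⟩ := h
  have := hz.coin hτ (coin_zero hτ (n - m) z)
  rwa [Nat.sub_add_cancel hmn] at this

/-! ### Bad weights -/

/-- the letter `g` occurs in `V` at `c` -/
def InS (V : List (Fin d)) (g : Fin d) (c : Fin d → ℤ) : Prop :=
  ∃ pre post : List (Fin d), V = pre ++ g :: post ∧ ab pre = c

open Classical in
/-- the weight of the letters that do not satisfy `P` -/
noncomputable def badw (l : Fin d → ℝ) (P : Fin d → (Fin d → ℤ) → Prop) :
    (Fin d → ℤ) → List (Fin d) → ℝ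
  | _, [] => 0
  | c, g :: w => (if P g c then 0 else l g) + badw l P (c + Pi.single g 1) w

theorem badw_append (l : Fin d → ℝ) (P : Fin d → (Fin d → ℤ) → Prop) (c : Fin d → ℤ)
    (u v : List (Fin d)) : badw l P c (u ++ v) = badw l P c u + badw l P (c + ab u) v := by
  induction u generalizing c with
  | nil => simp [badw]
  | cons g u ih =>
    rw [List.cons_append, badw, badw, ih, ab_cons, add_assoc, add_assoc]

theorem badw_nonneg {l : Fin d → ℝ} (hl : ∀ i, 0 < l i) (P : Fin d → (Fin d → ℤ) → Prop)
    (c : Fin d → ℤ) (w : List (Fin d)) : 0 ≤ badw l P c w := by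
  induction w generalizing c with
  | nil => simp [badw]
  | cons g w ih =>
    rw [badw]
    have := ih (c + Pi.single g 1)
    have := (hl g).le
    split_ifs <;> linarith

theorem badw_le {l : Fin d → ℝ} (hl : ∀ i, 0 < l i) (P : Fin d → (Fin d → ℤ) → Prop)
    (c : Fin d → ℤ) (w : List (Fin d)) : badw l P c w ≤ wt l w := by
  induction w generalizing c with
  | nil => simp [badw]
  | cons g w ih =>
    rw [badw, wt_cons]
    have := ih (c + Pi.single g 1)
    have := (hl g).le
    split_ifs <;> linarith

theorem badw_zero {l : Fin d → ℝ} {P : Fin d → (Fin d → ℤ) → Prop}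
    {c : Fin d → ℤ} {w : List (Fin d)}
    (h : ∀ pre g post, w = pre ++ g :: post → P g (c + ab pre)) : badw l P c w = 0 := by
  induction w generalizing c with
  | nil => simp [badw]
  | cons g w ih =>
    rw [badw, if_pos, ih, zero_add]
    · intro pre g' post hw
      have := h (g :: pre) g' post (by rw [hw]; rfl)
      rwa [ab_cons, ← add_assoc] at this
    · have := h [] g w rfl
      simpa using this

theorem badw_lt {l : Fin d → ℝ} (hl : ∀ i, 0 < l i) {P : Fin d → (Fin d → ℤ) → Prop}
    {c : Fin d → ℤ} {pre post : List (Fin d)} {g : Fin d} (h : P g (c + ab pre)) :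
    badw l P c (pre ++ g :: post) ≤ wt l (pre ++ g :: post) - l g := by
  rw [badw_append, badw, if_pos h, wt_append, wt_cons]
  have h1 := badw_le hl P c pre
  have h2 := badw_le hl P (c + ab pre + Pi.single g 1) post
  linarith

theorem badw_step {l : Fin d → ℝ} {P P' : Fin d → (Fin d → ℤ) → Prop} (hτ : Sub τ A) (K : ℕ)
    {β : ℝ} (U : List (Fin d)) (c : Fin d → ℤ)
    (h : ∀ pre g post, U = pre ++ g :: post →
      badw l P' ((A ^ K) *ᵥ (c + ab pre)) (it τ K [g]) ≤
        β * (open Classical in if P g (c + ab pre) then 0 else l g)) :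
    badw l P' ((A ^ K) *ᵥ c) (it τ K U) ≤ β * badw l P c U := by
  induction U generalizing c with
  | nil => simp [badw]
  | cons g U ih =>
    rw [it_cons, badw_append, badw]
    have h1 := h [] g U rfl
    rw [ab_nil, add_zero] at h1
    have h2 : (A ^ K) *ᵥ c + ab (it τ K [g]) = (A ^ K) *ᵥ (c + Pi.single g 1) := by
      rw [ab_it hτ, ab_singleton, Matrix.mulVec_add]
    rw [h2]
    have h3 := ih (c + Pi.single g 1) (by
      intro pre g' post hU
      have := h (g :: pre) g' post (by rw [hU]; rfl)
      rwa [ab_cons, ← add_assoc] at this)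
    rw [mul_add]
    exact add_le_add h1 h3

theorem ham_le_badw {l : Fin d → ℝ} (hl : ∀ i, 0 < l i) {lm : ℝ} (hlm : ∀ i, lm ≤ l i)
    (p p' u v : List (Fin d)) (hp : p.length = p'.length) :
    lm * (ham u v : ℝ) ≤ badw l (InS (p ++ v)) (ab p') u := by
  induction u generalizing p p' v with
  | nil => simp [badw]
  | cons g u ih =>
    cases v with
    | nil =>
      rw [ham_nil_right]
      simp only [Nat.cast_zero, mul_zero]
      exact badw_nonneg hl _ _ _
    | cons h v =>
      rw [ham_cons_cons, badw]
      have h1 := ih (p ++ [h]) (p' ++ [g]) v (by simp [hp])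
      rw [ab_append, ab_singleton, List.append_assoc, List.singleton_append] at h1
      push_cast
      rw [mul_add]
      refine add_le_add ?_ h1
      by_cases hgh : g = h
      · simp only [hgh, if_true, mul_zero]
        split_ifs
        · exact le_rfl
        · exact (hl h).le
      · rw [if_neg hgh, mul_one, if_neg]
        · exact hlm g
        · rintro ⟨pre, post, e1, e2⟩
          apply hgh
          have h2 : pre.length = p.length := by
            have h3 := sum_ab pre
            have h4 := sum_ab p'
            rw [e2] at h3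
            rw [hp]
            omega
          have h5 := List.append_inj e1 h2.symm
          have h6 := h5.2
          simp only [List.cons.injEq] at h6
          exact h6.1.symm

/-! ### The letter that contains a point -/

theorem exists_tile {l : Fin d → ℝ} (w : List (Fin d)) (z : ℝ) (h0 : 0 ≤ z) (h1 : z < wt l w) :
    ∃ pre g post, w = pre ++ g :: post ∧ wt l pre ≤ z ∧ z < wt l pre + l g := by
  induction w generalizing z with
  | nil => simp at h1; linarith
  | cons g w ih =>
    rw [wt_cons] at h1
    rcases lt_or_ge z (l g) with h | h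
    · exact ⟨[], g, w, rfl, by simpa using h0, by simpa using h⟩
    · obtain ⟨pre, g', post, e1, e2, e3⟩ := ih (z - l g) (by linarith) (by linarith)
      refine ⟨g :: pre, g', post, by rw [e1]; rfl, ?_, ?_⟩
      · rw [wt_cons]; linarith
      · rw [wt_cons]; linarith

/-- If all the overlapping pairs of letters in the iterates of the swapped pairs have a common
descendant then the swap defect is small. -/
theorem swapSmall_of_coin (hτ : Sub τ A) {l : Fin d → ℝ} (hl : ∀ i, 0 < l i) {Λ : ℝ} (hΛ : 1 < Λ)
    (hwt : ∀ n w, wt l (it τ n w) = Λ ^ n * wt l w) (K : ℕ)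
    (h : ∀ (n : ℕ) (x y : Fin d) (pre post pre' post' : List (Fin d)) (g g' : Fin d),
      it τ n [x, y] = pre ++ g :: post → it τ n [y, x] = pre' ++ g' :: post' →
      wt l pre' ≤ wt l pre → wt l pre < wt l pre' + l g' →
      Coin A τ K g g' (ab pre' - ab pre)) : SwapSmall τ Λ := by
  classical
  rcases Nat.eq_zero_or_pos d with hd | hd
  · subst hd
    intro ε _
    exact ⟨0, fun a => a.elim0⟩
  have hne : (Finset.univ : Finset (Fin d)).Nonempty := ⟨⟨0, hd⟩, Finset.mem_univ _⟩
  obtain ⟨i1, -, hi1⟩ := Finset.exists_min_image Finset.univ l hne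
  obtain ⟨i2, -, hi2⟩ := Finset.exists_max_image Finset.univ l hne
  set lm := l i1
  set lM := l i2
  have hlm : ∀ i, lm ≤ l i := fun i => hi1 i (Finset.mem_univ i)
  have hlM : ∀ i, l i ≤ lM := fun i => hi2 i (Finset.mem_univ i)
  have hlm0 : 0 < lm := hl i1
  have hlM0 : 0 < lM := hl i2
  have hΛ0 : 0 < Λ := by linarith
  have hΛK : 1 ≤ Λ ^ K := one_le_pow₀ hΛ.le
  set θ : ℝ := 1 - lm / (Λ ^ K * lM) with hθ
  have hθ1 : θ < 1 := by
    have : 0 < lm / (Λ ^ K * lM) := by positivity
    linarith
  have hθ0 : 0 ≤ θ := by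
    have : lm / (Λ ^ K * lM) ≤ 1 := by
      rw [div_le_one (by positivity)]
      calc lm ≤ lM := hlM i1
        _ = 1 * lM := (one_mul _).symm
        _ ≤ _ := mul_le_mul_of_nonneg_right hΛK hlM0.le
    linarith
  set β : ℝ := θ * Λ ^ K with hβ
  have hβ0 : 0 ≤ β := by positivity
  have hβ1 : β = Λ ^ K - lm / lM := by
    rw [hβ, hθ]
    field_simp
  -- the main estimate
  have main : ∀ (n : ℕ) (x y : Fin d), badw l (InS (it τ (n * K) [y, x])) 0 (it τ (n * K) [x, y]) ≤
      β ^ n * (l x + l y) := by
    intro n
    induction n with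
    | zero =>
      intro x y
      rw [Nat.zero_mul, it_zero, it_zero, pow_zero, one_mul]
      refine (badw_le hl _ _ _).trans ?_
      rw [wt_cons, wt_singleton]
    | succ n ih =>
      intro x y
      have e1 : (n + 1) * K = K + n * K := by ring
      rw [e1, it_add, it_add]
      have h1 := badw_step (P := InS (it τ (n * K) [y, x]))
        (P' := InS (it τ K (it τ (n * K) [y, x]))) (l := l) hτ K (β := β)
        (it τ (n * K) [x, y]) 0 (by
          intro pre g post hU
          rw [zero_add]
          by_cases hg : InS (it τ (n * K) [y, x]) g (ab pre)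
          · rw [if_pos hg, mul_zero]
            apply le_of_eq
            apply badw_zero
            intro p z s hz
            obtain ⟨q, t, hq1, hq2⟩ := hg
            refine ⟨it τ K q ++ p, s ++ it τ K t, ?_, ?_⟩
            · rw [hq1, it_append, it_cons, hz]
              simp
            · rw [ab_append, ab_it hτ, hq2]
          · rw [if_neg hg]
            -- find the letter of the other word that contains the left end
            have hpos : wt l pre < wt l (it τ (n * K) [y, x]) := by
              have e2 : wt l (it τ (n * K) [y, x]) = wt l (it τ (n * K) [x, y]) := by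
                rw [hwt, hwt]
                simp only [wt_cons, wt_nil]
                ring
              rw [e2, hU, wt_append, wt_cons]
              have h3 : 0 ≤ wt l post := by
                have := le_wt (c := 0) (fun i => (hl i).le) post
                simpa using this
              have h4 := hl g
              linarith
            have hpre0 : 0 ≤ wt l pre := by
              have := le_wt (c := 0) (fun i => (hl i).le) pre
              simpa using this
            obtain ⟨pre', g', post', hV, hle, hlt⟩ := exists_tile _ _ hpre0 hpos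
            obtain ⟨z, p, s, p', s', f1, f2, f3⟩ :=
              h (n * K) x y pre post pre' post' g g' hU hV hle hlt
            have hzin : InS (it τ K (it τ (n * K) [y, x])) z ((A ^ K) *ᵥ ab pre + ab p) := by
              refine ⟨it τ K pre' ++ p', s' ++ it τ K post', ?_, ?_⟩
              · rw [hV, it_append, it_cons, f2]
                simp
              · rw [ab_append, ab_it hτ]
                rw [Matrix.mulVec_sub] at f3
                have f4 : (A ^ K) *ᵥ ab pre + ab p +
                    ((A ^ K) *ᵥ ab pre' - (A ^ K) *ᵥ ab pre + ab p' - ab p) =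
                    (A ^ K) *ᵥ ab pre' + ab p' := by abel
                rw [← f4, ← f3, add_zero]
            have h5 := badw_lt (post := s) hl hzin
            rw [← f1, hwt, wt_singleton] at h5
            refine h5.trans ?_
            rw [hβ1]
            have h6 : lm / lM * l g ≤ l z := by
              calc lm / lM * l g ≤ lm / lM * lM :=
                    mul_le_mul_of_nonneg_left (hlM g) (by positivity)
                _ = lm := by field_simp
                _ ≤ l z := hlm z
            linarith)
      rw [Matrix.mulVec_zero] at h1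
      refine h1.trans ?_
      rw [pow_succ]
      calc β * badw l (InS (it τ (n * K) [y, x])) 0 (it τ (n * K) [x, y])
          ≤ β * (β ^ n * (l x + l y)) := mul_le_mul_of_nonneg_left (ih x y) hβ0
        _ = β ^ n * β * (l x + l y) := by ring
  -- conclusion
  intro ε hε
  have hlim := tendsto_pow_atTop_nhds_zero_of_lt_one hθ0 hθ1
  have hc : 0 < ε * lm / (2 * lM) := by positivity
  obtain ⟨n, hn⟩ := (hlim.eventually (gt_mem_nhds hc)).exists
  refine ⟨n * K, fun x y => ?_⟩
  have h1 := ham_le_badw hl hlm [] [] (it τ (n * K) [x, y]) (it τ (n * K) [y, x]) rfl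
  rw [List.nil_append, ab_nil] at h1
  have h2 := h1.trans (main n x y)
  have h3 : l x + l y ≤ 2 * lM := by
    have := hlM x
    have := hlM y
    linarith
  have h4 : β ^ n * (l x + l y) ≤ (ε * lm / (2 * lM)) * Λ ^ (n * K) * (2 * lM) := by
    have e1 : β ^ n = θ ^ n * Λ ^ (n * K) := by
      rw [hβ, mul_pow, ← pow_mul, mul_comm K n]
    rw [e1]
    have h5 : 0 ≤ θ ^ n * Λ ^ (n * K) := by positivity
    calc θ ^ n * Λ ^ (n * K) * (l x + l y) ≤ θ ^ n * Λ ^ (n * K) * (2 * lM) :=
          mul_le_mul_of_nonneg_left h3 h5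
      _ ≤ (ε * lm / (2 * lM)) * Λ ^ (n * K) * (2 * lM) := by
          have h6 : θ ^ n * Λ ^ (n * K) ≤ (ε * lm / (2 * lM)) * Λ ^ (n * K) :=
            mul_le_mul_of_nonneg_right hn.le (by positivity)
          exact mul_le_mul_of_nonneg_right h6 (by positivity)
  have h7 : lm * (ham (it τ (n * K) [x, y]) (it τ (n * K) [y, x]) : ℝ) ≤
      lm * (ε * Λ ^ (n * K)) := by
    refine (h2.trans h4).trans (le_of_eq ?_)
    field_simp
  exact le_of_mul_le_mul_left h7 hlm0

end Pool.Agent.Helper40_Random
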