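import Mathlib
import Pool.Agent.Helper40_Random.Overlap
import Pool.Agent.Helper40_Random.Cover

/-!
# From the properties of the words to common descendants
-/

set_option autoImplicit false

namespace Pool.Agent.Helper40_Random

open Finset Matrix
open Pool.Agent.Helper94_Pisot

variable {d : ℕ}

/-- The numerical data of a large power -/
structure Lev (M : Matrix (Fin d) (Fin d) ℤ) (r : ℝ) (α l : Fin d → ℝ) (C ρ : ℝ)
    (N : ℕ) (lm lM : ℝ) (k1 : ℕ) : Prop where
  S : Setup M r α l C ρ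
  N_pos : 1 ≤ N
  lm_pos : 0 < lm
  lm_le : ∀ i, lm ≤ l i
  le_lM : ∀ i, l i ≤ lM
  h1 : C * ρ ^ N ≤ 1 / 2
  h2 : C * ρ ^ (N * k1) * (8 * (1 + lM) * (lM / lm) * r ^ N + (1 + lM)) ≤ 1 / 2
  h4 : 4 * (lM + 1) ≤ r ^ N

section

variable {M : Matrix (Fin d) (Fin d) ℤ} {r : ℝ} {α l : Fin d → ℝ} {C ρ : ℝ} {N : ℕ} {lm lM : ℝ}
  {k1 : ℕ} {τ : Fin d → List (Fin d)}

theorem Lev.lM_pos (H : Lev M r α l C ρ N lm lM k1) : 0 < lM := by
  have h := H.S.two_le
  exact H.lm_pos.trans_le ((H.lm_le ⟨0, by omega⟩).trans (H.le_lM _))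

theorem Lev.lm_le_lM (H : Lev M r α l C ρ N lm lM k1) : lm ≤ lM := by
  have h := H.S.two_le
  exact (H.lm_le ⟨0, by omega⟩).trans (H.le_lM _)

theorem Lev.Λ_gt (H : Lev M r α l C ρ N lm lM k1) : 4 < r ^ N := by
  have := H.h4
  have := H.lM_pos
  linarith

theorem Setup.α_le_one (S : Setup M r α l C ρ) (i : Fin d) : α i ≤ 1 := by
  rw [← S.α_sum]
  exact Finset.single_le_sum (f := α) (fun j _ => (S.α_pos j).le) (Finset.mem_univ i)

theorem norm_qr_single (S : Setup M r α l C ρ) (hl : ∀ i, l i ≤ lM) (i : Fin d) :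
    ‖qr l α (re (Pi.single i 1))‖ ≤ 1 + lM := by
  have hlM : 0 < lM := (S.l_pos i).trans_le (hl i)
  rw [pi_norm_le_iff_of_nonneg (by positivity)]
  intro j
  rw [Real.norm_eq_abs]
  simp only [qr, lr_single]
  have h1 : |re (Pi.single i 1 : Fin d → ℤ) j| ≤ 1 := by
    simp only [re, Pi.single_apply]
    split_ifs <;> simp
  calc |re (Pi.single i 1 : Fin d → ℤ) j - l i * α j|
      ≤ |re (Pi.single i 1 : Fin d → ℤ) j| + |l i * α j| := abs_sub _ _
    _ ≤ 1 + lM := by
        refine add_le_add h1 ?_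
        rw [abs_mul, abs_of_pos (S.l_pos i), abs_of_pos (S.α_pos j)]
        calc l i * α j ≤ l i * 1 := mul_le_mul_of_nonneg_left (S.α_le_one j) (S.l_pos i).le
          _ ≤ lM := by rw [mul_one]; exact hl i

theorem norm_qr_ab (S : Setup M r α l C ρ) (hl : ∀ i, l i ≤ lM) (w : List (Fin d)) :
    ‖qr l α (re (ab w))‖ ≤ (1 + lM) * w.length := by
  induction w with
  | nil => simp
  | cons g w ih =>
    rw [ab_cons, re_add, qr_add, List.length_cons]
    have h1 := norm_qr_single S hl g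
    have h2 := norm_add_le (qr l α (re (Pi.single g 1))) (qr l α (re (ab w)))
    push_cast
    linarith

theorem wt_lt_of_append (hl : ∀ i, 0 < l i) (pre post : List (Fin d)) (g : Fin d) :
    wt l pre < wt l (pre ++ g :: post) := by
  rw [wt_append, wt_cons]
  have h3 : 0 ≤ wt l post := by
    have := le_wt (c := 0) (fun i => (hl i).le) post
    simpa using this
  have h4 := hl g
  linarith

theorem wt_nonneg (hl : ∀ i, 0 < l i) (w : List (Fin d)) : 0 ≤ wt l w := by
  have := le_wt (c := 0) (fun i => (hl i).le) w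
  simpa using this

/-- the box of the offsets -/
def Box (l α : Fin d → ℝ) (r : ℝ) (N : ℕ) (lm lM : ℝ) (D : Fin d → ℤ) : Prop :=
  ‖qr l α (re D)‖ ≤ 8 * (1 + lM) * (lM / lm) * r ^ N

/-- overlap at least `δ` -/
def Ov (l : Fin d → ℝ) (δ : ℝ) (i j : Fin d) (D : Fin d → ℤ) : Prop :=
  δ ≤ l i - lr l (re D) ∧ δ ≤ lr l (re D) + l j

theorem Ov.symm {δ : ℝ} {i j : Fin d} {D : Fin d → ℤ} (h : Ov l δ i j D) : Ov l δ j i (-D) := by
  obtain ⟨h1, h2⟩ := h
  rw [Ov, re_neg, lr_neg]
  constructor <;> linarith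

theorem Box.neg {D : Fin d → ℤ} (h : Box l α r N lm lM D) : Box l α r N lm lM (-D) := by
  rw [Box, re_neg, qr_neg, norm_neg]
  exact h

section level

variable (H : Lev M r α l C ρ N lm lM k1) (hτ : Sub τ (M ^ N))

include H

theorem wt_iter (hτ : Sub τ (M ^ N)) (n : ℕ) (w : List (Fin d)) :
    wt l (it τ n w) = (r ^ N) ^ n * wt l w := by
  rw [wt_eq_lr, wt_eq_lr, ab_it hτ, ← pow_mul, H.S.lr_mul, pow_mul]

theorem lr_iter (n : ℕ) (v : Fin d → ℤ) :
    lr l (re (((M ^ N) ^ n) *ᵥ v)) = (r ^ N) ^ n * lr l (re v) := by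
  rw [← pow_mul, H.S.lr_mul, pow_mul]

theorem qr_iter {n : ℕ} (hn : 1 ≤ n) (v : Fin d → ℤ) :
    ‖qr l α (re (((M ^ N) ^ n) *ᵥ v))‖ ≤ 1 / 2 * ‖qr l α (re v)‖ := by
  rw [← pow_mul]
  refine (H.S.decay _ _).trans ?_
  refine mul_le_mul_of_nonneg_right ?_ (norm_nonneg _)
  refine le_trans ?_ H.h1
  refine mul_le_mul_of_nonneg_left ?_ (by linarith [H.S.one_le])
  exact pow_le_pow_of_le_one H.S.ρ_pos.le H.S.ρ_lt.le (Nat.le_mul_of_pos_right N hn)

theorem wt_word (hτ : Sub τ (M ^ N)) (g : Fin d) : wt l (τ g) = r ^ N * l g := by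
  have h := wt_iter H hτ 1 [g]
  rw [pow_one, wt_singleton] at h
  rw [← h]
  simp [it]

theorem length_word (hτ : Sub τ (M ^ N)) (g : Fin d) :
    ((τ g).length : ℝ) ≤ r ^ N * (lM / lm) := by
  have h1 := le_wt H.lm_le (τ g)
  rw [wt_word H hτ] at h1
  have h2 := H.le_lM g
  have h3 : (0 : ℝ) < r ^ N := by linarith [H.Λ_gt]
  have h4 := H.lm_pos
  rw [mul_div_assoc', le_div_iff₀ h4]
  nlinarith

/-- the bound for the parts of the iterates -/
theorem norm_part (hτ : Sub τ (M ^ N)) (n : ℕ) (w : List (Fin d)) (hw : w.length ≤ 2)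
    (pre : List (Fin d)) (hpre : pre <+: it τ n w) :
    ‖qr l α (re (ab pre))‖ ≤ 2 * (1 + lM) * (lM / lm) * r ^ N := by
  have hlM := H.lM_pos
  have hlm := H.lm_pos
  have hΛ : 1 ≤ r ^ N := by linarith [H.Λ_gt]
  have hq : 1 ≤ lM / lm := by
    rw [one_le_div hlm]
    exact H.lm_le_lM
  induction n generalizing pre with
  | zero =>
    have h1 : pre.length ≤ 2 := (List.IsPrefix.length_le hpre).trans hw
    have h2 := norm_qr_ab H.S H.le_lM pre
    have h3 : (pre.length : ℝ) ≤ 2 := by exact_mod_cast h1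
    have h4 : 1 ≤ (lM / lm) * r ^ N := by nlinarith
    calc _ ≤ (1 + lM) * pre.length := h2
      _ ≤ (1 + lM) * 2 := mul_le_mul_of_nonneg_left h3 (by positivity)
      _ = 2 * (1 + lM) * 1 := by ring
      _ ≤ 2 * (1 + lM) * ((lM / lm) * r ^ N) := mul_le_mul_of_nonneg_left h4 (by positivity)
      _ = _ := by ring
  | succ n ih =>
    rw [it_succ'] at hpre
    have hpow1 : (M ^ N) = (M ^ N) ^ 1 := (pow_one _).symm
    rcases prefix_flatMap _ _ _ hpre with h1 | ⟨u, g, v, p', hw', hp, hp'⟩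
    · rw [h1, ab_flatMap hτ, hpow1]
      refine (qr_iter H le_rfl _).trans ?_
      have := ih (it τ n w) List.prefix_rfl
      have h0 := norm_nonneg (qr l α (re (ab (it τ n w))))
      linarith
    · rw [hp, ab_append, re_add, qr_add, ab_flatMap hτ, hpow1]
      refine (norm_add_le _ _).trans ?_
      have h2 := qr_iter H le_rfl (ab u)
      have h3 := ih u (by rw [hw']; exact List.prefix_append _ _)
      have h4 := norm_qr_ab H.S H.le_lM p'
      have h5 : (p'.length : ℝ) ≤ (τ g).length := by exact_mod_cast List.IsPrefix.length_le hp'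
      have h6 := length_word H hτ g
      have h7 : (1 + lM) * (p'.length : ℝ) ≤ (1 + lM) * (r ^ N * (lM / lm)) :=
        mul_le_mul_of_nonneg_left (h5.trans h6) (by positivity)
      linarith

/-- descendants stay in the box -/
theorem Desc.box (hτ : Sub τ (M ^ N)) {n : ℕ} (hn : 1 ≤ n) {i j i' j' : Fin d} {D D' : Fin d → ℤ}
    (h : Desc (M ^ N) τ n i j D i' j' D') (hD : Box l α r N lm lM D) :
    Box l α r N lm lM D' := by
  obtain ⟨p, s, p', s', e1, e2, e3⟩ := h
  have h1 := norm_part H hτ n [i] (by simp) p (by rw [e1]; exact List.prefix_append _ _)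
  have h2 := norm_part H hτ n [j] (by simp) p' (by rw [e2]; exact List.prefix_append _ _)
  have h3 := qr_iter H hn D
  rw [Box] at hD ⊢
  rw [e3, re_sub, re_add, qr_sub, qr_add]
  refine (norm_sub_le _ _).trans ?_
  have h4 := norm_add_le (qr l α (re (((M ^ N) ^ n) *ᵥ D))) (qr l α (re (ab p')))
  linarith

/-- the diophantine estimate -/
theorem dioph {v : Fin d → ℤ} (hv : v ≠ 0)
    (hq : ‖qr l α (re v)‖ ≤ 8 * (1 + lM) * (lM / lm) * r ^ N + (1 + lM)) :
    1 / 2 ≤ (r ^ N) ^ k1 * |lr l (re v)| := by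
  have hr : 0 < r := by linarith [H.S.one_lt]
  have hne : (M ^ (N * k1)) *ᵥ v ≠ 0 := by
    intro h0
    apply hv
    have hdet : IsUnit (M ^ (N * k1)).det := by
      rw [Matrix.det_pow]
      apply IsUnit.pow
      rcases H.S.det with h | h <;> rw [h] <;> simp
    have h1 : ((M ^ (N * k1))⁻¹ * (M ^ (N * k1))) *ᵥ v = 0 := by
      rw [← Matrix.mulVec_mulVec, h0, Matrix.mulVec_zero]
    rwa [Matrix.nonsing_inv_mul _ hdet, Matrix.one_mulVec] at h1
  obtain ⟨i, hi⟩ : ∃ i, ((M ^ (N * k1)) *ᵥ v) i ≠ 0 := by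
    by_contra hcon
    push Not at hcon
    exact hne (funext hcon)
  have h1 : (1 : ℝ) ≤ |(((M ^ (N * k1)) *ᵥ v) i : ℝ)| := by
    have := Int.one_le_abs hi
    exact_mod_cast this
  have h2 : (((M ^ (N * k1)) *ᵥ v) i : ℝ) =
      lr l (re ((M ^ (N * k1)) *ᵥ v)) * α i + qr l α (re ((M ^ (N * k1)) *ᵥ v)) i := by
    simp only [qr, re]
    ring
  have h3 : |qr l α (re ((M ^ (N * k1)) *ᵥ v)) i| ≤ 1 / 2 := by
    rw [← Real.norm_eq_abs]
    refine (norm_le_pi_norm _ i).trans ((H.S.decay _ _).trans (le_trans ?_ H.h2))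
    exact mul_le_mul_of_nonneg_left hq
      (mul_nonneg (by linarith [H.S.one_le]) (pow_nonneg H.S.ρ_pos.le _))
  rw [h2, H.S.lr_mul] at h1
  have h4 := abs_add_le (r ^ (N * k1) * lr l (re v) * α i)
    (qr l α (re ((M ^ (N * k1)) *ᵥ v)) i)
  have h5 : |r ^ (N * k1) * lr l (re v) * α i| ≤ (r ^ N) ^ k1 * |lr l (re v)| := by
    rw [abs_mul, abs_mul, abs_of_pos (pow_pos hr _), abs_of_pos (H.S.α_pos i), pow_mul]
    calc (r ^ N) ^ k1 * |lr l (re v)| * α i ≤ (r ^ N) ^ k1 * |lr l (re v)| * 1 :=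
          mul_le_mul_of_nonneg_left (H.S.α_le_one i) (by positivity)
      _ = _ := mul_one _
  linarith

theorem dioph_box {D : Fin d → ℤ} (hD : Box l α r N lm lM D) (h0 : D ≠ 0) :
    1 / 2 ≤ (r ^ N) ^ k1 * |lr l (re D)| := by
  apply dioph H h0
  rw [Box] at hD
  have := H.lM_pos
  linarith

theorem lr_ne_zero {D : Fin d → ℤ} (hD : Box l α r N lm lM D) (h0 : D ≠ 0) :
    lr l (re D) ≠ 0 := by
  intro h
  have := dioph_box H hD h0
  rw [h] at this
  simp at this
  linarith

/-- Step A: large overlap after `k1 + 1` levels -/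
theorem stepA (hτ : Sub τ (M ^ N)) {i j : Fin d} {D : Fin d → ℤ} (hD : Box l α r N lm lM D)
    (hov1 : lr l (re D) < l i) (hov2 : -l j < lr l (re D)) :
    ∃ i' j' D', Desc (M ^ N) τ (k1 + 1) i j D i' j' D' ∧ Ov l (lm / 2) i' j' D' ∧
      Box l α r N lm lM D' := by
  have hΛ := H.Λ_gt
  set Λ := r ^ N with hΛdef
  have hΛ0 : 0 < Λ := by linarith
  have hlM := H.lM_pos
  have hpk : 0 < Λ ^ k1 := pow_pos hΛ0 _
  have hpos : ∀ g, l g ≤ lM := H.le_lM
  have hl := H.S.l_pos
  have hsingle := fun g => norm_qr_single H.S H.le_lM g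
  -- lower bounds for the four lengths
  have b1 : ∀ g, 1 / 2 ≤ Λ ^ k1 * l g := by
    intro g
    have h1 : (Pi.single g 1 : Fin d → ℤ) ≠ 0 := by
      intro h
      have := congrFun h g
      simp at this
    have h2 := dioph H h1 ((hsingle g).trans (by
      have : 0 ≤ 8 * (1 + lM) * (lM / lm) * r ^ N := by
        have := H.lm_pos
        positivity
      linarith))
    rwa [lr_single, abs_of_pos (hl g)] at h2
  have b2 : 1 / 2 ≤ Λ ^ k1 * (l i - lr l (re D)) := by
    have h1 : (Pi.single i 1 - D : Fin d → ℤ) ≠ 0 := by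
      intro h
      have h2 : lr l (re (Pi.single i 1 - D)) = 0 := by rw [h]; simp
      rw [re_sub, lr_sub, lr_single] at h2
      linarith
    have h2 := dioph H h1 (by
      rw [re_sub, qr_sub]
      refine (norm_sub_le _ _).trans ?_
      have := hsingle i
      rw [Box] at hD
      linarith)
    rw [re_sub, lr_sub, lr_single, abs_of_pos (by linarith)] at h2
    exact h2
  have b3 : 1 / 2 ≤ Λ ^ k1 * (lr l (re D) + l j) := by
    have h1 : (D + Pi.single j 1 : Fin d → ℤ) ≠ 0 := by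
      intro h
      have h2 : lr l (re (D + Pi.single j 1)) = 0 := by rw [h]; simp
      rw [re_add, lr_add, lr_single] at h2
      linarith
    have h2 := dioph H h1 (by
      rw [re_add, qr_add]
      refine (norm_add_le _ _).trans ?_
      have := hsingle j
      rw [Box] at hD
      linarith)
    rw [re_add, lr_add, lr_single, abs_of_pos (by linarith)] at h2
    exact h2
  set P := Λ ^ (k1 + 1) with hP
  have hPs : P = Λ * Λ ^ k1 := by rw [hP, pow_succ]; ring
  have hP0 : 0 < P := pow_pos hΛ0 _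
  set T := P * lr l (re D) with hT
  -- the four differences
  have hhalf : 2 * (lM + 1) ≤ Λ / 2 := by
    have := H.h4
    linarith
  have g1 : ∀ g, 2 * (lM + 1) ≤ P * l g := by
    intro g
    have := b1 g
    rw [hPs, mul_assoc]
    nlinarith
  have g2 : 2 * (lM + 1) ≤ P * l i - T := by
    have e : P * l i - T = Λ * (Λ ^ k1 * (l i - lr l (re D))) := by rw [hT, hPs]; ring
    rw [e]
    nlinarith
  have g3 : 2 * (lM + 1) ≤ T + P * l j := by
    have e : T + P * l j = Λ * (Λ ^ k1 * (lr l (re D) + l j)) := by rw [hT, hPs]; ring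
    rw [e]
    nlinarith
  set lo := max 0 T with hlo
  set hi := min (P * l i) (T + P * l j) with hhi
  have hgap : 2 * (lM + 1) ≤ hi - lo := by
    rw [hlo, hhi]
    rcases le_total 0 T with h1 | h1 <;> rcases le_total (P * l i) (T + P * l j) with h2 | h2
    · rw [max_eq_right h1, min_eq_left h2]; exact g2
    · rw [max_eq_right h1, min_eq_right h2]
      have := g1 j
      linarith
    · rw [max_eq_left h1, min_eq_left h2]
      have := g1 i
      linarith
    · rw [max_eq_left h1, min_eq_right h2]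
      linarith
  set m := (lo + hi) / 2 with hm
  have hlo0 : 0 ≤ lo := le_max_left _ _
  have hloT : T ≤ lo := le_max_right _ _
  have hhi1 : hi ≤ P * l i := min_le_left _ _
  have hhi2 : hi ≤ T + P * l j := min_le_right _ _
  have hw : wt l (it τ (k1 + 1) [i]) = P * l i := by
    rw [wt_iter H hτ, wt_singleton]
  have hw' : wt l (it τ (k1 + 1) [j]) = P * l j := by
    rw [wt_iter H hτ, wt_singleton]
  obtain ⟨pre, g, post, e1, e2, e3⟩ := exists_tile (l := l) (it τ (k1 + 1) [i]) m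
    (by rw [hm]; linarith) (by rw [hw, hm]; linarith)
  set z := wt l pre + l g / 2 with hz
  have hlg := H.le_lM g
  have hlg0 := hl g
  have hz1 : lo < z := by rw [hz]; rw [hm] at e3; linarith
  have hz2 : z < hi := by rw [hz]; rw [hm] at e2; linarith
  obtain ⟨pre', g', post', f1, f2, f3⟩ := exists_tile (l := l) (it τ (k1 + 1) [j]) (z - T)
    (by linarith) (by rw [hw']; linarith)
  refine ⟨g, g', _, ⟨pre, post, pre', post', e1, f1, rfl⟩, ?_, ?_⟩
  · have hlr : lr l (re (((M ^ N) ^ (k1 + 1)) *ᵥ D + ab pre' - ab pre)) =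
        T + wt l pre' - wt l pre := by
      rw [re_sub, re_add, lr_sub, lr_add, lr_iter H, ← wt_eq_lr, ← wt_eq_lr]
    rw [Ov, hlr]
    have h5 := H.lm_le g
    constructor
    · rw [hz] at f2; linarith
    · rw [hz] at f3; linarith
  · exact Desc.box H hτ (by omega) ⟨pre, post, pre', post', e1, f1, rfl⟩ hD

end level

end

end Pool.Agent.Helper40_Random
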