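import Mathlib
import Pool.Agent.Helper40_Random.Chain

/-!
# The chain of descendants
-/

set_option autoImplicit false

namespace Pool.Agent.Helper40_Random

open Finset Matrix
open Pool.Agent.Helper94_Pisot

variable {d : ℕ}

/-- all the vectors `w` of a region are contents of blocks from `a` to `a` in the word of `a` -/
def EvA (l α : Fin d → ℝ) (W : List (Fin d)) (a : Fin d) (X R : ℝ) : Prop :=
  ∀ w : Fin d → ℤ, X / 2 ≤ lr l (re w) → lr l (re w) ≤ 2 * X → ‖qr l α (re w)‖ ≤ R →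
    ∃ pre v post, W = pre ++ ((a :: v) ++ (a :: post)) ∧ ab (a :: v) = w

/-- two words, the second one shifted by `T`, have nearly aligned letters `a` -/
def EvB (l : Fin d → ℝ) (W W' : List (Fin d)) (a : Fin d) (η T : ℝ) : Prop :=
  ∃ pre post pre' post', W = pre ++ a :: post ∧ W' = pre' ++ a :: post' ∧
    η ≤ T + wt l pre' - wt l pre ∧ T + wt l pre' - wt l pre ≤ 2 * η

/-- the word has no short period -/
def EvC (W : List (Fin d)) (P : ℝ) : Prop :=
  ∀ pre s : List (Fin d), W = pre ++ s → 1 ≤ pre.length → (pre.length : ℝ) ≤ P →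
    ∃ u x y s' s'', W = u ++ x :: s' ∧ s = u ++ y :: s'' ∧ x ≠ y

section

variable {M : Matrix (Fin d) (Fin d) ℤ} {r : ℝ} {α l : Fin d → ℝ} {C ρ : ℝ} {N : ℕ} {lm lM : ℝ}
  {k1 : ℕ} {τ : Fin d → List (Fin d)}

theorem it_one (τ : Fin d → List (Fin d)) (i : Fin d) : it τ 1 [i] = τ i := by
  simp [it]

variable (H : Lev M r α l C ρ N lm lM k1) (hτ : Sub τ (M ^ N))

include H hτ

/-- Step D -/
theorem stepD {a : Fin d} {η R1 : ℝ} (hη : 0 < η) (hA : EvA l α (τ a) a (r ^ N * η) (3 * R1))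
    (hR1 : 0 ≤ R1)
    (hcov : ∀ T : ℝ, ∃ w : Fin d → ℤ, |lr l (re w) - T| ≤ η / 2 ∧ ‖qr l α (re w)‖ ≤ R1)
    (k : ℕ) (D : Fin d → ℤ) (h1 : η ≤ lr l (re D)) (h2 : lr l (re D) ≤ 2 * η)
    (h3 : (C * ρ ^ N) ^ k * (‖qr l α (re D)‖ - 2 * R1) ≤ R1) :
    Coin (M ^ N) τ (k + 1) a a D := by
  have hΛ := H.Λ_gt
  have hκ0 : 0 ≤ C * ρ ^ N := mul_nonneg (by linarith [H.S.one_le]) (pow_nonneg H.S.ρ_pos.le _)
  have hκ := H.h1
  induction k generalizing D with
  | zero =>
    rw [pow_zero, one_mul] at h3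
    have e1 : lr l (re ((M ^ N) *ᵥ D)) = r ^ N * lr l (re D) := H.S.lr_mul N D
    obtain ⟨pre, v, post, f1, f2⟩ := hA ((M ^ N) *ᵥ D) (by rw [e1]; nlinarith)
      (by rw [e1]; nlinarith) (by
        refine (H.S.decay N D).trans ?_
        have := norm_nonneg (qr l α (re D))
        nlinarith)
    refine ⟨a, pre ++ (a :: v), post, pre, v ++ a :: post, ?_, ?_, ?_⟩
    · rw [zero_add, it_one, f1]
      simp
    · rw [zero_add, it_one, f1]
      simp
    · rw [zero_add, pow_one, ab_append, f2]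
      abel
  | succ k ih =>
    have e1 : lr l (re ((M ^ N) *ᵥ D)) = r ^ N * lr l (re D) := H.S.lr_mul N D
    obtain ⟨w, hw1, hw2⟩ := hcov (lr l (re ((M ^ N) *ᵥ D)) - 3 / 2 * η)
    rw [abs_le] at hw1
    obtain ⟨pre, v, post, f1, f2⟩ := hA w (by
        have : r ^ N * η ≤ lr l (re ((M ^ N) *ᵥ D)) := by rw [e1]; nlinarith
        nlinarith) (by
        have : lr l (re ((M ^ N) *ᵥ D)) ≤ 2 * (r ^ N * η) := by rw [e1]; nlinarith
        nlinarith) (by linarith)
    have hdesc : Desc (M ^ N) τ 1 a a D a a ((M ^ N) *ᵥ D - w) := by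
      refine ⟨pre ++ (a :: v), post, pre, v ++ a :: post, ?_, ?_, ?_⟩
      · rw [it_one, f1]
        simp
      · rw [it_one, f1]
        simp
      · rw [pow_one, ab_append, f2]
        abel
    have hlr : lr l (re ((M ^ N) *ᵥ D - w)) = lr l (re ((M ^ N) *ᵥ D)) - lr l (re w) := by
      rw [re_sub, lr_sub]
    have hq : ‖qr l α (re ((M ^ N) *ᵥ D - w))‖ ≤ C * ρ ^ N * ‖qr l α (re D)‖ + R1 := by
      rw [re_sub, qr_sub]
      refine (norm_sub_le _ _).trans ?_
      have := H.S.decay N D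
      linarith
    have h4 := ih ((M ^ N) *ᵥ D - w) (by rw [hlr]; linarith) (by rw [hlr]; linarith) (by
      refine le_trans ?_ h3
      rw [pow_succ, mul_assoc]
      refine mul_le_mul_of_nonneg_left ?_ (pow_nonneg hκ0 k)
      nlinarith)
    have h5 := hdesc.coin hτ h4
    exact h5

/-- Step C -/
theorem stepC {a : Fin d} {η R1 B0 : ℝ} {k2 : ℕ} (hη : 0 < η)
    (hA : EvA l α (τ a) a (r ^ N * η) (3 * R1)) (hR1 : 0 ≤ R1)
    (hcov : ∀ T : ℝ, ∃ w : Fin d → ℤ, |lr l (re w) - T| ≤ η / 2 ∧ ‖qr l α (re w)‖ ≤ R1)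
    (hk2 : (C * ρ ^ N) ^ k2 * (8 * (1 + lM) * (lM / lm) * r ^ N) ≤ R1)
    (hB : ∀ i j D, Box l α r N lm lM D → Ov l (lm / 2) i j D → (i ≠ j ∨ B0 ≤ r ^ N * lr l (re D)) →
      EvB l (τ i) (τ j) a η (r ^ N * lr l (re D)))
    {i j : Fin d} {D : Fin d → ℤ} (hD : Box l α r N lm lM D) (hov : Ov l (lm / 2) i j D)
    (hgood : i ≠ j ∨ B0 ≤ r ^ N * |lr l (re D)|) : Coin (M ^ N) τ (k2 + 2) i j D := by
  have hκ0 : 0 ≤ C * ρ ^ N := mul_nonneg (by linarith [H.S.one_le]) (pow_nonneg H.S.ρ_pos.le _)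
  have key : ∀ {i j : Fin d} {D : Fin d → ℤ}, Box l α r N lm lM D → Ov l (lm / 2) i j D →
      (i ≠ j ∨ B0 ≤ r ^ N * lr l (re D)) → Coin (M ^ N) τ (k2 + 2) i j D := by
    intro i j D hD hov hg
    obtain ⟨pre, post, pre', post', e1, e2, e3, e4⟩ := hB i j D hD hov hg
    have hdesc : Desc (M ^ N) τ 1 i j D a a ((M ^ N) *ᵥ D + ab pre' - ab pre) := by
      refine ⟨pre, post, pre', post', ?_, ?_, ?_⟩
      · rw [it_one, e1]
      · rw [it_one, e2]
      · rw [pow_one]
    have hlr : lr l (re ((M ^ N) *ᵥ D + ab pre' - ab pre)) =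
        r ^ N * lr l (re D) + wt l pre' - wt l pre := by
      rw [re_sub, re_add, lr_sub, lr_add, H.S.lr_mul, ← wt_eq_lr, ← wt_eq_lr]
    have hbox := Desc.box H hτ le_rfl hdesc hD
    have h1 := stepD H hτ hη hA hR1 hcov k2 _ (by rw [hlr]; exact e3) (by rw [hlr]; exact e4) (by
      rw [Box] at hbox
      refine le_trans ?_ hk2
      refine mul_le_mul_of_nonneg_left ?_ (pow_nonneg hκ0 _)
      linarith)
    exact hdesc.coin hτ h1
  by_cases hij : i = j
  · subst hij
    rcases hgood with h | h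
    · exact absurd rfl h
    · rcases le_total 0 (lr l (re D)) with h0 | h0
      · rw [abs_of_nonneg h0] at h
        exact key hD hov (Or.inr h)
      · rw [abs_of_nonpos h0] at h
        apply Coin.symm'
        apply key hD.neg hov.symm
        right
        rw [re_neg, lr_neg]
        exact h
  · exact key hD hov (Or.inl hij)

omit H in
theorem word_cons (i : Fin d) : ∃ f s, τ i = f :: s := by
  cases h : τ i with
  | nil => exact absurd h (hτ.ne_nil i)
  | cons f s => exact ⟨f, s, rfl⟩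

/-- Step B, one step: a nearly aligned equal pair whose shift becomes medium -/
theorem stepB1 {B0 : ℝ} {K : ℕ} (hB0 : 0 < B0) (hC : ∀ i, EvC (τ i) ((B0 + lM) / lm))
    (hbig1 : 2 * B0 < r ^ N * lm) (hbig2 : B0 + lM ≤ r ^ N * lm)
    (hgood : ∀ i j D, Box l α r N lm lM D → Ov l (lm / 2) i j D →
      (i ≠ j ∨ B0 ≤ r ^ N * |lr l (re D)|) → Coin (M ^ N) τ K i j D)
    {i : Fin d} {D : Fin d → ℤ} (hD : Box l α r N lm lM D)
    (h1 : lm / 2 < r ^ N * lr l (re D)) (h2 : r ^ N * lr l (re D) < B0) :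
    Coin (M ^ N) τ (K + 1) i i D := by
  have hΛ := H.Λ_gt
  have hΛ0 : 0 < r ^ N := by linarith
  have hlm := H.lm_pos
  set T := r ^ N * lr l (re D) with hT
  obtain ⟨f, s, hfs⟩ := word_cons (hτ := hτ) i
  have hlf1 := H.lm_le f
  have hlf2 := H.le_lM f
  have hli := H.lm_le i
  set z := T + l f / 2 with hz
  have hw : wt l (τ i) = r ^ N * l i := wt_word H hτ i
  obtain ⟨pre, g, post, e1, e2, e3⟩ := exists_tile (l := l) (τ i) z (by linarith) (by
    rw [hw]
    have : r ^ N * lm ≤ r ^ N * l i := mul_le_mul_of_nonneg_left hli hΛ0.le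
    linarith)
  set D' := (M ^ N) *ᵥ D + ab ([] : List (Fin d)) - ab pre with hD'
  have hdesc : Desc (M ^ N) τ 1 i i D g f D' := by
    refine ⟨pre, post, [], s, ?_, ?_, ?_⟩
    · rw [it_one, e1]
    · rw [it_one, hfs]; rfl
    · rw [pow_one]
  have hlr : lr l (re D') = T - wt l pre := by
    rw [hD', ab_nil, add_zero, re_sub, lr_sub, H.S.lr_mul, ← wt_eq_lr]
  have hbox : Box l α r N lm lM D' := Desc.box H hτ le_rfl hdesc hD
  have hov : Ov l (lm / 2) g f D' := by
    rw [Ov, hlr]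
    constructor
    · have := H.lm_le g
      linarith
    · linarith
  by_cases hgf : g = f
  · by_cases hD0 : D' = 0
    · rw [hD0, hgf] at hdesc
      exact hdesc.coin hτ (coin_zero hτ K f)
    · by_cases hbig : B0 ≤ r ^ N * |lr l (re D')|
      · exact hdesc.coin hτ (hgood g f D' hbox hov (Or.inr hbig))
      · push Not at hbig
        -- the tiles stay nearly aligned until the letters differ
        have hpre1 : 1 ≤ pre.length := by
          by_contra hcon
          have : pre = [] := List.eq_nil_of_length_eq_zero (by omega)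
          rw [hlr, this, wt_nil, sub_zero] at hbig
          have h5 : T ≤ |T| := le_abs_self T
          have h6 : r ^ N * (lm / 2) < r ^ N * |T| := by
            apply mul_lt_mul_of_pos_left _ hΛ0
            linarith
          linarith
        have hpre2 : (pre.length : ℝ) ≤ (B0 + lM) / lm := by
          rw [le_div_iff₀ hlm]
          have := le_wt H.lm_le pre
          nlinarith
        obtain ⟨u, x, y, s', s'', g1, g2, g3⟩ := hC i pre (g :: post) e1 hpre1 hpre2
        have hdesc2 : Desc (M ^ N) τ 1 i i D y x D' := by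
          refine ⟨pre ++ u, s'', u, s', ?_, ?_, ?_⟩
          · rw [it_one, e1, g2]
            simp
          · rw [it_one]
            exact g1
          · rw [pow_one, ab_append, hD', ab_nil]
            abel
        have hsmall : |lr l (re D')| < lm / 2 := by
          by_contra hcon
          push Not at hcon
          have h6 : r ^ N * (lm / 2) ≤ r ^ N * |lr l (re D')| :=
            mul_le_mul_of_nonneg_left hcon hΛ0.le
          linarith
        rw [abs_lt] at hsmall
        have hov2 : Ov l (lm / 2) y x D' := by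
          have h7 := H.lm_le y
          have h8 := H.lm_le x
          rw [Ov]
          constructor <;> linarith
        exact hdesc2.coin hτ (hgood y x D' hbox hov2 (Or.inl (Ne.symm g3)))
  · exact hdesc.coin hτ (hgood g f D' hbox hov (Or.inl hgf))

/-- Step B -/
theorem stepB {B0 : ℝ} {K : ℕ} (hB0 : 0 < B0) (hC : ∀ i, EvC (τ i) ((B0 + lM) / lm))
    (hbig1 : 2 * B0 < r ^ N * lm) (hbig2 : B0 + lM ≤ r ^ N * lm)
    (hgood : ∀ i j D, Box l α r N lm lM D → Ov l (lm / 2) i j D →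
      (i ≠ j ∨ B0 ≤ r ^ N * |lr l (re D)|) → Coin (M ^ N) τ K i j D)
    (k : ℕ) {i : Fin d} {D : Fin d → ℤ} (hD : Box l α r N lm lM D) (hov : Ov l (lm / 2) i i D)
    (h0 : 0 < lr l (re D)) (h1 : lm / 2 < (r ^ N) ^ k * lr l (re D)) :
    Coin (M ^ N) τ (K + 1 + k) i i D := by
  have hΛ := H.Λ_gt
  have hΛ0 : 0 < r ^ N := by linarith
  have hlm := H.lm_pos
  induction k generalizing i D with
  | zero =>
    rw [pow_zero, one_mul] at h1
    refine (hgood i i D hD hov (Or.inr ?_)).mono hτ (by omega)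
    have h2 := le_abs_self (lr l (re D))
    have : r ^ N * (lm / 2) ≤ r ^ N * |lr l (re D)| :=
      mul_le_mul_of_nonneg_left (by linarith) hΛ0.le
    linarith
  | succ k ih =>
    by_cases hb : B0 ≤ r ^ N * lr l (re D)
    · refine (hgood i i D hD hov (Or.inr ?_)).mono hτ (by omega)
      rw [abs_of_pos h0]
      exact hb
    · push Not at hb
      by_cases hs : r ^ N * lr l (re D) ≤ lm / 2
      · obtain ⟨f, s, hfs⟩ := word_cons (hτ := hτ) i
        have hdesc : Desc (M ^ N) τ 1 i i D f f ((M ^ N) *ᵥ D) := by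
          refine ⟨[], s, [], s, ?_, ?_, ?_⟩
          · rw [it_one, hfs]; rfl
          · rw [it_one, hfs]; rfl
          · rw [pow_one, ab_nil]
            simp
        have hlr : lr l (re ((M ^ N) *ᵥ D)) = r ^ N * lr l (re D) := H.S.lr_mul N D
        have hbox := Desc.box H hτ le_rfl hdesc hD
        have hlf := H.lm_le f
        have h3 := ih hbox (i := f) (by
          rw [Ov, hlr]
          have : 0 < r ^ N * lr l (re D) := mul_pos hΛ0 h0
          constructor <;> linarith) (by rw [hlr]; exact mul_pos hΛ0 h0) (by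
          rw [hlr, ← mul_assoc, ← pow_succ]
          exact h1)
        have := hdesc.coin hτ h3
        exact this
      · push Not at hs
        exact (stepB1 H hτ hB0 hC hbig1 hbig2 hgood hD hs hb).mono hτ (by omega)

/-- The chain theorem: all the overlapping pairs in the box have a common descendant. -/
theorem chain {a : Fin d} {η R1 B0 : ℝ} {k2 : ℕ} (hη : 0 < η)
    (hA : EvA l α (τ a) a (r ^ N * η) (3 * R1)) (hR1 : 0 ≤ R1)
    (hcov : ∀ T : ℝ, ∃ w : Fin d → ℤ, |lr l (re w) - T| ≤ η / 2 ∧ ‖qr l α (re w)‖ ≤ R1)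
    (hk2 : (C * ρ ^ N) ^ k2 * (8 * (1 + lM) * (lM / lm) * r ^ N) ≤ R1)
    (hB : ∀ i j D, Box l α r N lm lM D → Ov l (lm / 2) i j D → (i ≠ j ∨ B0 ≤ r ^ N * lr l (re D)) →
      EvB l (τ i) (τ j) a η (r ^ N * lr l (re D)))
    (hB0 : 0 < B0) (hC : ∀ i, EvC (τ i) ((B0 + lM) / lm))
    (hbig1 : 2 * B0 < r ^ N * lm) (hbig2 : B0 + lM ≤ r ^ N * lm)
    {i j : Fin d} {D : Fin d → ℤ} (hD : Box l α r N lm lM D)
    (h1 : lr l (re D) < l i) (h2 : -l j < lr l (re D)) :
    Coin (M ^ N) τ (k2 + 2 + 1 + (k1 + 1) + (k1 + 1)) i j D := by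
  have hΛ := H.Λ_gt
  have hΛ0 : 0 < r ^ N := by linarith
  obtain ⟨i', j', D', hdesc, hov, hbox⟩ := stepA H hτ hD h1 h2
  have hgood : ∀ i j D, Box l α r N lm lM D → Ov l (lm / 2) i j D →
      (i ≠ j ∨ B0 ≤ r ^ N * |lr l (re D)|) → Coin (M ^ N) τ (k2 + 2) i j D :=
    fun i j D hD hov hg => stepC H hτ hη hA hR1 hcov hk2 hB hD hov hg
  apply hdesc.coin hτ
  by_cases hij : i' = j'
  · subst hij
    by_cases hD0 : D' = 0
    · rw [hD0]
      exact coin_zero hτ _ _
    · have hdio := dioph_box H hbox hD0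
      have hne := lr_ne_zero H hbox hD0
      have hb : lm / 2 < (r ^ N) ^ (k1 + 1) * |lr l (re D')| := by
        rw [pow_succ, mul_assoc, mul_comm (r ^ N) |lr l (re D')|, ← mul_assoc]
        have h4 := H.h4
        have h5 := H.lm_le_lM
        nlinarith
      rcases lt_or_gt_of_ne hne with h3 | h3
      · apply Coin.symm'
        apply stepB H hτ hB0 hC hbig1 hbig2 hgood (k1 + 1) hbox.neg hov.symm
        · rw [re_neg, lr_neg]; linarith
        · rw [re_neg, lr_neg]
          rw [abs_of_neg h3] at hb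
          exact hb
      · apply stepB H hτ hB0 hC hbig1 hbig2 hgood (k1 + 1) hbox hov h3
        rw [abs_of_pos h3] at hb
        exact hb
  · exact (hgood i' j' D' hbox hov (Or.inl hij)).mono hτ (by omega)

/-- The conclusion: the swap defect is small. -/
theorem swapSmall_of_events {a : Fin d} {η R1 B0 : ℝ} {k2 : ℕ} (hη : 0 < η)
    (hA : EvA l α (τ a) a (r ^ N * η) (3 * R1)) (hR1 : 0 ≤ R1)
    (hcov : ∀ T : ℝ, ∃ w : Fin d → ℤ, |lr l (re w) - T| ≤ η / 2 ∧ ‖qr l α (re w)‖ ≤ R1)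
    (hk2 : (C * ρ ^ N) ^ k2 * (8 * (1 + lM) * (lM / lm) * r ^ N) ≤ R1)
    (hB : ∀ i j D, Box l α r N lm lM D → Ov l (lm / 2) i j D → (i ≠ j ∨ B0 ≤ r ^ N * lr l (re D)) →
      EvB l (τ i) (τ j) a η (r ^ N * lr l (re D)))
    (hB0 : 0 < B0) (hC : ∀ i, EvC (τ i) ((B0 + lM) / lm))
    (hbig1 : 2 * B0 < r ^ N * lm) (hbig2 : B0 + lM ≤ r ^ N * lm) : SwapSmall τ (r ^ N) := by
  have hΛ := H.Λ_gt
  have hlM := H.lM_pos
  have hlm := H.lm_pos
  apply swapSmall_of_coin hτ H.S.l_pos (by linarith) (wt_iter H hτ)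
    (k2 + 2 + 1 + (k1 + 1) + (k1 + 1))
  intro n x y pre post pre' post' g g' e1 e2 e3 e4
  have hlr : lr l (re (ab pre' - ab pre)) = wt l pre' - wt l pre := by
    rw [re_sub, lr_sub, ← wt_eq_lr, ← wt_eq_lr]
  apply chain H hτ hη hA hR1 hcov hk2 hB hB0 hC hbig1 hbig2
  · have h1 := norm_part H hτ n [x, y] (by simp) pre (by rw [e1]; exact List.prefix_append _ _)
    have h2 := norm_part H hτ n [y, x] (by simp) pre' (by rw [e2]; exact List.prefix_append _ _)
    rw [Box, re_sub, qr_sub]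
    refine (norm_sub_le _ _).trans ?_
    have h3 : 0 ≤ 2 * (1 + lM) * (lM / lm) * r ^ N := by
      have : 0 < r ^ N := by linarith
      positivity
    linarith
  · rw [hlr]
    have := H.S.l_pos g
    linarith
  · rw [hlr]
    linarith

end

end Pool.Agent.Helper40_Random
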