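import Mathlib

/-!
# Expectations over words with independent letters
-/

set_option autoImplicit false

namespace Pool.Agent.Helper40_Random

open Finset

variable {d : ℕ}

/-- expectation over words of `n` independent letters of law `p` -/
noncomputable def Ex (p : Fin d → ℝ) : ℕ → (List (Fin d) → ℝ) → ℝ
  | 0, φ => φ []
  | n + 1, φ => ∑ i, p i * Ex p n (fun w => φ (i :: w))

@[simp] theorem Ex_zero (p : Fin d → ℝ) (φ : List (Fin d) → ℝ) : Ex p 0 φ = φ [] := rfl

theorem Ex_succ (p : Fin d → ℝ) (n : ℕ) (φ : List (Fin d) → ℝ) :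
    Ex p (n + 1) φ = ∑ i, p i * Ex p n (fun w => φ (i :: w)) := rfl

theorem Ex_congr (p : Fin d → ℝ) {n : ℕ} {φ ψ : List (Fin d) → ℝ}
    (h : ∀ w : List (Fin d), w.length = n → φ w = ψ w) : Ex p n φ = Ex p n ψ := by
  induction n generalizing φ ψ with
  | zero => exact h [] rfl
  | succ n ih =>
    rw [Ex_succ, Ex_succ]
    refine Finset.sum_congr rfl fun i _ => ?_
    rw [ih fun w hw => h (i :: w) (by simp [hw])]

theorem Ex_add (p : Fin d → ℝ) (n : ℕ) (φ ψ : List (Fin d) → ℝ) :
    Ex p n (fun w => φ w + ψ w) = Ex p n φ + Ex p n ψ := by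
  induction n generalizing φ ψ with
  | zero => rfl
  | succ n ih =>
    rw [Ex_succ, Ex_succ, Ex_succ, ← Finset.sum_add_distrib]
    refine Finset.sum_congr rfl fun i _ => ?_
    rw [ih]
    ring

theorem Ex_const_mul (p : Fin d → ℝ) (n : ℕ) (c : ℝ) (φ : List (Fin d) → ℝ) :
    Ex p n (fun w => c * φ w) = c * Ex p n φ := by
  induction n generalizing φ with
  | zero => rfl
  | succ n ih =>
    rw [Ex_succ, Ex_succ, Finset.mul_sum]
    refine Finset.sum_congr rfl fun i _ => ?_
    rw [ih]
    ring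

theorem Ex_sub (p : Fin d → ℝ) (n : ℕ) (φ ψ : List (Fin d) → ℝ) :
    Ex p n (fun w => φ w - ψ w) = Ex p n φ - Ex p n ψ := by
  have h1 : Ex p n (fun w => φ w - ψ w) = Ex p n (fun w => φ w + (-1) * ψ w) := by
    congr 1
    funext w
    ring
  rw [h1, Ex_add, Ex_const_mul]
  ring

theorem Ex_zero_fun (p : Fin d → ℝ) (n : ℕ) : Ex p n (fun _ => 0) = 0 := by
  have := Ex_const_mul p n 0 (fun _ => 0)
  simpa using this

theorem Ex_sum (p : Fin d → ℝ) (n : ℕ) {ι : Type*} (s : Finset ι)
    (φ : ι → List (Fin d) → ℝ) :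
    Ex p n (fun w => ∑ k ∈ s, φ k w) = ∑ k ∈ s, Ex p n (φ k) := by
  classical
  induction s using Finset.induction_on with
  | empty => simp [Ex_zero_fun]
  | insert k s hk ih =>
    simp only [Finset.sum_insert hk]
    rw [Ex_add, ih]

theorem Ex_const {p : Fin d → ℝ} (hp : ∑ i, p i = 1) (n : ℕ) (c : ℝ) :
    Ex p n (fun _ => c) = c := by
  induction n with
  | zero => rfl
  | succ n ih => rw [Ex_succ]; simp only [ih]; rw [← Finset.sum_mul, hp, one_mul]

theorem Ex_mono {p : Fin d → ℝ} (hp : ∀ i, 0 ≤ p i) {n : ℕ} {φ ψ : List (Fin d) → ℝ}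
    (h : ∀ w : List (Fin d), w.length = n → φ w ≤ ψ w) : Ex p n φ ≤ Ex p n ψ := by
  induction n generalizing φ ψ with
  | zero => exact h [] rfl
  | succ n ih =>
    rw [Ex_succ, Ex_succ]
    refine Finset.sum_le_sum fun i _ => ?_
    exact mul_le_mul_of_nonneg_left (ih fun w hw => h (i :: w) (by simp [hw])) (hp i)

theorem Ex_nonneg {p : Fin d → ℝ} (hp : ∀ i, 0 ≤ p i) {n : ℕ} {φ : List (Fin d) → ℝ}
    (h : ∀ w : List (Fin d), w.length = n → 0 ≤ φ w) : 0 ≤ Ex p n φ := by
  have := Ex_mono hp (φ := fun _ => 0) (ψ := φ) (n := n) h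
  rwa [Ex_zero_fun] at this

theorem Ex_append (p : Fin d → ℝ) (m n : ℕ) (φ : List (Fin d) → ℝ) :
    Ex p (m + n) φ = Ex p m (fun u => Ex p n (fun v => φ (u ++ v))) := by
  induction m generalizing φ with
  | zero => simp
  | succ m ih =>
    rw [show m + 1 + n = (m + n) + 1 by omega, Ex_succ, Ex_succ]
    refine Finset.sum_congr rfl fun i _ => ?_
    rw [ih]
    rfl

theorem Ex_append' (p : Fin d → ℝ) {N m n : ℕ} (h : N = m + n) (φ : List (Fin d) → ℝ) :
    Ex p N φ = Ex p m (fun u => Ex p n (fun v => φ (u ++ v))) := by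
  subst h
  exact Ex_append p m n φ

/-- a function of the first letters only -/
theorem Ex_take {p : Fin d → ℝ} (hp : ∑ i, p i = 1) {N m : ℕ} (h : m ≤ N)
    (φ : List (Fin d) → ℝ) : Ex p N (fun x => φ (x.take m)) = Ex p m φ := by
  rw [Ex_append' p (show N = m + (N - m) by omega)]
  refine Ex_congr p fun u hu => ?_
  rw [Ex_congr p (ψ := fun _ => φ u) fun v _ => ?_, Ex_const hp]
  simp [← hu]

/-- a function that ignores the first letters -/
theorem Ex_drop {p : Fin d → ℝ} (hp : ∑ i, p i = 1) {N m k : ℕ} (h : N = m + k)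
    (φ : List (Fin d) → ℝ) : Ex p N (fun x => φ (x.drop m)) = Ex p k φ := by
  rw [Ex_append' p h]
  have : ∀ u : List (Fin d), u.length = m →
      Ex p k (fun v => φ ((u ++ v).drop m)) = Ex p k φ := by
    intro u hu
    refine Ex_congr p fun v _ => ?_
    simp [← hu]
  rw [Ex_congr p (ψ := fun _ => Ex p k φ) fun u hu => this u hu, Ex_const hp]

/-! ### The finite set of words of given length -/

/-- putting a letter in front -/
def consEmb (d : ℕ) : (Fin d × List (Fin d)) ↪ List (Fin d) where
  toFun := fun q => q.1 :: q.2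
  inj' := by
    intro a b h
    simp only [List.cons.injEq] at h
    exact Prod.ext h.1 h.2

theorem consEmb_apply (a : Fin d) (w : List (Fin d)) : consEmb d (a, w) = a :: w := rfl

/-- all words of length `n` -/
def LL (d : ℕ) : ℕ → Finset (List (Fin d))
  | 0 => {[]}
  | n + 1 => (Finset.univ ×ˢ LL d n).map (consEmb d)

theorem mem_LL {n : ℕ} {w : List (Fin d)} : w ∈ LL d n ↔ w.length = n := by
  induction n generalizing w with
  | zero => simp [LL]
  | succ n ih =>
    simp only [LL, Finset.mem_map, Finset.mem_product, Finset.mem_univ, true_and,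
      consEmb_apply, Prod.exists]
    constructor
    · rintro ⟨a, u, hu, rfl⟩
      simp [ih.1 hu]
    · intro h
      cases w with
      | nil => simp at h
      | cons a u =>
        refine ⟨a, u, ih.2 ?_, rfl⟩
        simpa using h

/-- the probability of a word -/
noncomputable def pw (p : Fin d → ℝ) (w : List (Fin d)) : ℝ := (w.map p).prod

theorem Ex_eq_sum (p : Fin d → ℝ) (n : ℕ) (φ : List (Fin d) → ℝ) :
    Ex p n φ = ∑ w ∈ LL d n, pw p w * φ w := by
  induction n generalizing φ with
  | zero => simp [LL, pw]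
  | succ n ih =>
    rw [Ex_succ, LL, Finset.sum_map, Finset.sum_product]
    refine Finset.sum_congr rfl fun i _ => ?_
    rw [ih, Finset.mul_sum]
    refine Finset.sum_congr rfl fun w _ => ?_
    simp only [consEmb_apply, pw, List.map_cons, List.prod_cons]
    ring

theorem pw_eq_prod (p : Fin d → ℝ) (w : List (Fin d)) :
    pw p w = ∏ i, p i ^ (w.count i) := by
  induction w with
  | nil => simp [pw]
  | cons a w ih =>
    have h1 : pw p (a :: w) = p a * pw p w := by simp [pw]
    rw [h1, ih]
    have h2 : ∀ i, p i ^ ((a :: w).count i) = (if i = a then p a else 1) * p i ^ (w.count i) := by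
      intro i
      rw [List.count_cons]
      by_cases h : i = a
      · subst h
        simp [pow_succ, mul_comm]
      · simp [h, Ne.symm h]
    rw [Finset.prod_congr rfl fun i _ => h2 i, Finset.prod_mul_distrib]
    simp

end Pool.Agent.Helper40_Random
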