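import Mathlib
import Pool.Agent.Helper40_Random.Ex

/-!
# The multinomial law
-/

set_option autoImplicit false

namespace Pool.Agent.Helper40_Random

open Finset

variable {d : ℕ}

/-- the probability that the content of a random word is `x` -/
noncomputable def pm (p : Fin d → ℝ) (n : ℕ) (x : Fin d → ℕ) : ℝ :=
  Ex p n (fun w => if ∀ i, w.count i = x i then 1 else 0)

theorem sum_count (w : List (Fin d)) : ∑ i, w.count i = w.length := by
  induction w with
  | nil => simp
  | cons a w ih =>
    simp only [List.count_cons, Finset.sum_add_distrib, ih, List.length_cons]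
    simp

theorem pm_nonneg {p : Fin d → ℝ} (hp : ∀ i, 0 ≤ p i) (n : ℕ) (x : Fin d → ℕ) : 0 ≤ pm p n x :=
  Ex_nonneg hp fun w _ => by split_ifs <;> norm_num

theorem pm_eq_zero (p : Fin d → ℝ) {n : ℕ} {x : Fin d → ℕ} (h : ∑ i, x i ≠ n) : pm p n x = 0 := by
  rw [pm, Ex_congr p (ψ := fun _ => 0) fun w hw => ?_, Ex_zero_fun]
  rw [if_neg]
  intro hc
  apply h
  rw [← hw, ← sum_count w]
  exact Finset.sum_congr rfl fun i _ => (hc i).symm

theorem pm_formula (p : Fin d → ℝ) {n : ℕ} {x : Fin d → ℕ} (h : ∑ i, x i = n) :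
    pm p n x = n.factorial * ∏ i, (p i ^ (x i) / (x i).factorial) := by
  induction n generalizing x with
  | zero =>
    have hx : x = 0 := by
      funext i
      have := (Finset.sum_eq_zero_iff.1 h) i (Finset.mem_univ i)
      simpa using this
    subst hx
    simp [pm]
  | succ n ih =>
    have h1 : ∀ i, p i * Ex p n (fun w => if ∀ j, (i :: w).count j = x j then (1 : ℝ) else 0) =
        (x i : ℝ) * (n.factorial * ∏ i, (p i ^ (x i) / (x i).factorial)) := by
      intro i
      rcases Nat.eq_zero_or_pos (x i) with hxi | hxi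
      · rw [hxi, Nat.cast_zero, zero_mul, Ex_congr p (ψ := fun _ => 0) fun w hw => ?_,
          Ex_zero_fun, mul_zero]
        rw [if_neg]
        intro hc
        have := hc i
        rw [hxi, List.count_cons_self] at this
        omega
      · set y : Fin d → ℕ := Function.update x i (x i - 1) with hy
        have hyi : y i = x i - 1 := by simp [hy]
        have hyj : ∀ j, j ≠ i → y j = x j := fun j hj => by simp [hy, hj]
        have hsum : ∑ j, y j = n := by
          have e1 := Finset.add_sum_erase Finset.univ x (Finset.mem_univ i)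
          have e2 := Finset.add_sum_erase Finset.univ y (Finset.mem_univ i)
          have e3 : ∑ j ∈ Finset.univ.erase i, y j = ∑ j ∈ Finset.univ.erase i, x j :=
            Finset.sum_congr rfl fun j hj => hyj j (Finset.ne_of_mem_erase hj)
          omega
        have h2 : Ex p n (fun w => if ∀ j, (i :: w).count j = x j then (1 : ℝ) else 0) =
            pm p n y := by
          rw [pm]
          refine Ex_congr p fun w _ => ?_
          have : (∀ j, (i :: w).count j = x j) ↔ (∀ j, w.count j = y j) := by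
            constructor
            · intro hc j
              by_cases hj : j = i
              · subst hj
                have := hc j
                rw [List.count_cons_self] at this
                omega
              · have := hc j
                rw [List.count_cons_of_ne (Ne.symm hj)] at this
                rw [hyj j hj, this]
            · intro hc j
              by_cases hj : j = i
              · subst hj
                rw [List.count_cons_self, hc j]
                omega
              · rw [List.count_cons_of_ne (Ne.symm hj), hc j, hyj j hj]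
          simp only [this]
        rw [h2, ih hsum]
        have e1 := Finset.mul_prod_erase Finset.univ (fun j => p j ^ (x j) / ((x j).factorial : ℝ))
          (Finset.mem_univ i)
        have e2 := Finset.mul_prod_erase Finset.univ (fun j => p j ^ (y j) / ((y j).factorial : ℝ))
          (Finset.mem_univ i)
        have e3 : ∏ j ∈ Finset.univ.erase i, (p j ^ (y j) / ((y j).factorial : ℝ)) =
            ∏ j ∈ Finset.univ.erase i, (p j ^ (x j) / ((x j).factorial : ℝ)) :=
          Finset.prod_congr rfl fun j hj => by rw [hyj j (Finset.ne_of_mem_erase hj)]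
        rw [← e1, ← e2, e3, hyi]
        obtain ⟨k, hk⟩ : ∃ k, x i = k + 1 := ⟨x i - 1, by omega⟩
        rw [hk, Nat.add_sub_cancel, Nat.factorial_succ, pow_succ]
        have hk0 : ((k + 1 : ℕ) : ℝ) ≠ 0 := by positivity
        have hf : (k.factorial : ℝ) ≠ 0 := by positivity
        push_cast
        push_cast at hk0
        field_simp
    rw [pm, Ex_succ, Finset.sum_congr rfl fun i _ => h1 i, ← Finset.sum_mul, ← Nat.cast_sum, h,
      Nat.factorial_succ]
    push_cast
    ring

theorem pm_pos {p : Fin d → ℝ} (hp : ∀ i, 0 < p i) {n : ℕ} {x : Fin d → ℕ} (h : ∑ i, x i = n) :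
    0 < pm p n x := by
  rw [pm_formula p h]
  have : ∀ i, 0 < p i ^ (x i) / ((x i).factorial : ℝ) := fun i =>
    div_pos (pow_pos (hp i) _) (by positivity)
  have h2 := Finset.prod_pos (fun i (_ : i ∈ Finset.univ) => this i)
  positivity

/-- sum of the probabilities over a finite set -/
theorem sum_pm (p : Fin d → ℝ) (n : ℕ) (S : Finset (Fin d → ℕ)) :
    ∑ x ∈ S, pm p n x = Ex p n (fun w => if (fun i => w.count i) ∈ S then 1 else 0) := by
  simp only [pm]
  rw [← Ex_sum]
  refine Ex_congr p fun w _ => ?_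
  have : ∀ x ∈ S, (if ∀ i, w.count i = x i then (1 : ℝ) else 0) =
      if (fun i => w.count i) = x then 1 else 0 := by
    intro x _
    simp only [funext_iff]
  rw [Finset.sum_congr rfl this]
  simp

theorem sum_pm_le_one {p : Fin d → ℝ} (hp : ∀ i, 0 ≤ p i) (hs : ∑ i, p i = 1) (n : ℕ)
    (S : Finset (Fin d → ℕ)) : ∑ x ∈ S, pm p n x ≤ 1 := by
  rw [sum_pm]
  refine (Ex_mono hp (ψ := fun _ => 1) fun w _ => ?_).trans (Ex_const hs n 1).le
  split_ifs <;> norm_num

/-! ### The ratio lemma -/

theorem fact_ratio (x y : ℕ) (hy : 1 ≤ y) :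
    (y : ℝ) ^ ((x : ℤ) - (y : ℤ)) ≤ (x.factorial : ℝ) / (y.factorial : ℝ) := by
  have hy0 : (0 : ℝ) < y := by exact_mod_cast hy
  rw [le_div_iff₀ (by positivity)]
  rcases le_total y x with h | h
  · have h1 : (x : ℤ) - (y : ℤ) = ((x - y : ℕ) : ℤ) := by omega
    rw [h1, zpow_natCast]
    have h2 := Nat.factorial_mul_pow_sub_le_factorial h
    rw [mul_comm]
    exact_mod_cast h2
  · have h1 : (x : ℤ) - (y : ℤ) = -((y - x : ℕ) : ℤ) := by omega
    rw [h1, zpow_neg, zpow_natCast, inv_mul_le_iff₀ (by positivity)]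
    have h2 : (y - (y - x)).factorial * y.descFactorial (y - x) = y.factorial :=
      Nat.factorial_mul_descFactorial (by omega)
    rw [show y - (y - x) = x by omega] at h2
    have h3 := Nat.descFactorial_le_pow y (y - x)
    have h4 : y.factorial ≤ y ^ (y - x) * x.factorial := by
      rw [← h2, mul_comm]
      exact Nat.mul_le_mul_right _ h3
    exact_mod_cast h4

theorem pm_ratio {p : Fin d → ℝ} (hp : ∀ i, 0 < p i) {n : ℕ} {x y : Fin d → ℕ}
    (hx : ∑ i, x i = n) (hy : ∑ i, y i = n) (hy1 : ∀ i, 1 ≤ y i) (hn : 0 < n) :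
    pm p n x * ∏ i, ((n : ℝ) * p i / y i) ^ ((y i : ℤ) - (x i : ℤ)) ≤ pm p n y := by
  rw [pm_formula p hx, pm_formula p hy]
  have hn0 : (0 : ℝ) < n := by exact_mod_cast hn
  have hy0 : ∀ i, (0 : ℝ) < y i := fun i => by exact_mod_cast hy1 i
  have e1 : ∏ i, ((n : ℝ) * p i / y i) ^ ((y i : ℤ) - (x i : ℤ)) =
      ∏ i, (p i / y i) ^ ((y i : ℤ) - (x i : ℤ)) := by
    have h1 : ∀ i, ((n : ℝ) * p i / y i) ^ ((y i : ℤ) - (x i : ℤ)) =
        (n : ℝ) ^ ((y i : ℤ) - (x i : ℤ)) * (p i / y i) ^ ((y i : ℤ) - (x i : ℤ)) := by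
      intro i
      rw [mul_div_assoc, mul_zpow]
    rw [Finset.prod_congr rfl fun i _ => h1 i, Finset.prod_mul_distrib]
    have h2 : ∏ i, (n : ℝ) ^ ((y i : ℤ) - (x i : ℤ)) = 1 := by
      have h3 : ∀ s : Finset (Fin d), ∏ i ∈ s, (n : ℝ) ^ ((y i : ℤ) - (x i : ℤ)) =
          (n : ℝ) ^ (∑ i ∈ s, ((y i : ℤ) - (x i : ℤ))) := by
        intro s
        induction s using Finset.induction_on with
        | empty => simp
        | insert k s hk ih => rw [Finset.prod_insert hk, Finset.sum_insert hk, ih,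
            zpow_add₀ hn0.ne']
      rw [h3, Finset.sum_sub_distrib]
      have h4 : ∑ i, (y i : ℤ) = (n : ℤ) := by exact_mod_cast hy
      have h5 : ∑ i, (x i : ℤ) = (n : ℤ) := by exact_mod_cast hx
      rw [h4, h5, sub_self, zpow_zero]
    rw [h2, one_mul]
  rw [e1, mul_assoc, ← Finset.prod_mul_distrib]
  refine mul_le_mul_of_nonneg_left ?_ (by positivity)
  refine Finset.prod_le_prod (fun i _ => ?_) fun i _ => ?_
  · have := hp i
    have := hy0 i
    positivity
  · have hpi := hp i
    have hyi := hy0 i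
    rw [div_zpow]
    have h1 := fact_ratio (x i) (y i) (hy1 i)
    have h2 : p i ^ (x i) / ((x i).factorial : ℝ) *
        (p i ^ ((y i : ℤ) - (x i : ℤ)) / (y i : ℝ) ^ ((y i : ℤ) - (x i : ℤ))) =
        p i ^ (y i) / ((x i).factorial : ℝ) * (y i : ℝ) ^ ((x i : ℤ) - (y i : ℤ)) := by
      have h3 : p i ^ (x i) * p i ^ ((y i : ℤ) - (x i : ℤ)) = p i ^ (y i) := by
        rw [← zpow_natCast, ← zpow_natCast, ← zpow_add₀ hpi.ne']
        congr 1
        ring
      have h4 : (y i : ℝ) ^ ((x i : ℤ) - (y i : ℤ)) =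
          ((y i : ℝ) ^ ((y i : ℤ) - (x i : ℤ)))⁻¹ := by
        rw [← zpow_neg]
        congr 1
        ring
      rw [h4, ← h3]
      field_simp
    rw [h2]
    calc p i ^ (y i) / ((x i).factorial : ℝ) * (y i : ℝ) ^ ((x i : ℤ) - (y i : ℤ))
        ≤ p i ^ (y i) / ((x i).factorial : ℝ) *
          (((x i).factorial : ℝ) / ((y i).factorial : ℝ)) :=
          mul_le_mul_of_nonneg_left h1 (by positivity)
      _ = p i ^ (y i) / ((y i).factorial : ℝ) := by
          field_simp

/-- one factor of the ratio -/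
theorem factor_bound {a : ℝ} {y : ℕ} {z : ℤ} {D1 D2 : ℝ} (ha : 0 < a) (h1 : |(y : ℝ) - a| ≤ D1)
    (h2 : |(z : ℝ)| ≤ D2) (h3 : 2 * D1 ≤ a) :
    Real.exp (-(2 * D1 * D2 / a)) ≤ (a / y) ^ z := by
  have hD1 : 0 ≤ D1 := (abs_nonneg _).trans h1
  have hD2 : 0 ≤ D2 := (abs_nonneg _).trans h2
  have hy : a / 2 ≤ y := by
    have := (abs_le.1 h1).1
    linarith
  have hy0 : (0 : ℝ) < y := by linarith
  have hpos : 0 < a / y := by positivity
  have h4 : |Real.log (a / y)| ≤ 2 * D1 / a := by
    rw [abs_le]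
    constructor
    · have e1 := Real.one_sub_inv_le_log_of_pos hpos
      have e2 : 1 - (a / y)⁻¹ = (a - y) / a := by field_simp
      rw [e2] at e1
      have e3 : -(2 * D1 / a) ≤ (a - y) / a := by
        rw [← neg_div]
        apply div_le_div_of_nonneg_right _ ha.le
        have := (abs_le.1 h1).2
        linarith
      linarith
    · have e1 := Real.log_le_sub_one_of_pos hpos
      have e2 : a / y - 1 = (a - y) / y := by field_simp
      rw [e2] at e1
      refine e1.trans ?_
      rw [div_le_div_iff₀ hy0 ha]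
      have := (abs_le.1 h1).1
      have h5 : a - y ≤ D1 := by linarith
      nlinarith
  have h5 : (a / y) ^ z = Real.exp (z * Real.log (a / y)) := by
    rw [← Real.rpow_intCast, Real.rpow_def_of_pos hpos, mul_comm]
  rw [h5, Real.exp_le_exp]
  have h6 : |(z : ℝ) * Real.log (a / y)| ≤ D2 * (2 * D1 / a) := by
    rw [abs_mul]
    exact mul_le_mul h2 h4 (abs_nonneg _) hD2
  have h7 := (abs_le.1 h6).1
  calc -(2 * D1 * D2 / a) = -(D2 * (2 * D1 / a)) := by ring
    _ ≤ _ := h7

theorem pm_compare {p : Fin d → ℝ} {p0 : ℝ} (hp0 : 0 < p0) (hp : ∀ i, p0 ≤ p i) {n : ℕ}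
    {x y : Fin d → ℕ} (hx : ∑ i, x i = n) (hy : ∑ i, y i = n) (hn : 0 < n) {D1 D2 : ℝ}
    (h1 : ∀ i, |(y i : ℝ) - n * p i| ≤ D1) (h2 : ∀ i, |(y i : ℝ) - x i| ≤ D2)
    (h3 : 2 * D1 ≤ n * p0) :
    pm p n x * Real.exp (-(d * (2 * D1 * D2 / (n * p0)))) ≤ pm p n y := by
  have hn0 : (0 : ℝ) < n := by exact_mod_cast hn
  have hp' : ∀ i, 0 < p i := fun i => lt_of_lt_of_le hp0 (hp i)
  rcases Nat.eq_zero_or_pos d with hd | hd
  · subst hd
    simp at hx
    omega
  have hD1 : 0 ≤ D1 := (abs_nonneg _).trans (h1 ⟨0, hd⟩)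
  have hD2 : 0 ≤ D2 := (abs_nonneg _).trans (h2 ⟨0, hd⟩)
  have hmul : ∀ i, (n : ℝ) * p0 ≤ n * p i := fun i => mul_le_mul_of_nonneg_left (hp i) hn0.le
  have hy1 : ∀ i, 1 ≤ y i := by
    intro i
    have e1 := (abs_le.1 (h1 i)).1
    have e2 := hmul i
    have e3 : (0 : ℝ) < n * p0 := by positivity
    have e4 : (0 : ℝ) < y i := by linarith
    exact_mod_cast e4
  refine le_trans ?_ (pm_ratio hp' hx hy hy1 hn)
  refine mul_le_mul_of_nonneg_left ?_ (pm_nonneg (fun i => (hp' i).le) n x)
  have e1 : Real.exp (-(d * (2 * D1 * D2 / (n * p0)))) =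
      ∏ _i : Fin d, Real.exp (-(2 * D1 * D2 / (n * p0))) := by
    rw [Finset.prod_const, Finset.card_univ, Fintype.card_fin, ← Real.exp_nat_mul]
    congr 1
    ring
  rw [e1]
  refine Finset.prod_le_prod (fun i _ => (Real.exp_pos _).le) fun i _ => ?_
  have hnp : (0 : ℝ) < n * p i := mul_pos hn0 (hp' i)
  refine le_trans ?_ (factor_bound (z := (y i : ℤ) - (x i : ℤ)) (D2 := D2) hnp (h1 i)
    (by push_cast; exact h2 i) (h3.trans (hmul i)))
  rw [Real.exp_le_exp, neg_le_neg_iff]
  apply div_le_div_of_nonneg_left (by positivity) (by positivity) (hmul i)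

end Pool.Agent.Helper40_Random
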