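import Mathlib
import Pool.Agent.Helper40_Random.Multi

/-!
# Local bounds for the multinomial law
-/

set_option autoImplicit false

namespace Pool.Agent.Helper40_Random

open Finset

variable {d : ℕ}

/-- vectors with entries at most `n` -/
def TT (d n : ℕ) : Finset (Fin d → ℕ) := Fintype.piFinset (fun _ : Fin d => Finset.range (n + 1))

theorem mem_TT {n : ℕ} {x : Fin d → ℕ} : x ∈ TT d n ↔ ∀ i, x i ≤ n := by
  simp only [TT, Fintype.mem_piFinset, Finset.mem_range, Nat.lt_succ_iff]

theorem card_TT (d n : ℕ) : (TT d n).card = (n + 1) ^ d := by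
  simp [TT, Fintype.card_piFinset]

theorem mem_TT_of_sum {n : ℕ} {x : Fin d → ℕ} (h : ∑ i, x i = n) : x ∈ TT d n := by
  rw [mem_TT]
  intro i
  rw [← h]
  exact Finset.single_le_sum (f := x) (fun _ _ => Nat.zero_le _) (Finset.mem_univ i)

theorem sum_pm_TT {p : Fin d → ℝ} (hs : ∑ i, p i = 1) (n : ℕ) :
    ∑ x ∈ TT d n, pm p n x = 1 := by
  rw [sum_pm, Ex_congr p (ψ := fun _ => 1) fun w hw => ?_, Ex_const hs]
  rw [if_pos]
  exact mem_TT_of_sum (by rw [sum_count, hw])

/-- the probability of the exact content -/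
theorem pm_content {k : Fin d → ℕ} (hk : ∀ i, 1 ≤ k i) {L : ℕ} (hL : ∑ i, k i = L) (hL0 : 0 < L) :
    (((L : ℝ) + 1) ^ d)⁻¹ ≤ pm (fun i => (k i : ℝ) / L) L k := by
  set p : Fin d → ℝ := fun i => (k i : ℝ) / L with hp
  have hL1 : (0 : ℝ) < L := by exact_mod_cast hL0
  have hk0 : ∀ i, (0 : ℝ) < k i := fun i => by exact_mod_cast hk i
  have hp0 : ∀ i, 0 < p i := fun i => div_pos (hk0 i) hL1
  have hs : ∑ i, p i = 1 := by
    rw [hp, ← Finset.sum_div, ← Nat.cast_sum, hL, div_self hL1.ne']
  have hle : ∀ x ∈ TT d L, pm p L x ≤ pm p L k := by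
    intro x _
    by_cases hx : ∑ i, x i = L
    · have h1 := pm_ratio hp0 hx hL hk hL0
      have h2 : ∏ i, ((L : ℝ) * p i / k i) ^ ((k i : ℤ) - (x i : ℤ)) = 1 := by
        refine Finset.prod_eq_one fun i _ => ?_
        have : (L : ℝ) * p i / k i = 1 := by
          rw [hp]
          have := hk0 i
          field_simp
        rw [this, one_zpow]
      rw [h2, mul_one] at h1
      exact h1
    · rw [pm_eq_zero p hx]
      exact pm_nonneg (fun i => (hp0 i).le) L k
  have h1 := Finset.sum_le_sum hle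
  rw [sum_pm_TT hs, Finset.sum_const, card_TT, nsmul_eq_mul] at h1
  push_cast at h1
  rw [inv_le_iff_one_le_mul₀ (by positivity)]
  linarith

/-! ### The second moment -/

theorem Ex_second {p : Fin d → ℝ} (hs : ∑ i, p i = 1) (i : Fin d) (n : ℕ) (c : ℝ) :
    Ex p n (fun w => ((w.count i : ℝ) + c) ^ 2) = n * (p i * (1 - p i)) + (n * p i + c) ^ 2 := by
  induction n generalizing c with
  | zero => simp
  | succ n ih =>
    rw [Ex_succ]
    have h1 : ∀ j, Ex p n (fun w => (((j :: w).count i : ℝ) + c) ^ 2) =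
        if j = i then n * (p i * (1 - p i)) + (n * p i + (c + 1)) ^ 2 else
          n * (p i * (1 - p i)) + (n * p i + c) ^ 2 := by
      intro j
      by_cases hj : j = i
      · subst hj
        rw [if_pos rfl, ← ih (c + 1)]
        refine Ex_congr p fun w _ => ?_
        rw [List.count_cons_self]
        push_cast
        ring
      · rw [if_neg hj, ← ih c]
        refine Ex_congr p fun w _ => ?_
        rw [List.count_cons_of_ne hj]
    rw [Finset.sum_congr rfl fun j _ => by rw [h1 j]]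
    have h2 : ∀ j, p j * (if j = i then n * (p i * (1 - p i)) + (n * p i + (c + 1)) ^ 2 else
          n * (p i * (1 - p i)) + (n * p i + c) ^ 2) =
        p j * (n * (p i * (1 - p i)) + (n * p i + c) ^ 2) +
          (if j = i then p i * (2 * (n * p i + c) + 1) else 0) := by
      intro j
      by_cases hj : j = i
      · subst hj
        rw [if_pos rfl, if_pos rfl]
        ring
      · rw [if_neg hj, if_neg hj]
        ring
    rw [Finset.sum_congr rfl fun j _ => h2 j, Finset.sum_add_distrib, ← Finset.sum_mul, hs]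
    rw [Finset.sum_ite_eq' Finset.univ i, if_pos (Finset.mem_univ i)]
    push_cast
    ring

/-- Chebyshev -/
theorem sum_pm_near {p : Fin d → ℝ} (hp : ∀ i, 0 ≤ p i) (hs : ∑ i, p i = 1) {n : ℕ} (hn : 0 < n)
    (S : Finset (Fin d → ℕ))
    (hS : ∀ x : Fin d → ℕ, ∑ i, x i = n → (∀ i, |(x i : ℝ) - n * p i| ≤ 2 * Real.sqrt n) → x ∈ S) :
    3 / 4 ≤ ∑ x ∈ S, pm p n x := by
  have hn0 : (0 : ℝ) < n := by exact_mod_cast hn
  set V : List (Fin d) → ℝ := fun w => ∑ i, ((w.count i : ℝ) - n * p i) ^ 2 with hV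
  have hEV : Ex p n V ≤ n := by
    rw [hV, Ex_sum]
    have h1 : ∀ i, Ex p n (fun w => ((w.count i : ℝ) - n * p i) ^ 2) = n * (p i * (1 - p i)) := by
      intro i
      have := Ex_second hs i n (-(n * p i))
      simpa [sub_eq_add_neg] using this
    calc ∑ i, Ex p n (fun w => ((w.count i : ℝ) - n * p i) ^ 2)
        = ∑ i, n * (p i * (1 - p i)) := Finset.sum_congr rfl fun i _ => h1 i
      _ ≤ ∑ i, n * p i := by
          refine Finset.sum_le_sum fun i _ => ?_
          have := hp i
          nlinarith [mul_nonneg hn0.le (mul_nonneg this this)]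
      _ = n := by rw [← Finset.mul_sum, hs, mul_one]
  rw [sum_pm]
  have h2 : ∀ w : List (Fin d), w.length = n →
      1 - V w / (4 * n) ≤ if (fun i => w.count i) ∈ S then (1 : ℝ) else 0 := by
    intro w hw
    have hV0 : 0 ≤ V w := Finset.sum_nonneg fun i _ => sq_nonneg _
    split_ifs with hmem
    · have : 0 ≤ V w / (4 * n) := by positivity
      linarith
    · have h3 : 4 * n < V w := by
        by_contra hcon
        push Not at hcon
        apply hmem
        apply hS
        · rw [sum_count, hw]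
        · intro i
          have h4 : ((w.count i : ℝ) - n * p i) ^ 2 ≤ V w :=
            Finset.single_le_sum (f := fun i => ((w.count i : ℝ) - n * p i) ^ 2)
              (fun i _ => sq_nonneg _) (Finset.mem_univ i)
          have h5 : ((w.count i : ℝ) - n * p i) ^ 2 ≤ (2 * Real.sqrt n) ^ 2 := by
            rw [mul_pow, Real.sq_sqrt hn0.le]
            linarith
          exact abs_le_of_sq_le_sq h5 (by positivity)
      have h6 : 1 < V w / (4 * n) := by
        rw [lt_div_iff₀ (by positivity)]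
        linarith
      linarith
  refine le_trans ?_ (Ex_mono hp h2)
  rw [Ex_sub, Ex_const hs]
  have h7 : Ex p n (fun w => V w / (4 * n)) = Ex p n V / (4 * n) := by
    have : (fun w => V w / (4 * n)) = fun w => (4 * (n : ℝ))⁻¹ * V w := by
      funext w
      ring
    rw [this, Ex_const_mul]
    ring
  rw [h7]
  have h8 : Ex p n V / (4 * n) ≤ 1 / 4 := by
    rw [div_le_iff₀ (by positivity)]
    linarith
  linarith

/-! ### Counting -/

theorem card_near (a D : ℝ) (n : ℕ) (hD : 0 ≤ D) :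
    (((Finset.range (n + 1)).filter (fun k : ℕ => |(k : ℝ) - a| ≤ D)).card : ℝ) ≤ 2 * D + 1 := by
  rcases lt_or_ge (a + D) 0 with h | h
  · have : (Finset.range (n + 1)).filter (fun k : ℕ => |(k : ℝ) - a| ≤ D) = ∅ := by
      rw [Finset.filter_eq_empty_iff]
      intro k _ hk
      have h1 := (abs_le.1 hk).2
      have h2 : (0 : ℝ) ≤ k := Nat.cast_nonneg k
      linarith
    rw [this]
    simp
    linarith
  · have hsub : (Finset.range (n + 1)).filter (fun k : ℕ => |(k : ℝ) - a| ≤ D) ⊆
        Finset.Icc (⌈a - D⌉₊) (⌊a + D⌋₊) := by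
      intro k hk
      rw [Finset.mem_filter] at hk
      rw [Finset.mem_Icc]
      have h1 := abs_le.1 hk.2
      refine ⟨Nat.ceil_le.2 (by linarith), Nat.le_floor (by linarith)⟩
    have h1 : ((Finset.Icc (⌈a - D⌉₊) (⌊a + D⌋₊)).card : ℝ) ≤ 2 * D + 1 := by
      rw [Nat.card_Icc]
      have h2 := Nat.floor_le h
      have h3 := Nat.le_ceil (a - D)
      rcases le_or_gt (⌈a - D⌉₊) (⌊a + D⌋₊ + 1) with h4 | h4
      · rw [Nat.cast_sub h4]
        push_cast
        linarith
      · rw [Nat.sub_eq_zero_of_le h4.le]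
        simp
        linarith
    refine le_trans ?_ h1
    exact_mod_cast Finset.card_le_card hsub

/-- the vectors of sum `n` near `a` -/
noncomputable def Reg (p : Fin d → ℝ) (n : ℕ) (D : ℝ) : Finset (Fin d → ℕ) :=
  (TT d n).filter (fun x => ∑ i, x i = n ∧ ∀ i, |(x i : ℝ) - n * p i| ≤ D)

theorem card_Reg (p : Fin d → ℝ) (n : ℕ) {D : ℝ} (hD : 0 ≤ D) (hd : 0 < d) :
    ((Reg p n D).card : ℝ) ≤ (2 * D + 1) ^ (d - 1) := by
  classical
  set i0 : Fin d := ⟨0, hd⟩
  set B : Fin d → Finset ℕ := fun i => if i = i0 then {0} else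
    (Finset.range (n + 1)).filter (fun k : ℕ => |(k : ℝ) - n * p i| ≤ D) with hB
  have h1 : (Reg p n D).card ≤ (Fintype.piFinset B).card := by
    apply Finset.card_le_card_of_injOn (fun x => Function.update x i0 0)
    · intro x hx
      rw [Finset.mem_coe, Reg, Finset.mem_filter, mem_TT] at hx
      rw [Finset.mem_coe, Fintype.mem_piFinset]
      intro i
      by_cases hi : i = i0
      · simp [hB, hi]
      · simp only [hB, if_neg hi, Finset.mem_filter, Finset.mem_range, Function.update_of_ne hi]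
        exact ⟨by have := hx.1 i; omega, hx.2.2 i⟩
    · intro x hx y hy hxy
      rw [Finset.mem_coe, Reg, Finset.mem_filter] at hx hy
      have h2 : ∀ i, i ≠ i0 → x i = y i := by
        intro i hi
        have := congrFun hxy i
        simpa [Function.update_of_ne hi] using this
      have h3 : x i0 = y i0 := by
        have e1 := Finset.add_sum_erase Finset.univ x (Finset.mem_univ i0)
        have e2 := Finset.add_sum_erase Finset.univ y (Finset.mem_univ i0)
        have e3 : ∑ j ∈ Finset.univ.erase i0, x j = ∑ j ∈ Finset.univ.erase i0, y j :=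
          Finset.sum_congr rfl fun j hj => h2 j (Finset.ne_of_mem_erase hj)
        have := hx.2.1
        have := hy.2.1
        omega
      funext i
      by_cases hi : i = i0
      · rw [hi, h3]
      · exact h2 i hi
  have h2 : ((Fintype.piFinset B).card : ℝ) ≤ (2 * D + 1) ^ (d - 1) := by
    rw [Fintype.card_piFinset, ← Finset.mul_prod_erase Finset.univ _ (Finset.mem_univ i0)]
    have e1 : (B i0).card = 1 := by simp [hB]
    rw [e1, one_mul]
    push_cast
    have e2 : ∏ i ∈ Finset.univ.erase i0, ((B i).card : ℝ) ≤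
        ∏ _i ∈ (Finset.univ : Finset (Fin d)).erase i0, (2 * D + 1) := by
      refine Finset.prod_le_prod (fun i _ => Nat.cast_nonneg _) fun i hi => ?_
      have : i ≠ i0 := Finset.ne_of_mem_erase hi
      simp only [hB, if_neg this]
      exact card_near _ D n hD
    refine e2.trans ?_
    rw [Finset.prod_const, Finset.card_erase_of_mem (Finset.mem_univ i0), Finset.card_univ,
      Fintype.card_fin]
  refine le_trans ?_ h2
  exact_mod_cast h1

/-- the lower local bound -/
theorem pm_lower {p : Fin d → ℝ} {p0 K : ℝ} (hp0 : 0 < p0) (hp : ∀ i, p0 ≤ p i)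
    (hs : ∑ i, p i = 1) {n : ℕ} (hn : 0 < n) (hd : 0 < d) (hK : 0 ≤ K)
    (hbig : 2 * K ≤ Real.sqrt n * p0)
    {y : Fin d → ℕ} (hy : ∑ i, y i = n) (hy2 : ∀ i, |(y i : ℝ) - n * p i| ≤ K * Real.sqrt n) :
    3 / 4 * Real.exp (-(2 * d * K * (K + 2) / p0)) / (5 * Real.sqrt n) ^ (d - 1) ≤ pm p n y := by
  have hn0 : (0 : ℝ) < n := by exact_mod_cast hn
  have hn1 : (1 : ℝ) ≤ n := by exact_mod_cast hn
  have hsq : Real.sqrt n * Real.sqrt n = n := Real.mul_self_sqrt hn0.le
  have hsq1 : 1 ≤ Real.sqrt n := by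
    rw [← Real.sqrt_one]
    exact Real.sqrt_le_sqrt hn1
  have hp' : ∀ i, 0 ≤ p i := fun i => hp0.le.trans (hp i)
  -- the point x
  obtain ⟨x, hx, hxm⟩ : ∃ x ∈ Reg p n (2 * Real.sqrt n),
      3 / 4 / (5 * Real.sqrt n) ^ (d - 1) ≤ pm p n x := by
    by_contra hcon
    push Not at hcon
    have h1 : 3 / 4 ≤ ∑ x ∈ Reg p n (2 * Real.sqrt n), pm p n x := by
      apply sum_pm_near hp' hs hn
      intro x hx1 hx2
      rw [Reg, Finset.mem_filter]
      exact ⟨mem_TT_of_sum hx1, hx1, hx2⟩
    have hne : (Reg p n (2 * Real.sqrt n)).Nonempty := by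
      rw [Finset.nonempty_iff_ne_empty]
      intro h0
      rw [h0] at h1
      simp at h1
      linarith
    have h2 := Finset.sum_lt_sum_of_nonempty hne hcon
    rw [Finset.sum_const, nsmul_eq_mul] at h2
    have h3 := card_Reg p n (D := 2 * Real.sqrt n) (by positivity) hd
    have h4 : ((Reg p n (2 * Real.sqrt n)).card : ℝ) ≤ (5 * Real.sqrt n) ^ (d - 1) := by
      refine h3.trans (pow_le_pow_left₀ (by positivity) ?_ _)
      linarith
    have h5 : (0 : ℝ) < (5 * Real.sqrt n) ^ (d - 1) := by positivity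
    have h6 : ((Reg p n (2 * Real.sqrt n)).card : ℝ) * (3 / 4 / (5 * Real.sqrt n) ^ (d - 1)) ≤
        3 / 4 := by
      calc ((Reg p n (2 * Real.sqrt n)).card : ℝ) * (3 / 4 / (5 * Real.sqrt n) ^ (d - 1))
          ≤ (5 * Real.sqrt n) ^ (d - 1) * (3 / 4 / (5 * Real.sqrt n) ^ (d - 1)) :=
            mul_le_mul_of_nonneg_right h4 (by positivity)
        _ = 3 / 4 := by field_simp
    linarith
  rw [Reg, Finset.mem_filter] at hx
  obtain ⟨-, hx1, hx2⟩ := hx
  have h3 := pm_compare hp0 hp hx1 hy hn (D1 := K * Real.sqrt n)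
    (D2 := K * Real.sqrt n + 2 * Real.sqrt n) hy2 (fun i => by
      have e1 := abs_le.1 (hy2 i)
      have e2 := abs_le.1 (hx2 i)
      rw [abs_le]
      constructor <;> linarith) (by
      calc 2 * (K * Real.sqrt n) = (2 * K) * Real.sqrt n := by ring
        _ ≤ (Real.sqrt n * p0) * Real.sqrt n := mul_le_mul_of_nonneg_right hbig (by positivity)
        _ = (Real.sqrt n * Real.sqrt n) * p0 := by ring
        _ = n * p0 := by rw [hsq])
  have h4 : (d : ℝ) * (2 * (K * Real.sqrt n) * (K * Real.sqrt n + 2 * Real.sqrt n) / (n * p0)) =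
      2 * d * K * (K + 2) / p0 := by
    rw [show (n : ℝ) * p0 = (Real.sqrt n * Real.sqrt n) * p0 by rw [hsq]]
    have : Real.sqrt n ≠ 0 := by positivity
    field_simp
  rw [h4] at h3
  refine le_trans ?_ h3
  calc 3 / 4 * Real.exp (-(2 * d * K * (K + 2) / p0)) / (5 * Real.sqrt n) ^ (d - 1)
      = (3 / 4 / (5 * Real.sqrt n) ^ (d - 1)) * Real.exp (-(2 * d * K * (K + 2) / p0)) := by ring
    _ ≤ _ := mul_le_mul_of_nonneg_right hxm (Real.exp_pos _).le

/-! ### The mode -/

theorem pm_move {p : Fin d → ℝ} (hp : ∀ i, 0 < p i) {n : ℕ} {x : Fin d → ℕ}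
    (hx : ∑ i, x i = n) {i j : Fin d} (hij : i ≠ j) (hj : 1 ≤ x j)
    (hmax : ∀ y : Fin d → ℕ, ∑ i, y i = n → pm p n y ≤ pm p n x) :
    (x j : ℝ) * p i ≤ (x i + 1) * p j := by
  classical
  set y : Fin d → ℕ := Function.update (Function.update x j (x j - 1)) i (x i + 1) with hy
  have hyi : y i = x i + 1 := by simp [hy]
  have hyj : y j = x j - 1 := by simp [hy, Function.update_of_ne (Ne.symm hij)]
  have hyk : ∀ k, k ≠ i → k ≠ j → y k = x k := by
    intro k h1 h2
    simp [hy, Function.update_of_ne h1, Function.update_of_ne h2]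
  have hsplit : ∀ f : Fin d → ℕ, ∑ k, f k = f i + (f j + ∑ k ∈ (Finset.univ.erase i).erase j, f k) := by
    intro f
    rw [Finset.add_sum_erase _ _ (by simp [Ne.symm hij]),
      Finset.add_sum_erase _ _ (Finset.mem_univ i)]
  have hsplitp : ∀ f : Fin d → ℝ, ∏ k, f k =
      f i * (f j * ∏ k ∈ (Finset.univ.erase i).erase j, f k) := by
    intro f
    rw [Finset.mul_prod_erase _ _ (by simp [Ne.symm hij]),
      Finset.mul_prod_erase _ _ (Finset.mem_univ i)]
  have hrest : ∀ k ∈ (Finset.univ.erase i).erase j, y k = x k := by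
    intro k hk
    have h1 := Finset.ne_of_mem_erase hk
    have h2 := Finset.ne_of_mem_erase (Finset.mem_of_mem_erase hk)
    exact hyk k h2 h1
  have hysum : ∑ k, y k = n := by
    have e1 : ∑ k ∈ (Finset.univ.erase i).erase j, y k =
      ∑ k ∈ (Finset.univ.erase i).erase j, x k := Finset.sum_congr rfl hrest
    have e2 := hsplit x
    have e3 := hsplit y
    rw [hyi, hyj] at e3
    omega
  have h1 := hmax y hysum
  rw [pm_formula p hx, pm_formula p hysum] at h1
  have h2 : (0 : ℝ) < (n.factorial : ℝ) := by positivity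
  have h3 := le_of_mul_le_mul_left h1 h2
  rw [hsplitp (fun k => p k ^ (y k) / ((y k).factorial : ℝ)),
    hsplitp (fun k => p k ^ (x k) / ((x k).factorial : ℝ))] at h3
  have h4 : ∏ k ∈ (Finset.univ.erase i).erase j, (p k ^ (y k) / ((y k).factorial : ℝ)) =
      ∏ k ∈ (Finset.univ.erase i).erase j, (p k ^ (x k) / ((x k).factorial : ℝ)) :=
    Finset.prod_congr rfl fun k hk => by rw [hrest k hk]
  rw [h4, ← mul_assoc, ← mul_assoc] at h3
  have h5 : 0 < ∏ k ∈ (Finset.univ.erase i).erase j, (p k ^ (x k) / ((x k).factorial : ℝ)) :=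
    Finset.prod_pos fun k _ => div_pos (pow_pos (hp k) _) (by positivity)
  have h6 := le_of_mul_le_mul_right h3 h5
  rw [hyi, hyj] at h6
  obtain ⟨m, hm⟩ : ∃ m, x j = m + 1 := ⟨x j - 1, by omega⟩
  rw [hm, Nat.add_sub_cancel, Nat.factorial_succ, Nat.factorial_succ, pow_succ, pow_succ] at h6
  rw [hm]
  push_cast at h6 ⊢
  have hpi := hp i
  have hpj := hp j
  have hfi : (0 : ℝ) < ((x i).factorial : ℝ) := by positivity
  have hfm : (0 : ℝ) < (m.factorial : ℝ) := by positivity
  have hc : 0 < p i ^ (x i) / ((x i).factorial : ℝ) * (p j ^ m / (m.factorial : ℝ)) := by positivity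
  have h7 : p i ^ (x i) / ((x i).factorial : ℝ) * (p j ^ m / (m.factorial : ℝ)) *
      (p i / (x i + 1)) ≤
      p i ^ (x i) / ((x i).factorial : ℝ) * (p j ^ m / (m.factorial : ℝ)) * (p j / (m + 1)) := by
    calc _ = p i ^ (x i) * p i / (((x i : ℝ) + 1) * ((x i).factorial : ℝ)) *
          (p j ^ m / (m.factorial : ℝ)) := by
          field_simp
      _ ≤ _ := h6
      _ = _ := by field_simp
  have h8 := le_of_mul_le_mul_left h7 hc
  rw [div_le_div_iff₀ (by positivity) (by positivity)] at h8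
  linarith

theorem exists_mode {p : Fin d → ℝ} (hp : ∀ i, 0 < p i) (hs : ∑ i, p i = 1) (n : ℕ) (hd : 0 < d) :
    ∃ x : Fin d → ℕ, ∑ i, x i = n ∧ (∀ y : Fin d → ℕ, pm p n y ≤ pm p n x) ∧
      ∀ i, |(x i : ℝ) - n * p i| ≤ d := by
  classical
  set S : Finset (Fin d → ℕ) := (TT d n).filter (fun x => ∑ i, x i = n) with hS
  have hSne : S.Nonempty := by
    refine ⟨Pi.single ⟨0, hd⟩ n, ?_⟩
    have h1 : ∑ i, (Pi.single (⟨0, hd⟩ : Fin d) n : Fin d → ℕ) i = n := by
      rw [Finset.sum_pi_single']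
      simp
    rw [hS, Finset.mem_filter]
    exact ⟨mem_TT_of_sum h1, h1⟩
  obtain ⟨x, hx, hmax⟩ := Finset.exists_max_image S (pm p n) hSne
  rw [hS, Finset.mem_filter] at hx
  have hx1 := hx.2
  have hmax' : ∀ y : Fin d → ℕ, ∑ i, y i = n → pm p n y ≤ pm p n x := by
    intro y hy
    apply hmax
    rw [hS, Finset.mem_filter]
    exact ⟨mem_TT_of_sum hy, hy⟩
  refine ⟨x, hx1, fun y => ?_, ?_⟩
  · by_cases hy : ∑ i, y i = n
    · exact hmax' y hy
    · rw [pm_eq_zero p hy]
      exact pm_nonneg (fun i => (hp i).le) n x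
  · have h1 : ∀ i j, (x j : ℝ) * p i ≤ (x i + 1) * p j := by
      intro i j
      by_cases hij : i = j
      · subst hij
        have := hp i
        nlinarith
      · rcases Nat.eq_zero_or_pos (x j) with h0 | h0
        · rw [h0]
          have := hp j
          push_cast
          rw [zero_mul]
          positivity
        · exact pm_move hp hx1 hij h0 hmax'
    have hxs : ∑ j, (x j : ℝ) = n := by exact_mod_cast hx1
    have h2 : ∀ i, (n : ℝ) * p i ≤ x i + 1 := by
      intro i
      have := Finset.sum_le_sum (s := Finset.univ) fun j _ => h1 i j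
      rw [← Finset.sum_mul, ← Finset.mul_sum, hs, hxs] at this
      linarith
    intro i
    have h3 : (x i : ℝ) - n * p i = ∑ j ∈ Finset.univ.erase i, (n * p j - x j) := by
      have e1 := Finset.add_sum_erase Finset.univ (fun j => (n * p j - (x j : ℝ)))
        (Finset.mem_univ i)
      have e2 : ∑ j, (n * p j - (x j : ℝ)) = 0 := by
        rw [Finset.sum_sub_distrib, ← Finset.mul_sum, hs, hxs]
        ring
      rw [e2] at e1
      linarith
    have h4 : ∑ j ∈ Finset.univ.erase i, ((n : ℝ) * p j - x j) ≤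
        ∑ _j ∈ (Finset.univ : Finset (Fin d)).erase i, (1 : ℝ) := by
      refine Finset.sum_le_sum fun j _ => ?_
      have := h2 j
      linarith
    rw [Finset.sum_const, Finset.card_erase_of_mem (Finset.mem_univ i), Finset.card_univ,
      Fintype.card_fin, nsmul_eq_mul, mul_one] at h4
    have h5 : ((d - 1 : ℕ) : ℝ) ≤ d := by exact_mod_cast Nat.sub_le d 1
    have h6 : (1 : ℝ) ≤ d := by exact_mod_cast hd
    rw [abs_le]
    constructor
    · have := h2 i
      linarith
    · rw [h3]
      linarith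

/-- the upper local bound -/
theorem pm_upper {p : Fin d → ℝ} {p0 : ℝ} (hp0 : 0 < p0) (hp : ∀ i, p0 ≤ p i)
    (hs : ∑ i, p i = 1) {n s : ℕ} (hs1 : 1 ≤ s) (hsn : s ^ 2 ≤ n) (hd : 0 < d)
    (hbig : 4 * d * (s : ℝ) ≤ n * p0) (y : Fin d → ℕ) :
    pm p n y ≤ Real.exp (4 * d ^ 3 / p0) / ((s : ℝ) + 1) ^ (d - 1) := by
  classical
  have hn : 0 < n := lt_of_lt_of_le (by positivity) hsn
  have hn0 : (0 : ℝ) < n := by exact_mod_cast hn
  have hs0 : (1 : ℝ) ≤ s := by exact_mod_cast hs1
  have hd0 : (1 : ℝ) ≤ d := by exact_mod_cast hd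
  have hsn' : (s : ℝ) ^ 2 ≤ n := by exact_mod_cast hsn
  have hp' : ∀ i, 0 < p i := fun i => lt_of_lt_of_le hp0 (hp i)
  obtain ⟨x, hx, hmax, hnear⟩ := exists_mode hp' hs n hd
  refine (hmax y).trans ?_
  set i0 : Fin d := ⟨0, hd⟩
  set Z : Finset (Fin d → ℕ) := Fintype.piFinset
    (fun i => if i = i0 then {0} else Finset.range (s + 1)) with hZ
  have hZcard : (Z.card : ℝ) = ((s : ℝ) + 1) ^ (d - 1) := by
    rw [hZ, Fintype.card_piFinset, ← Finset.mul_prod_erase Finset.univ _ (Finset.mem_univ i0)]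
    have e1 : (if i0 = i0 then ({0} : Finset ℕ) else Finset.range (s + 1)).card = 1 := by simp
    rw [e1, one_mul]
    have e2 : ∏ i ∈ Finset.univ.erase i0, (if i = i0 then ({0} : Finset ℕ) else
        Finset.range (s + 1)).card = ∏ _i ∈ (Finset.univ : Finset (Fin d)).erase i0, (s + 1) := by
      refine Finset.prod_congr rfl fun i hi => ?_
      rw [if_neg (Finset.ne_of_mem_erase hi), Finset.card_range]
    rw [e2, Finset.prod_const, Finset.card_erase_of_mem (Finset.mem_univ i0), Finset.card_univ,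
      Fintype.card_fin]
    push_cast
    rfl
  have hz0 : ∀ z ∈ Z, z i0 = 0 := by
    intro z hz
    have := (Fintype.mem_piFinset.1 hz) i0
    simpa using this
  have hzs : ∀ z ∈ Z, ∀ i, z i ≤ s := by
    intro z hz i
    by_cases hi : i = i0
    · rw [hi, hz0 z hz]
      omega
    · have := (Fintype.mem_piFinset.1 hz) i
      rw [if_neg hi, Finset.mem_range] at this
      omega
  have hzsum : ∀ z ∈ Z, ∑ i, z i ≤ d * s := by
    intro z hz
    refine (Finset.sum_le_sum fun i _ => hzs z hz i).trans ?_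
    simp
  have hxi0 : d * s ≤ x i0 := by
    have h1 := (abs_le.1 (hnear i0)).1
    have h2 : (n : ℝ) * p0 ≤ n * p i0 := mul_le_mul_of_nonneg_left (hp i0) hn0.le
    have h3 : (d : ℝ) * s ≤ x i0 := by nlinarith
    exact_mod_cast h3
  set Y : (Fin d → ℕ) → (Fin d → ℕ) := fun z i => if i = i0 then x i0 - ∑ j, z j else x i + z i
    with hY
  have hYsum : ∀ z ∈ Z, ∑ i, Y z i = n := by
    intro z hz
    have e1 := Finset.add_sum_erase Finset.univ (Y z) (Finset.mem_univ i0)
    have e2 : ∑ i ∈ Finset.univ.erase i0, Y z i = ∑ i ∈ Finset.univ.erase i0, (x i + z i) := by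
      refine Finset.sum_congr rfl fun i hi => ?_
      simp only [hY]
      rw [if_neg (Finset.ne_of_mem_erase hi)]
    have e3 : Y z i0 = x i0 - ∑ j, z j := by simp [hY]
    have e4 := Finset.add_sum_erase Finset.univ x (Finset.mem_univ i0)
    have e5 := Finset.add_sum_erase Finset.univ z (Finset.mem_univ i0)
    rw [hz0 z hz, zero_add] at e5
    rw [Finset.sum_add_distrib] at e2
    have e6 := hzsum z hz
    omega
  have hYinj : Set.InjOn Y Z := by
    intro z hz z' hz' h
    rw [Finset.mem_coe] at hz hz'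
    funext i
    by_cases hi : i = i0
    · rw [hi, hz0 z hz, hz0 z' hz']
    · have := congrFun h i
      simp only [hY, if_neg hi] at this
      omega
  have hlow : ∀ z ∈ Z, pm p n x * Real.exp (-(4 * d ^ 3 / p0)) ≤ pm p n (Y z) := by
    intro z hz
    have hdiff : ∀ i, |((Y z i : ℕ) : ℝ) - x i| ≤ d * s := by
      intro i
      by_cases hi : i = i0
      · have e3 : Y z i = x i0 - ∑ j, z j := by simp [hY, hi]
        rw [e3, hi, Nat.cast_sub ((hzsum z hz).trans hxi0)]
        have e4 : ((∑ j, z j : ℕ) : ℝ) ≤ d * s := by exact_mod_cast hzsum z hz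
        have e5 : (0 : ℝ) ≤ ((∑ j, z j : ℕ) : ℝ) := Nat.cast_nonneg _
        rw [abs_le]
        constructor <;> linarith
      · have e3 : Y z i = x i + z i := by simp [hY, hi]
        rw [e3]
        have e4 : (z i : ℝ) ≤ s := by exact_mod_cast hzs z hz i
        have e5 : (0 : ℝ) ≤ z i := Nat.cast_nonneg _
        push_cast
        rw [add_sub_cancel_left, abs_of_nonneg e5]
        nlinarith
    have h1 : ∀ i, |((Y z i : ℕ) : ℝ) - n * p i| ≤ 2 * (d * s) := by
      intro i
      have e1 := abs_le.1 (hdiff i)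
      have e2 := abs_le.1 (hnear i)
      have e3 : (d : ℝ) ≤ d * s := by nlinarith
      rw [abs_le]
      constructor <;> linarith
    have h2 := pm_compare hp0 hp hx (hYsum z hz) hn h1 hdiff (by linarith)
    refine le_trans ?_ h2
    refine mul_le_mul_of_nonneg_left ?_ (pm_nonneg (fun i => (hp' i).le) n x)
    rw [Real.exp_le_exp, neg_le_neg_iff]
    calc (d : ℝ) * (2 * (2 * (d * s)) * (d * s) / (n * p0))
        = 4 * d ^ 3 / p0 * (s ^ 2 / n) := by field_simp; ring
      _ ≤ 4 * d ^ 3 / p0 * 1 := by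
          refine mul_le_mul_of_nonneg_left ?_ (by positivity)
          rw [div_le_one hn0]
          exact hsn'
      _ = 4 * d ^ 3 / p0 := mul_one _
  have h3 := Finset.sum_le_sum hlow
  rw [Finset.sum_const, nsmul_eq_mul, hZcard, ← Finset.sum_image (f := pm p n) hYinj] at h3
  have h4 := sum_pm_le_one (fun i => (hp' i).le) hs n (Z.image Y)
  have h5 : (0 : ℝ) < ((s : ℝ) + 1) ^ (d - 1) := by positivity
  rw [le_div_iff₀ h5]
  have h6 : ((s : ℝ) + 1) ^ (d - 1) * (pm p n x * Real.exp (-(4 * d ^ 3 / p0))) ≤ 1 := h3.trans h4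
  have h7 : Real.exp (4 * d ^ 3 / p0) * Real.exp (-(4 * d ^ 3 / p0)) = 1 := by
    rw [← Real.exp_add]
    simp
  have h8 : 0 < Real.exp (4 * (d : ℝ) ^ 3 / p0) := Real.exp_pos _
  calc pm p n x * ((s : ℝ) + 1) ^ (d - 1)
      = Real.exp (4 * d ^ 3 / p0) *
        (((s : ℝ) + 1) ^ (d - 1) * (pm p n x * Real.exp (-(4 * d ^ 3 / p0)))) := by
        calc pm p n x * ((s : ℝ) + 1) ^ (d - 1)
            = (Real.exp (4 * d ^ 3 / p0) * Real.exp (-(4 * d ^ 3 / p0))) *
              (pm p n x * ((s : ℝ) + 1) ^ (d - 1)) := by rw [h7, one_mul]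
          _ = _ := by ring
    _ ≤ Real.exp (4 * d ^ 3 / p0) * 1 := mul_le_mul_of_nonneg_left h6 h8.le
    _ = _ := mul_one _

end Pool.Agent.Helper40_Random
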