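import Mathlib
import Pool.Agent.Helper40_Random.Local

/-!
# Successive attempts; the uniform law on the words of given content
-/

set_option autoImplicit false

namespace Pool.Agent.Helper40_Random

open Finset

variable {d : ℕ}

theorem Ex_prod_le {p : Fin d → ℝ} (hp : ∀ i, 0 ≤ p i) (hs : ∑ i, p i = 1) {b : ℕ}
    (φ : List (Fin d) → List (Fin d) → ℝ) (h0 : ∀ u y, 0 ≤ φ u y)
    (h1 : ∀ u, Ex p b (φ u) ≤ 1) (J : ℕ) {N : ℕ} (hN : J * b ≤ N) :
    Ex p N (fun x => ∏ k ∈ Finset.range J, φ (x.take (k * b)) ((x.drop (k * b)).take b)) ≤ 1 := by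
  induction J generalizing N with
  | zero => simp [Ex_const hs]
  | succ J ih =>
    have hJ : J * b + b ≤ N := by
      have : (J + 1) * b = J * b + b := by ring
      omega
    rw [Ex_append' p (show N = J * b + (N - J * b) by omega)]
    have key : ∀ u : List (Fin d), u.length = J * b →
        Ex p (N - J * b) (fun v => ∏ k ∈ Finset.range (J + 1),
          φ ((u ++ v).take (k * b)) (((u ++ v).drop (k * b)).take b)) ≤
        ∏ k ∈ Finset.range J, φ (u.take (k * b)) ((u.drop (k * b)).take b) := by
      intro u hu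
      have e1 : ∀ v : List (Fin d), ∏ k ∈ Finset.range (J + 1),
          φ ((u ++ v).take (k * b)) (((u ++ v).drop (k * b)).take b) =
          (∏ k ∈ Finset.range J, φ (u.take (k * b)) ((u.drop (k * b)).take b)) *
            φ u (v.take b) := by
        intro v
        rw [Finset.prod_range_succ]
        congr 1
        · refine Finset.prod_congr rfl fun k hk => ?_
          rw [Finset.mem_range] at hk
          have hk1 : k * b + b ≤ J * b := by
            have : (k + 1) * b ≤ J * b := Nat.mul_le_mul_right b hk
            have h2 : (k + 1) * b = k * b + b := by ring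
            omega
          rw [List.take_append_of_le_length (by omega), List.drop_append_of_le_length (by omega),
            List.take_append_of_le_length (by rw [List.length_drop]; omega)]
        · rw [← hu, List.take_left', List.drop_left']
          · rfl
          · rfl
      have e2 : (fun v : List (Fin d) => ∏ k ∈ Finset.range (J + 1),
          φ ((u ++ v).take (k * b)) (((u ++ v).drop (k * b)).take b)) =
          fun v => (∏ k ∈ Finset.range J, φ (u.take (k * b)) ((u.drop (k * b)).take b)) *
            φ u (v.take b) := funext e1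
      rw [e2, Ex_const_mul, Ex_take hs (show b ≤ N - J * b by omega)]
      have e3 : 0 ≤ ∏ k ∈ Finset.range J, φ (u.take (k * b)) ((u.drop (k * b)).take b) :=
        Finset.prod_nonneg fun k _ => h0 _ _
      calc (∏ k ∈ Finset.range J, φ (u.take (k * b)) ((u.drop (k * b)).take b)) * Ex p b (φ u)
          ≤ (∏ k ∈ Finset.range J, φ (u.take (k * b)) ((u.drop (k * b)).take b)) * 1 :=
            mul_le_mul_of_nonneg_left (h1 u) e3
        _ = _ := mul_one _
    exact (Ex_mono hp key).trans (ih le_rfl)

/-- Successive attempts: `valid` is a condition on the past, `succ` on the past and the next block;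
if each valid attempt succeeds with probability at least `q`, then it is unlikely that there are `m`
valid attempts and no success. -/
theorem seq_bound {p : Fin d → ℝ} (hp : ∀ i, 0 ≤ p i) (hs : ∑ i, p i = 1) {b J N : ℕ}
    (hN : J * b ≤ N) (valid : List (Fin d) → Prop) (succ : List (Fin d) → List (Fin d) → Prop)
    {q : ℝ} (hq0 : 0 < q) (hq1 : q < 1)
    (hq : ∀ u, valid u → (open Classical in q ≤ Ex p b (fun y => if succ u y then (1 : ℝ) else 0)))
    (bad : List (Fin d) → Prop) (m : ℕ)
    (hbad : ∀ x : List (Fin d), x.length = N → bad x →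
      (∀ k < J, valid (x.take (k * b)) → ¬ succ (x.take (k * b)) ((x.drop (k * b)).take b)) ∧
      (open Classical in m ≤ ((Finset.range J).filter (fun k => valid (x.take (k * b)))).card)) :
    (open Classical in Ex p N (fun x => if bad x then (1 : ℝ) else 0) ≤ (1 - q) ^ m) := by
  classical
  set φ : List (Fin d) → List (Fin d) → ℝ := fun u y =>
    if valid u then (if succ u y then 0 else (1 - q)⁻¹) else 1 with hφ
  have hq2 : 0 < 1 - q := by linarith
  have h0 : ∀ u y, 0 ≤ φ u y := by
    intro u y
    simp only [hφ]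
    split_ifs <;> positivity
  have h1 : ∀ u, Ex p b (φ u) ≤ 1 := by
    intro u
    by_cases hu : valid u
    · have e1 : φ u = fun y => (1 - q)⁻¹ * (1 - (if succ u y then (1 : ℝ) else 0)) := by
        funext y
        simp only [hφ, if_pos hu]
        split_ifs <;> ring
      rw [e1, Ex_const_mul, Ex_sub, Ex_const hs, inv_mul_le_iff₀ hq2]
      have := hq u hu
      linarith
    · have e1 : φ u = fun _ => 1 := by
        funext y
        simp only [hφ, if_neg hu]
      rw [e1, Ex_const hs]
  have h2 := Ex_prod_le hp hs φ h0 h1 J hN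
  have h3 : ∀ x : List (Fin d), x.length = N → (if bad x then (1 : ℝ) else 0) ≤
      (1 - q) ^ m * ∏ k ∈ Finset.range J, φ (x.take (k * b)) ((x.drop (k * b)).take b) := by
    intro x hx
    by_cases hb : bad x
    · rw [if_pos hb]
      obtain ⟨hno, hm⟩ := hbad x hx hb
      have e1 : ∀ k ∈ Finset.range J, φ (x.take (k * b)) ((x.drop (k * b)).take b) =
          if valid (x.take (k * b)) then (1 - q)⁻¹ else 1 := by
        intro k hk
        by_cases hv : valid (x.take (k * b))
        · simp only [hφ, if_pos hv, if_neg (hno k (Finset.mem_range.1 hk) hv)]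
        · simp only [hφ, if_neg hv]
      rw [Finset.prod_congr rfl e1, ← Finset.prod_filter, Finset.prod_const]
      have e2 : 1 ≤ (1 - q)⁻¹ := by
        rw [one_le_inv₀ hq2]
        linarith
      calc (1 : ℝ) = (1 - q) ^ m * ((1 - q)⁻¹) ^ m := by
            rw [← mul_pow, mul_inv_cancel₀ hq2.ne', one_pow]
        _ ≤ _ := mul_le_mul_of_nonneg_left (pow_le_pow_right₀ e2 (by convert hm)) (by positivity)
    · rw [if_neg hb]
      have := Finset.prod_nonneg fun k (_ : k ∈ Finset.range J) =>
        h0 (x.take (k * b)) ((x.drop (k * b)).take b)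
      positivity
  refine (Ex_mono hp h3).trans ?_
  rw [Ex_const_mul]
  calc (1 - q) ^ m * _ ≤ (1 - q) ^ m * 1 := mul_le_mul_of_nonneg_left h2 (by positivity)
    _ = _ := mul_one _

/-! ### The uniform law on the words with a given content -/

/-- the words of content `k` -/
def arr (k : Fin d → ℕ) : Finset (List (Fin d)) :=
  (LL d (∑ i, k i)).filter (fun w => ∀ i, w.count i = k i)

theorem mem_arr {k : Fin d → ℕ} {w : List (Fin d)} : w ∈ arr k ↔ ∀ i, w.count i = k i := by
  rw [arr, Finset.mem_filter, mem_LL]
  constructor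
  · exact fun h => h.2
  · intro h
    refine ⟨?_, h⟩
    rw [← sum_count w]
    exact Finset.sum_congr rfl fun i _ => h i

theorem arr_bound {k : Fin d → ℕ} (hk : ∀ i, 1 ≤ k i) {L : ℕ} (hL : ∑ i, k i = L) (hL0 : 0 < L)
    (B : List (Fin d) → Prop) :
    (open Classical in (((arr k).filter B).card : ℝ) ≤
      ((L : ℝ) + 1) ^ d * Ex (fun i => (k i : ℝ) / L) L (fun x => if B x then (1 : ℝ) else 0) *
        (arr k).card) := by
  classical
  set p : Fin d → ℝ := fun i => (k i : ℝ) / L with hp
  have hL1 : (0 : ℝ) < L := by exact_mod_cast hL0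
  have hk0 : ∀ i, (0 : ℝ) < k i := fun i => by exact_mod_cast hk i
  have hp0 : ∀ i, 0 < p i := fun i => div_pos (hk0 i) hL1
  set π : ℝ := ∏ i, p i ^ (k i) with hπ
  have hπ0 : 0 < π := Finset.prod_pos fun i _ => pow_pos (hp0 i) _
  have hpw : ∀ x ∈ arr k, pw p x = π := by
    intro x hx
    rw [pw_eq_prod, hπ]
    exact Finset.prod_congr rfl fun i _ => by rw [mem_arr.1 hx i]
  have h1 : π * (((arr k).filter B).card : ℝ) ≤ Ex p L (fun x => if B x then (1 : ℝ) else 0) := by
    rw [Ex_eq_sum]
    have e1 : ∑ x ∈ (arr k).filter B, pw p x * (if B x then (1 : ℝ) else 0) =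
        π * (((arr k).filter B).card : ℝ) := by
      have e2 : ∀ x ∈ (arr k).filter B, pw p x * (if B x then (1 : ℝ) else 0) = π := by
        intro x hx
        rw [Finset.mem_filter] at hx
        rw [if_pos hx.2, mul_one, hpw x hx.1]
      rw [Finset.sum_congr rfl e2, Finset.sum_const, nsmul_eq_mul, mul_comm]
    rw [← e1]
    apply Finset.sum_le_sum_of_subset_of_nonneg
    · intro x hx
      rw [Finset.mem_filter, arr, Finset.mem_filter, hL] at hx
      exact hx.1.1
    · intro x _ _
      have : 0 ≤ pw p x := by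
        rw [pw_eq_prod]
        exact Finset.prod_nonneg fun i _ => (pow_pos (hp0 i) _).le
      split_ifs <;> simp [this]
  have h2 : pm p L k = π * ((arr k).card : ℝ) := by
    rw [pm, Ex_eq_sum, arr, hL, Finset.card_filter, Nat.cast_sum, Finset.mul_sum]
    refine Finset.sum_congr rfl fun x hx => ?_
    by_cases hc : ∀ i, x.count i = k i
    · rw [if_pos hc, if_pos hc, Nat.cast_one, mul_one, mul_one]
      exact hpw x (mem_arr.2 hc)
    · rw [if_neg hc, if_neg hc]
      simp
  have h3 := pm_content hk hL hL0
  rw [← hp] at h3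
  rw [h2] at h3
  have hE : 0 ≤ Ex p L (fun x => if B x then (1 : ℝ) else 0) :=
    Ex_nonneg (fun i => (hp0 i).le) fun w _ => by split_ifs <;> norm_num
  have h4 : 1 ≤ ((L : ℝ) + 1) ^ d * (π * ((arr k).card : ℝ)) := by
    rw [inv_le_iff_one_le_mul₀ (by positivity)] at h3
    linarith
  have h5 : (((arr k).filter B).card : ℝ) ≤
      (((arr k).filter B).card : ℝ) * (((L : ℝ) + 1) ^ d * (π * ((arr k).card : ℝ))) := by
    calc (((arr k).filter B).card : ℝ) = (((arr k).filter B).card : ℝ) * 1 := (mul_one _).symm
      _ ≤ _ := mul_le_mul_of_nonneg_left h4 (Nat.cast_nonneg _)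
  refine h5.trans ?_
  calc (((arr k).filter B).card : ℝ) * (((L : ℝ) + 1) ^ d * (π * ((arr k).card : ℝ)))
      = (((L : ℝ) + 1) ^ d * ((arr k).card : ℝ)) * (π * (((arr k).filter B).card : ℝ)) := by ring
    _ ≤ (((L : ℝ) + 1) ^ d * ((arr k).card : ℝ)) * Ex p L (fun x => if B x then (1 : ℝ) else 0) :=
        mul_le_mul_of_nonneg_left h1 (by positivity)
    _ = _ := by ring

end Pool.Agent.Helper40_Random
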