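import Mathlib
import Pool.Agent.Helper40_Random.Seq

/-!
# Blocks of prescribed content: a second moment argument
-/

set_option autoImplicit false

namespace Pool.Agent.Helper40_Random

open Finset

variable {d : ℕ}

open Classical in
/-- indicator -/
noncomputable def ind (P : Prop) : ℝ := if P then 1 else 0

theorem ind_nonneg (P : Prop) : 0 ≤ ind P := by
  unfold ind; split_ifs <;> norm_num

theorem ind_le_one (P : Prop) : ind P ≤ 1 := by
  unfold ind; split_ifs <;> norm_num

theorem ind_true {P : Prop} (h : P) : ind P = 1 := by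
  unfold ind; rw [if_pos h]

theorem ind_false {P : Prop} (h : ¬ P) : ind P = 0 := by
  unfold ind; rw [if_neg h]

theorem ind_mono {P Q : Prop} (h : P → Q) : ind P ≤ ind Q := by
  by_cases hP : P
  · rw [ind_true hP, ind_true (h hP)]
  · rw [ind_false hP]; exact ind_nonneg Q

theorem ind_and (P Q : Prop) : ind (P ∧ Q) = ind P * ind Q := by
  by_cases hP : P <;> by_cases hQ : Q <;> simp [ind, hP, hQ]

theorem pm_eq_ind (p : Fin d → ℝ) (n : ℕ) (x : Fin d → ℕ) :
    pm p n x = Ex p n (fun w => ind (∀ i, w.count i = x i)) := by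
  rw [pm]
  refine Ex_congr p fun w _ => ?_
  unfold ind
  split_ifs <;> rfl

/-- independence of the first letters and the other ones -/
theorem Ex_indep (p : Fin d → ℝ) {N m k : ℕ} (h : N = m + k) (A B : List (Fin d) → ℝ) :
    Ex p N (fun x => A (x.take m) * B (x.drop m)) = Ex p m A * Ex p k B := by
  rw [Ex_append' p h]
  have h1 : ∀ u : List (Fin d), u.length = m →
      Ex p k (fun v => A ((u ++ v).take m) * B ((u ++ v).drop m)) = Ex p k B * A u := by
    intro u hu
    have h2 : ∀ v : List (Fin d), A ((u ++ v).take m) * B ((u ++ v).drop m) = A u * B v := by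
      intro v
      rw [← hu, List.take_left', List.drop_left'] <;> rfl
    rw [Ex_congr p (ψ := fun v => A u * B v) fun v _ => h2 v, Ex_const_mul, mul_comm]
  rw [Ex_congr p (ψ := fun u => Ex p k B * A u) fun u hu => h1 u hu, Ex_const_mul, mul_comm]

theorem Ex_head {p : Fin d → ℝ} (hs : ∑ i, p i = 1) {k : ℕ} (hk : 1 ≤ k) (a : Fin d) :
    Ex p k (fun y => ind (y.head? = some a)) = p a := by
  obtain ⟨m, rfl⟩ : ∃ m, k = m + 1 := ⟨k - 1, by omega⟩
  rw [Ex_succ]
  have h1 : ∀ i, p i * Ex p m (fun w => ind ((i :: w).head? = some a)) =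
      if i = a then p a else 0 := by
    intro i
    by_cases hi : i = a
    · subst hi
      rw [if_pos rfl, Ex_congr p (ψ := fun _ => 1) fun w _ => ?_, Ex_const hs, mul_one]
      exact ind_true rfl
    · rw [if_neg hi, Ex_congr p (ψ := fun _ => 0) fun w _ => ?_, Ex_zero_fun, mul_zero]
      apply ind_false
      simp [hi]
  rw [Finset.sum_congr rfl fun i _ => h1 i]
  simp

/-- the probability of a block with content `w` that starts with `a` and is followed by `a` -/
theorem Ex_block {p : Fin d → ℝ} (hp : ∀ i, 0 ≤ p i) (hs : ∑ i, p i = 1) (a : Fin d)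
    {w : Fin d → ℕ} (hwa : 1 ≤ w a) {n N : ℕ} (hn : 1 ≤ n) (hN : n + 1 ≤ N) :
    p a * (pm p (n - 1) (Function.update w a (w a - 1)) * p a) ≤
      Ex p N (fun y => ind (y.head? = some a ∧ (y.drop n).head? = some a ∧
        ∀ i, (y.take n).count i = w i)) := by
  obtain ⟨N', rfl⟩ : ∃ N', N = N' + 1 := ⟨N - 1, by omega⟩
  obtain ⟨m, rfl⟩ : ∃ m, n = m + 1 := ⟨n - 1, by omega⟩
  rw [Ex_succ]
  have h1 : p a * Ex p N' (fun v => ind ((a :: v).head? = some a ∧
      ((a :: v).drop (m + 1)).head? = some a ∧ ∀ i, ((a :: v).take (m + 1)).count i = w i)) ≤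
      ∑ i, p i * Ex p N' (fun v => ind ((i :: v).head? = some a ∧
      ((i :: v).drop (m + 1)).head? = some a ∧ ∀ j, ((i :: v).take (m + 1)).count j = w j)) := by
    refine Finset.single_le_sum (f := fun i => p i * Ex p N' (fun v =>
      ind ((i :: v).head? = some a ∧
      ((i :: v).drop (m + 1)).head? = some a ∧ ∀ j, ((i :: v).take (m + 1)).count j = w j)))
      (fun i _ => ?_) (Finset.mem_univ a)
    exact mul_nonneg (hp i) (Ex_nonneg hp fun w _ => ind_nonneg _)
  refine le_trans ?_ h1
  refine mul_le_mul_of_nonneg_left ?_ (hp a)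
  have h2 : Ex p N' (fun v => ind (∀ i, (v.take m).count i = Function.update w a (w a - 1) i) *
      ind ((v.drop m).head? = some a)) =
      pm p m (Function.update w a (w a - 1)) * p a := by
    rw [Ex_indep p (show N' = m + (N' - m) by omega)
      (fun u => ind (∀ i, u.count i = Function.update w a (w a - 1) i))
      (fun u => ind (u.head? = some a)), Ex_head hs (by omega), pm_eq_ind]
  rw [Nat.add_sub_cancel, ← h2]
  refine Ex_mono hp fun v _ => ?_
  rw [← ind_and]
  apply ind_mono
  rintro ⟨e1, e2⟩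
  refine ⟨rfl, by simpa using e2, fun i => ?_⟩
  rw [List.take_succ_cons, List.count_cons, e1 i]
  by_cases hi : i = a
  · subst hi
    simp
    omega
  · simp [Function.update_of_ne hi, Ne.symm hi]

/-- two blocks of the same length and content -/
theorem Ex_pair {p : Fin d → ℝ} (hp : ∀ i, 0 ≤ p i) (hs : ∑ i, p i = 1)
    {w : Fin d → ℕ} {n D N : ℕ} (hD : D ≤ n) (hN : n + D ≤ N) {σ1 σ2 : ℝ}
    (h1 : ∀ y, pm p D y ≤ σ1) (h2 : ∀ y, pm p (n - D) y ≤ σ2) :
    Ex p N (fun x => ind (∀ i, (x.take n).count i = w i) *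
      ind (∀ i, ((x.drop D).take n).count i = w i)) ≤ σ2 * σ1 := by
  have hσ1 : 0 ≤ σ1 := (pm_nonneg hp D (fun _ => 0)).trans (h1 _)
  have hσ2 : 0 ≤ σ2 := (pm_nonneg hp (n - D) (fun _ => 0)).trans (h2 _)
  have hsub : ∀ (u v : List (Fin d)), ind (∀ i, (u ++ v).count i = w i) ≤
      ind (∀ i, v.count i = w i - u.count i) := by
    intro u v
    apply ind_mono
    intro h i
    have := h i
    rw [List.count_append] at this
    omega
  rw [Ex_append' p (show N = D + (N - D) by omega)]
  have key : ∀ u : List (Fin d), u.length = D →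
      Ex p (N - D) (fun z => ind (∀ i, ((u ++ z).take n).count i = w i) *
        ind (∀ i, (((u ++ z).drop D).take n).count i = w i)) ≤ σ2 * σ1 := by
    intro u hu
    rw [Ex_append' p (show N - D = (n - D) + (N - n) by omega)]
    have key2 : ∀ x : List (Fin d), x.length = n - D →
        Ex p (N - n) (fun z => ind (∀ i, ((u ++ (x ++ z)).take n).count i = w i) *
          ind (∀ i, (((u ++ (x ++ z)).drop D).take n).count i = w i)) ≤
          σ1 * ind (∀ i, (u ++ x).count i = w i) := by
      intro x hx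
      have e1 : ∀ z : List (Fin d), (u ++ (x ++ z)).take n = u ++ x := by
        intro z
        rw [← List.append_assoc]
        apply List.take_left'
        simp [hu, hx]
        omega
      have e2 : ∀ z : List (Fin d), ((u ++ (x ++ z)).drop D).take n = x ++ z.take D := by
        intro z
        have h3 : (u ++ (x ++ z)).drop D = x ++ z := by
          rw [← hu]
          exact List.drop_left' rfl
        rw [h3, List.take_append, List.take_of_length_le (by omega)]
        congr 2
        omega
      have e3 : Ex p (N - n) (fun z => ind (∀ i, ((u ++ (x ++ z)).take n).count i = w i) *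
          ind (∀ i, (((u ++ (x ++ z)).drop D).take n).count i = w i)) ≤
          Ex p (N - n) (fun z => ind (∀ i, (u ++ x).count i = w i) *
            ind (∀ i, (z.take D).count i = w i - x.count i)) := by
        refine Ex_mono hp fun z _ => ?_
        rw [e1 z, e2 z]
        exact mul_le_mul_of_nonneg_left (hsub x (z.take D)) (ind_nonneg _)
      refine e3.trans ?_
      rw [Ex_const_mul, Ex_take hs (show D ≤ N - n by omega)
        (fun z => ind (∀ i, z.count i = w i - x.count i)), ← pm_eq_ind, mul_comm]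
      exact mul_le_mul_of_nonneg_right (h1 _) (ind_nonneg _)
    refine (Ex_mono hp key2).trans ?_
    rw [Ex_const_mul, mul_comm]
    refine mul_le_mul_of_nonneg_right ?_ hσ1
    refine le_trans ?_ (h2 (fun i => w i - u.count i))
    rw [pm_eq_ind]
    exact Ex_mono hp fun x _ => hsub u x
  refine (Ex_mono hp key).trans ?_
  rw [Ex_const hs]

/-- Bonferroni -/
theorem bonf {p : Fin d → ℝ} (hp : ∀ i, 0 ≤ p i) {ι : Type*} [DecidableEq ι] (s : Finset ι)
    (F : ι → List (Fin d) → Prop) {N : ℕ} {P1 P2 : ℝ} (hP2 : 0 ≤ P2)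
    (h1 : ∀ j ∈ s, P1 ≤ Ex p N (fun x => ind (F j x)))
    (h2 : ∀ j ∈ s, ∀ k ∈ s, j ≠ k → Ex p N (fun x => ind (F j x) * ind (F k x)) ≤ P2) :
    s.card * P1 - (s.card : ℝ) ^ 2 / 2 * P2 ≤ Ex p N (fun x => ind (∃ j ∈ s, F j x)) := by
  have hpt : ∀ x : List (Fin d), ∑ j ∈ s, ind (F j x) -
      (1 / 2) * ∑ j ∈ s, ∑ k ∈ s.erase j, ind (F j x) * ind (F k x) ≤ ind (∃ j ∈ s, F j x) := by
    intro x
    classical
    set S : ℕ := (s.filter (fun j => F j x)).card with hS
    have e1 : ∑ j ∈ s, ind (F j x) = S := by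
      rw [hS, Finset.card_filter, Nat.cast_sum]
      refine Finset.sum_congr rfl fun j _ => ?_
      unfold ind
      split_ifs <;> simp
    have e2 : ∀ j ∈ s, ∑ k ∈ s.erase j, ind (F j x) * ind (F k x) =
        ind (F j x) * S - ind (F j x) := by
      intro j hj
      have e3 : ind (F j x) * ind (F j x) + ∑ k ∈ s.erase j, ind (F j x) * ind (F k x) =
          ∑ k ∈ s, ind (F j x) * ind (F k x) :=
        Finset.add_sum_erase s (fun k => ind (F j x) * ind (F k x)) hj
      have e4 : ∑ k ∈ s, ind (F j x) * ind (F k x) = ind (F j x) * S := by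
        rw [← Finset.mul_sum, e1]
      have e5 : ind (F j x) * ind (F j x) = ind (F j x) := by
        unfold ind
        split_ifs <;> simp
      rw [e4, e5] at e3
      linarith
    rw [Finset.sum_congr rfl e2, Finset.sum_sub_distrib, ← Finset.sum_mul, e1]
    rcases Nat.eq_zero_or_pos S with h0 | h0
    · rw [h0]
      simp
      exact ind_nonneg _
    · have h3 : ∃ j ∈ s, F j x := by
        obtain ⟨j, hj⟩ := Finset.card_pos.1 h0
        rw [Finset.mem_filter] at hj
        exact ⟨j, hj.1, hj.2⟩
      rw [ind_true h3]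
      have h4 : (0 : ℝ) ≤ ((S : ℝ) - 1) * ((S : ℝ) - 2) := by
        rcases Nat.lt_or_ge S 2 with h5 | h5
        · have : S = 1 := by omega
          rw [this]
          norm_num
        · have h6 : (2 : ℝ) ≤ S := by exact_mod_cast h5
          nlinarith
      nlinarith
  have h3 := Ex_mono hp (n := N) (fun x _ => hpt x)
  refine le_trans ?_ h3
  rw [Ex_sub, Ex_sum, Ex_const_mul, Ex_sum]
  have h4 : (s.card : ℝ) * P1 ≤ ∑ j ∈ s, Ex p N (fun x => ind (F j x)) := by
    rw [← nsmul_eq_mul]
    exact Finset.card_nsmul_le_sum _ _ _ h1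
  have h5 : ∑ j ∈ s, Ex p N (fun x => ∑ k ∈ s.erase j, ind (F j x) * ind (F k x)) ≤
      (s.card : ℝ) ^ 2 * P2 := by
    have h6 : ∀ j ∈ s, Ex p N (fun x => ∑ k ∈ s.erase j, ind (F j x) * ind (F k x)) ≤
        s.card * P2 := by
      intro j hj
      rw [Ex_sum]
      have h7 : ∑ k ∈ s.erase j, Ex p N (fun x => ind (F j x) * ind (F k x)) ≤
          (s.erase j).card • P2 := by
        apply Finset.sum_le_card_nsmul
        intro k hk
        exact h2 j hj k (Finset.mem_of_mem_erase hk) (Finset.ne_of_mem_erase hk).symm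
      refine h7.trans ?_
      rw [nsmul_eq_mul]
      refine mul_le_mul_of_nonneg_right ?_ hP2
      exact_mod_cast Finset.card_le_card (Finset.erase_subset _ _)
    refine (Finset.sum_le_sum h6).trans ?_
    rw [Finset.sum_const, nsmul_eq_mul]
    apply le_of_eq
    ring
  linarith

end Pool.Agent.Helper40_Random
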