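import Mathlib
import Pool.Agent.Helper40_Random.EventA
import Pool.Agent.Helper40_Random.Norm

/-!
# Blocks of prescribed content: the probability estimate
-/

set_option autoImplicit false

namespace Pool.Agent.Helper40_Random

open Finset
open Pool.Agent.Helper94_Pisot (ab)

variable {d : ℕ}

/-- the block of content `w` at the position `j * s` -/
def FB (a : Fin d) (w : Fin d → ℕ) (n s j : ℕ) (x : List (Fin d)) : Prop :=
  (x.drop (j * s)).head? = some a ∧ ((x.drop (j * s)).drop n).head? = some a ∧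
    ∀ i, ((x.drop (j * s)).take n).count i = w i

theorem FB_block {a : Fin d} {w : Fin d → ℕ} {n s j : ℕ} (hn : 1 ≤ n) {x : List (Fin d)}
    (h : FB a w n s j x) :
    ∃ pre v post, x = pre ++ ((a :: v) ++ (a :: post)) ∧ ∀ i, (a :: v).count i = w i := by
  obtain ⟨h1, h2, h3⟩ := h
  obtain ⟨m, rfl⟩ : ∃ m, n = m + 1 := ⟨n - 1, by omega⟩
  obtain ⟨z, hz⟩ : ∃ z, x.drop (j * s) = a :: z := by
    cases hx : x.drop (j * s) with
    | nil => rw [hx] at h1; simp at h1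
    | cons b z =>
      rw [hx] at h1
      simp only [List.head?_cons, Option.some.injEq] at h1
      exact ⟨z, by rw [h1]⟩
  rw [hz] at h2 h3
  rw [List.take_succ_cons] at h3
  rw [List.drop_succ_cons] at h2
  obtain ⟨post, hpost⟩ : ∃ post, z.drop m = a :: post := by
    cases hx : z.drop m with
    | nil => rw [hx] at h2; simp at h2
    | cons b y =>
      rw [hx] at h2
      simp only [List.head?_cons, Option.some.injEq] at h2
      exact ⟨y, by rw [h2]⟩
  refine ⟨x.take (j * s), z.take m, post, ?_, h3⟩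
  rw [← hpost, List.cons_append, List.take_append_drop, ← hz, List.take_append_drop]

theorem era {p : Fin d → ℝ} (hp : ∀ i, 0 ≤ p i) (hs : ∑ i, p i = 1) (a : Fin d)
    {w : Fin d → ℕ} (hwa : 1 ≤ w a) {n s m b : ℕ} (hn : 1 ≤ n) (hb : m * s + n + 1 ≤ b)
    (hms : m * s ≤ n) {P1 σ1 σ2 : ℝ} (hσ1 : 0 ≤ σ1) (hσ2 : 0 ≤ σ2)
    (hP1 : P1 ≤ pm p (n - 1) (Function.update w a (w a - 1)))
    (h1 : ∀ D, s ≤ D → D ≤ m * s → ∀ y, pm p D y ≤ σ1)
    (h2 : ∀ D, D ≤ m * s → ∀ y, pm p (n - D) y ≤ σ2) :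
    m * (p a * (P1 * p a)) - (m : ℝ) ^ 2 / 2 * (σ2 * σ1) ≤
      Ex p b (fun x => ind (∃ j ∈ Finset.range m, FB a w n s j x)) := by
  have hle : ∀ j, j < m → j * s ≤ m * s := fun j hj => Nat.mul_le_mul_right s hj.le
  have h3 := bonf hp (Finset.range m) (fun j x => FB a w n s j x) (N := b)
    (P1 := p a * (P1 * p a)) (P2 := σ2 * σ1) (by positivity) (by
      intro j hj
      rw [Finset.mem_range] at hj
      have hjs := hle j hj
      have e1 : Ex p b (fun x => ind (FB a w n s j x)) =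
          Ex p (b - j * s) (fun y => ind (y.head? = some a ∧ (y.drop n).head? = some a ∧
            ∀ i, (y.take n).count i = w i)) :=
        Ex_drop hs (show b = j * s + (b - j * s) by omega)
          (fun y => ind (y.head? = some a ∧ (y.drop n).head? = some a ∧
            ∀ i, (y.take n).count i = w i))
      rw [e1]
      refine le_trans ?_ (Ex_block hp hs a hwa hn (by omega))
      refine mul_le_mul_of_nonneg_left ?_ (hp a)
      exact mul_le_mul_of_nonneg_right hP1 (hp a)) (by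
      have key : ∀ j k, j < k → k < m →
          Ex p b (fun x => ind (FB a w n s j x) * ind (FB a w n s k x)) ≤ σ2 * σ1 := by
        intro j k hjk hk
        set D := (k - j) * s with hD
        have hDs : s ≤ D := by
          rw [hD]
          exact Nat.le_mul_of_pos_left s (by omega)
        have hkD : k * s = j * s + D := by
          rw [hD, ← Nat.add_mul]
          congr 1
          omega
        have hks := hle k hk
        have e1 : Ex p b (fun x => ind (FB a w n s j x) * ind (FB a w n s k x)) ≤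
            Ex p b (fun x => (fun z : List (Fin d) => ind (∀ i, (z.take n).count i = w i) *
              ind (∀ i, ((z.drop D).take n).count i = w i)) (x.drop (j * s))) := by
          refine Ex_mono hp fun x _ => ?_
          refine mul_le_mul (ind_mono fun h => h.2.2) (ind_mono fun h => ?_) (ind_nonneg _)
            (ind_nonneg _)
          have := h.2.2
          rw [hkD, ← List.drop_drop] at this
          exact this
        refine e1.trans ?_
        rw [Ex_drop hs (show b = j * s + (b - j * s) by omega)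
          (fun z : List (Fin d) => ind (∀ i, (z.take n).count i = w i) *
              ind (∀ i, ((z.drop D).take n).count i = w i))]
        exact Ex_pair hp hs (by omega) (by omega) (h1 D hDs (by omega)) (h2 D (by omega))
      intro j hj k hk hjk
      rw [Finset.mem_range] at hj hk
      rcases lt_or_gt_of_ne hjk with h | h
      · exact key j k h hk
      · have := key k j h hj
        refine le_trans (le_of_eq ?_) this
        refine Ex_congr p fun x _ => ?_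
        ring)
  rw [Finset.card_range] at h3
  exact h3


/-- An integer vector in the region, as a vector of natural numbers, with estimates. -/
theorem vec_data {l α : Fin d → ℝ} (hα : ∀ i, 0 < α i) (hα1 : ∑ i, α i = 1) {am : ℝ}
    (ham : ∀ i, am ≤ α i) {w : Fin d → ℤ} {lo Q : ℝ} (hlo : lo ≤ lr l (re w)) (hlo0 : 0 ≤ lo)
    (hQ : ‖qr l α (re w)‖ ≤ Q) (hbig : Q + 1 ≤ lo * am) :
    ∃ w' : Fin d → ℕ, (∀ i, (w i : ℤ) = w' i) ∧ (∀ i, 1 ≤ w' i) ∧
      |((∑ i, w' i : ℕ) : ℝ) - lr l (re w)| ≤ d * Q ∧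
      ∀ i, |(w' i : ℝ) - ((∑ i, w' i : ℕ) : ℝ) * α i| ≤ (1 + d) * Q := by
  have hq : ∀ i, |qr l α (re w) i| ≤ Q := by
    intro i
    rw [← Real.norm_eq_abs]
    exact (norm_le_pi_norm _ i).trans hQ
  have hw : ∀ i, (w i : ℝ) = lr l (re w) * α i + qr l α (re w) i := by
    intro i
    simp only [qr, re]
    ring
  have hpos : ∀ i, (1 : ℝ) ≤ w i := by
    intro i
    have h1 := (abs_le.1 (hq i)).1
    have h2 : lo * am ≤ lr l (re w) * α i := by
      calc lo * am ≤ lo * α i := mul_le_mul_of_nonneg_left (ham i) hlo0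
        _ ≤ _ := mul_le_mul_of_nonneg_right hlo (hα i).le
    rw [hw i]
    linarith
  have hpos' : ∀ i, 1 ≤ w i := fun i => by exact_mod_cast hpos i
  have hcast : ∀ i, ((w i).toNat : ℤ) = w i := fun i => Int.toNat_of_nonneg (by
    have := hpos' i
    omega)
  have hcastR : ∀ i, (((w i).toNat : ℕ) : ℝ) = w i := by
    intro i
    have := hcast i
    exact_mod_cast congrArg (fun z : ℤ => (z : ℝ)) this
  have hsum : ((∑ i, (w i).toNat : ℕ) : ℝ) = lr l (re w) + ∑ i, qr l α (re w) i := by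
    push_cast
    rw [Finset.sum_congr rfl fun i _ => (hcastR i).trans (hw i), Finset.sum_add_distrib,
      ← Finset.mul_sum, hα1, mul_one]
  have hsq : |∑ i, qr l α (re w) i| ≤ d * Q := by
    refine (Finset.abs_sum_le_sum_abs _ _).trans ?_
    refine (Finset.sum_le_sum fun i _ => hq i).trans ?_
    simp
  have hα2 : ∀ i, α i ≤ 1 := by
    intro i
    rw [← hα1]
    exact Finset.single_le_sum (f := α) (fun j _ => (hα j).le) (Finset.mem_univ i)
  refine ⟨fun i => (w i).toNat, fun i => (hcast i).symm, fun i => ?_, ?_, fun i => ?_⟩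
  · have h1 := hcast i
    have h2 := hpos' i
    change 1 ≤ (w i).toNat
    omega
  · rw [hsum, add_sub_cancel_left]
    exact hsq
  · rw [hsum, hcastR i, hw i]
    have e : lr l (re w) * α i + qr l α (re w) i - (lr l (re w) + ∑ i, qr l α (re w) i) * α i =
        qr l α (re w) i - (∑ i, qr l α (re w) i) * α i := by ring
    rw [e]
    calc |qr l α (re w) i - (∑ i, qr l α (re w) i) * α i|
        ≤ |qr l α (re w) i| + |(∑ i, qr l α (re w) i) * α i| := abs_sub _ _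
      _ ≤ Q + d * Q := by
          refine add_le_add (hq i) ?_
          rw [abs_mul, abs_of_pos (hα i)]
          calc |∑ i, qr l α (re w) i| * α i ≤ |∑ i, qr l α (re w) i| * 1 :=
                mul_le_mul_of_nonneg_left (hα2 i) (abs_nonneg _)
            _ ≤ _ := by rw [mul_one]; exact hsq
      _ = (1 + d) * Q := by ring

theorem exists_min_α {α : Fin d → ℝ} (hα : ∀ i, 0 < α i) : ∃ am : ℝ, 0 < am ∧ ∀ i, am ≤ α i := by
  rcases Nat.eq_zero_or_pos d with hd | hd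
  · subst hd
    exact ⟨1, one_pos, fun i => i.elim0⟩
  · obtain ⟨i, -, hi⟩ := Finset.exists_min_image Finset.univ α ⟨⟨0, hd⟩, Finset.mem_univ _⟩
    exact ⟨α i, hα i, fun j => hi j (Finset.mem_univ j)⟩

/-- The local lower bound for vectors near the eigenvector direction. -/
theorem pm_near {p0 K1 : ℝ} (hp0 : 0 < p0) (hK1 : 1 ≤ K1) (hd : 0 < d) :
    ∃ c : ℝ, 0 < c ∧ ∃ t0 : ℕ, ∀ (p : Fin d → ℝ), (∀ i, p0 ≤ p i) → ∑ i, p i = 1 →
      ∀ (n t : ℕ), t0 ≤ t → (t : ℝ) ^ 2 / 9 ≤ n → (n : ℝ) ≤ 4 * t ^ 2 →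
      ∀ y : Fin d → ℕ, ∑ i, y i = n → (∀ i, |(y i : ℝ) - n * p i| ≤ K1 * t) →
        c / (t : ℝ) ^ (d - 1) ≤ pm p n y := by
  set K := 3 * K1 with hK
  refine ⟨3 / 4 * Real.exp (-(2 * d * K * (K + 2) / p0)) / 10 ^ (d - 1), by positivity,
    ⌈6 * K / p0⌉₊ + 1, ?_⟩
  intro p hp hs n t ht hn1 hn2 y hy1 hy2
  have ht0 : 6 * K / p0 ≤ t := by
    have h1 := Nat.le_ceil (6 * K / p0)
    have h2 : (⌈6 * K / p0⌉₊ : ℝ) ≤ t := by
      have : ⌈6 * K / p0⌉₊ ≤ t := by omega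
      exact_mod_cast this
    linarith
  have ht1 : (1 : ℝ) ≤ t := by
    have : 1 ≤ t := by omega
    exact_mod_cast this
  have hn0 : 0 < n := by
    have : (0 : ℝ) < n := by
      have : (0 : ℝ) < (t : ℝ) ^ 2 / 9 := by positivity
      linarith
    exact_mod_cast this
  have hsq1 : (t : ℝ) / 3 ≤ Real.sqrt n := by
    apply Real.le_sqrt_of_sq_le
    calc ((t : ℝ) / 3) ^ 2 = (t : ℝ) ^ 2 / 9 := by ring
      _ ≤ (n : ℝ) := hn1
  have hsq2 : Real.sqrt n ≤ 2 * t := by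
    rw [Real.sqrt_le_left (by positivity)]
    calc (n : ℝ) ≤ 4 * t ^ 2 := hn2
      _ = (2 * t) ^ 2 := by ring
  have h1 := pm_lower (K := K) hp0 hp hs hn0 hd (by positivity) (by
    rw [div_le_iff₀ hp0] at ht0
    have : (t : ℝ) / 3 * p0 ≤ Real.sqrt n * p0 := mul_le_mul_of_nonneg_right hsq1 hp0.le
    linarith) hy1 (fun i => (hy2 i).trans (by
      rw [hK]
      have : 3 * K1 * ((t : ℝ) / 3) ≤ 3 * K1 * Real.sqrt n :=
        mul_le_mul_of_nonneg_left hsq1 (by positivity)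
      linarith))
  refine le_trans ?_ h1
  rw [div_div, ← mul_pow]
  apply div_le_div_of_nonneg_left (by positivity)
  · have : 0 < Real.sqrt n := by linarith
    positivity
  · apply pow_le_pow_left₀ (by positivity)
    linarith


theorem aux1 {K1 t am : ℝ} (ht : 4 ≤ t) (h : 2 * (K1 + 1) ≤ t * am) :
    K1 * t + 1 ≤ t ^ 2 / 2 * am := by
  have h1 : 2 * (K1 + 1) * (t / 2) ≤ t * am * (t / 2) :=
    mul_le_mul_of_nonneg_right h (by linarith)
  nlinarith

theorem aux2 {K1 t e : ℝ} (ht : 4 ≤ t) (h : 8 * e * K1 ≤ t) : e * (K1 * t) ≤ t ^ 2 / 8 := by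
  have h1 : 8 * e * K1 * (t / 8) ≤ t * (t / 8) := mul_le_mul_of_nonneg_right h (by linarith)
  nlinarith

theorem aux3 {t : ℝ} (ht : 4 ≤ t) : 16 ≤ t ^ 2 := by nlinarith

theorem aux4 {B t : ℝ} (ht : 4 ≤ t) : B * t + 3 ≤ (B + 3) * t := by nlinarith

theorem aux5 {e u D p0 : ℝ} (hu : 4 ≤ u) (h : 16 * e ≤ u * p0) (he : 0 ≤ e)
    (h2 : u ^ 2 * p0 ≤ D * p0) :
    4 * e * u ≤ D * p0 := by
  have h1 : 16 * e * u ≤ u * p0 * u := mul_le_mul_of_nonneg_right h (by linarith)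
  have h3 : 0 ≤ e * u := mul_nonneg he (by linarith)
  nlinarith

theorem aux6 {t : ℝ} (ht : 4 ≤ t) : (t / 3) ^ 2 ≤ t ^ 2 / 4 := by nlinarith

theorem aux7 {e t p0 X Y : ℝ} (ht : 4 ≤ t) (he : 0 ≤ e) (h : 16 * e ≤ t * p0)
    (h2 : t ^ 2 / 4 * p0 ≤ X) (h3 : Y ≤ 4 * e * (t / 3)) : Y ≤ X := by
  have h1 : 16 * e * (t / 4) ≤ t * p0 * (t / 4) := mul_le_mul_of_nonneg_right h (by linarith)
  have h4 : 0 ≤ e * t := mul_nonneg he (by linarith)
  nlinarith

theorem aux8 {x y : ℝ} (hx : 0 < x) (h : x ≤ y) : x ^ 2 ≤ y * y := by nlinarith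

/-- the event for one vector -/
def BlkIn (a : Fin d) (w : Fin d → ℤ) (x : List (Fin d)) : Prop :=
  ∃ pre v post, x = pre ++ ((a :: v) ++ (a :: post)) ∧ ab (a :: v) = w

theorem eventA {l α : Fin d → ℝ} (hα : ∀ i, 0 < α i) (hα1 : ∑ i, α i = 1) (hd : 2 ≤ d)
    {p0 K1 : ℝ} (hp0 : 0 < p0) (hK1 : 1 ≤ K1) :
    ∃ c : ℝ, 0 < c ∧ ∃ t0 : ℕ, ∀ (p : Fin d → ℝ), (∀ i, p0 ≤ p i) → ∑ i, p i = 1 →
      ∀ (t u m L J : ℕ), t0 ≤ t → t0 ≤ u → 1 ≤ m → m * u ^ 2 * 8 ≤ t ^ 2 →
        (m : ℝ) ≤ c * (u : ℝ) ^ (d - 1) → (∀ i, |p i - α i| * (3 * (t : ℝ) ^ 2) ≤ 1) →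
        J * (4 * t ^ 2) ≤ L → ∀ (a : Fin d) (w : Fin d → ℤ), (t : ℝ) ^ 2 / 2 ≤ lr l (re w) →
          lr l (re w) ≤ 2 * (t : ℝ) ^ 2 → ‖qr l α (re w)‖ ≤ K1 * t →
          Ex p L (fun x => ind (¬ BlkIn a w x)) ≤ (1 - c * m / (t : ℝ) ^ (d - 1)) ^ J := by
  obtain ⟨am, ham0, ham⟩ := exists_min_α hα
  set K2 : ℝ := (1 + d) * K1 + 3 with hK2
  have hK2' : 1 ≤ K2 := by
    have : 0 ≤ (1 + (d : ℝ)) * K1 := by positivity
    linarith
  obtain ⟨c5, hc5, t1, hnear⟩ := pm_near (d := d) hp0 hK2' (by omega)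
  set C4 : ℝ := Real.exp (4 * d ^ 3 / p0) with hC4
  have hC40 : 0 < C4 := Real.exp_pos _
  set c' : ℝ := p0 ^ 2 * c5 / (C4 ^ 2 * 3 ^ (d - 1)) with hc'
  have hc'0 : 0 < c' := by positivity
  set c : ℝ := min c' (p0 ^ 2 * c5 / 4) with hc
  have hc0 : 0 < c := lt_min hc'0 (by positivity)
  refine ⟨c, hc0, t1 + ⌈2 * (K1 + 1) / am⌉₊ + ⌈8 * d * K1⌉₊ + ⌈16 * d / p0⌉₊ + 4, ?_⟩
  intro p hp hs t u m L J ht hu hm hmu hmc hpα hJ a w hw1 hw2 hw3
  have hp' : ∀ i, 0 ≤ p i := fun i => hp0.le.trans (hp i)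
  have hpone : ∀ i, p i ≤ 1 := by
    intro i
    rw [← hs]
    exact Finset.single_le_sum (f := p) (fun j _ => hp' j) (Finset.mem_univ i)
  -- largeness of t
  have ht4 : (4 : ℝ) ≤ t := by
    have : 4 ≤ t := by omega
    exact_mod_cast this
  have htN : 4 ≤ t := by omega
  have hT1 : 2 * (K1 + 1) ≤ t * am := by
    have h1 := Nat.le_ceil (2 * (K1 + 1) / am)
    have h2 : (⌈2 * (K1 + 1) / am⌉₊ : ℝ) ≤ t := by
      have : ⌈2 * (K1 + 1) / am⌉₊ ≤ t := by omega
      exact_mod_cast this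
    rw [← div_le_iff₀ ham0]
    linarith
  have hT2 : 8 * d * K1 ≤ t := by
    have h1 := Nat.le_ceil (8 * d * K1)
    have h2 : (⌈8 * d * K1⌉₊ : ℝ) ≤ t := by
      have : ⌈8 * d * K1⌉₊ ≤ t := by omega
      exact_mod_cast this
    linarith
  have hT3 : 16 * d ≤ t * p0 := by
    have h1 := Nat.le_ceil (16 * d / p0)
    have h2 : (⌈16 * d / p0⌉₊ : ℝ) ≤ t := by
      have : ⌈16 * d / p0⌉₊ ≤ t := by omega
      exact_mod_cast this
    rw [← div_le_iff₀ hp0]
    linarith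
  have hU3 : 16 * d ≤ u * p0 := by
    have h1 := Nat.le_ceil (16 * d / p0)
    have h2 : (⌈16 * d / p0⌉₊ : ℝ) ≤ u := by
      have : ⌈16 * d / p0⌉₊ ≤ u := by omega
      exact_mod_cast this
    rw [← div_le_iff₀ hp0]
    linarith
  have hu4 : 4 ≤ u := by omega
  have hu4' : (4 : ℝ) ≤ u := by exact_mod_cast hu4
  -- the vector
  obtain ⟨w', hww, hw1', hwn, hwi⟩ := vec_data (l := l) hα hα1 ham hw1 (by positivity) hw3
    (aux1 ht4 hT1)
  set n : ℕ := ∑ i, w' i with hn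
  have hdK : d * (K1 * t) ≤ (t : ℝ) ^ 2 / 8 := aux2 ht4 hT2
  rw [abs_le] at hwn
  have hn1 : 3 * (t : ℝ) ^ 2 / 8 ≤ n := by linarith
  have hn2 : (n : ℝ) ≤ 17 * (t : ℝ) ^ 2 / 8 := by linarith
  have ht16 : (16 : ℝ) ≤ (t : ℝ) ^ 2 := aux3 ht4
  have hnN : 1 ≤ n := by
    have : (1 : ℝ) ≤ n := by linarith
    exact_mod_cast this
  have hwa : 1 ≤ w' a := hw1' a
  -- the local lower bound
  set y : Fin d → ℕ := Function.update w' a (w' a - 1) with hy
  have hya : y a = w' a - 1 := by simp [hy]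
  have hyi : ∀ i, i ≠ a → y i = w' i := fun i hi => by simp [hy, hi]
  have hysum : ∑ i, y i = n - 1 := by
    have e1 := Finset.add_sum_erase Finset.univ w' (Finset.mem_univ a)
    have e2 := Finset.add_sum_erase Finset.univ y (Finset.mem_univ a)
    have e3 : ∑ j ∈ Finset.univ.erase a, y j = ∑ j ∈ Finset.univ.erase a, w' j :=
      Finset.sum_congr rfl fun j hj => hyi j (Finset.ne_of_mem_erase hj)
    omega
  have hn1R : ((n - 1 : ℕ) : ℝ) = n - 1 := by
    rw [Nat.cast_sub hnN]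
    simp
  have hP1 : c5 / (t : ℝ) ^ (d - 1) ≤ pm p (n - 1) y := by
    apply hnear p hp hs (n - 1) t (by omega) _ _ y hysum
    · intro i
      have e1 : |(y i : ℝ) - w' i| ≤ 1 := by
        by_cases hi : i = a
        · rw [hi, hya, Nat.cast_sub hwa]
          simp
        · rw [hyi i hi]
          simp
      have e2 := hwi i
      have e3 : |(n : ℝ) * α i - n * p i| ≤ 1 := by
        rw [← mul_sub, abs_mul, abs_of_nonneg (Nat.cast_nonneg n), abs_sub_comm, mul_comm]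
        refine le_trans ?_ (hpα i)
        refine mul_le_mul_of_nonneg_left ?_ (abs_nonneg _)
        linarith
      have e4 : |(n : ℝ) * p i - ((n - 1 : ℕ) : ℝ) * p i| ≤ 1 := by
        rw [hn1R]
        have : (n : ℝ) * p i - (n - 1) * p i = p i := by ring
        rw [this, abs_of_nonneg (hp' i)]
        exact hpone i
      have e5 : (y i : ℝ) - ((n - 1 : ℕ) : ℝ) * p i =
          ((y i : ℝ) - w' i) + ((w' i : ℝ) - n * α i) + ((n : ℝ) * α i - n * p i) +
            ((n : ℝ) * p i - ((n - 1 : ℕ) : ℝ) * p i) := by ring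
      rw [e5]
      refine (abs_add_le _ _).trans ?_
      have e6 := abs_add_le (((y i : ℝ) - w' i) + ((w' i : ℝ) - n * α i))
        ((n : ℝ) * α i - n * p i)
      have e7 := abs_add_le ((y i : ℝ) - w' i) ((w' i : ℝ) - n * α i)
      have e8 : (1 + (d : ℝ)) * (K1 * t) + 3 ≤ K2 * t := by
        rw [hK2, ← mul_assoc]
        exact aux4 ht4
      linarith
    · rw [hn1R]
      linarith
    · rw [hn1R]
      linarith
  -- sup bounds
  have htd : (0 : ℝ) < (t : ℝ) ^ (d - 1) := by positivity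
  have hud : (0 : ℝ) < (u : ℝ) ^ (d - 1) := by positivity
  have hmsR : (m : ℝ) * (u : ℝ) ^ 2 * 8 ≤ (t : ℝ) ^ 2 := by exact_mod_cast hmu
  have hms : ∀ D : ℕ, D ≤ m * u ^ 2 → (D : ℝ) ≤ (t : ℝ) ^ 2 / 8 := by
    intro D hD
    have : (D : ℝ) ≤ (m : ℝ) * (u : ℝ) ^ 2 := by exact_mod_cast hD
    linarith
  have hmsn : m * u ^ 2 ≤ n := by
    have h1 := hms _ le_rfl
    have : ((m * u ^ 2 : ℕ) : ℝ) ≤ n := by linarith
    exact_mod_cast this
  have hσ1 : ∀ D, u ^ 2 ≤ D → D ≤ m * u ^ 2 → ∀ z, pm p D z ≤ C4 / (u : ℝ) ^ (d - 1) := by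
    intro D hD _ z
    refine (pm_upper (s := u) hp0 hp hs (by omega) hD (by omega) ?_ z).trans ?_
    · have h1 : ((u ^ 2 : ℕ) : ℝ) ≤ D := by exact_mod_cast hD
      push_cast at h1
      have h2 : (u : ℝ) ^ 2 * p0 ≤ D * p0 := mul_le_mul_of_nonneg_right h1 hp0.le
      exact aux5 hu4' hU3 (Nat.cast_nonneg d) h2
    · apply div_le_div_of_nonneg_left hC40.le hud
      apply pow_le_pow_left₀ (by positivity)
      linarith
  have hσ2 : ∀ D, D ≤ m * u ^ 2 → ∀ z, pm p (n - D) z ≤ C4 * 3 ^ (d - 1) / (t : ℝ) ^ (d - 1) := by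
    intro D hD z
    have hDn : D ≤ n := hD.trans hmsn
    have h0 := hms D hD
    have hnD : (t : ℝ) ^ 2 / 4 ≤ ((n - D : ℕ) : ℝ) := by
      rw [Nat.cast_sub hDn]
      linarith
    have hs' : ((t / 3 : ℕ) : ℝ) ≤ t / 3 := Nat.cast_div_le
    have hs'' : (t : ℝ) / 3 ≤ ((t / 3 : ℕ) : ℝ) + 1 := by
      have h1 : t ≤ 3 * (t / 3) + 3 := by omega
      have h2 : (t : ℝ) ≤ 3 * ((t / 3 : ℕ) : ℝ) + 3 := by exact_mod_cast h1
      linarith
    refine (pm_upper (s := t / 3) hp0 hp hs (by omega) ?_ (by omega) ?_ z).trans ?_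
    · have h1 : (((t / 3) ^ 2 : ℕ) : ℝ) ≤ ((n - D : ℕ) : ℝ) := by
        push_cast
        have h3 : (((t / 3 : ℕ) : ℝ)) ^ 2 ≤ ((t : ℝ) / 3) ^ 2 :=
          pow_le_pow_left₀ (by positivity) hs' 2
        have h4 : ((t : ℝ) / 3) ^ 2 ≤ (t : ℝ) ^ 2 / 4 := aux6 ht4
        linarith
      exact_mod_cast h1
    · have h2 : (t : ℝ) ^ 2 / 4 * p0 ≤ ((n - D : ℕ) : ℝ) * p0 :=
        mul_le_mul_of_nonneg_right hnD hp0.le
      have h3 : 4 * (d : ℝ) * ((t / 3 : ℕ) : ℝ) ≤ 4 * (d : ℝ) * (t / 3) :=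
        mul_le_mul_of_nonneg_left hs' (by positivity)
      exact aux7 ht4 (Nat.cast_nonneg d) hT3 h2 h3
    · have h5 : C4 * 3 ^ (d - 1) / (t : ℝ) ^ (d - 1) = C4 / ((t : ℝ) / 3) ^ (d - 1) := by
        rw [div_pow]
        field_simp
      rw [h5]
      apply div_le_div_of_nonneg_left hC40.le (by positivity)
      exact pow_le_pow_left₀ (by positivity) hs'' _
  have hera := era hp' hs a hwa hnN (s := u ^ 2) (m := m) (b := 4 * t ^ 2) (by
      have h1 := hms _ le_rfl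
      have : ((m * u ^ 2 + n + 1 : ℕ) : ℝ) ≤ ((4 * t ^ 2 : ℕ) : ℝ) := by
        push_cast
        push_cast at h1
        linarith
      exact_mod_cast this) hmsn (by positivity) (by positivity) hP1 hσ1 hσ2
  -- success probability
  have hm1 : (1 : ℝ) ≤ m := by exact_mod_cast hm
  set q : ℝ := c * m / (t : ℝ) ^ (d - 1) with hq
  have hq0 : 0 < q := by positivity
  have hmain : 2 * q ≤ Ex p (4 * t ^ 2)
      (fun x => ind (∃ j ∈ Finset.range m, FB a w' n (u ^ 2) j x)) := by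
    refine le_trans ?_ hera
    have hpa := hp a
    have e1 : p0 ^ 2 * c5 / (t : ℝ) ^ (d - 1) * m ≤
        m * (p a * (c5 / (t : ℝ) ^ (d - 1) * p a)) := by
      have e2 : p0 ^ 2 ≤ p a * p a := aux8 hp0 hpa
      have e3 : m * (p a * (c5 / (t : ℝ) ^ (d - 1) * p a)) =
          (p a * p a) * c5 / (t : ℝ) ^ (d - 1) * m := by ring
      rw [e3]
      refine mul_le_mul_of_nonneg_right ?_ (by positivity)
      apply div_le_div_of_nonneg_right _ htd.le
      exact mul_le_mul_of_nonneg_right e2 hc5.le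
    have e4 : (m : ℝ) ^ 2 / 2 * (C4 * 3 ^ (d - 1) / (t : ℝ) ^ (d - 1) *
        (C4 / (u : ℝ) ^ (d - 1))) ≤ p0 ^ 2 * c5 / (t : ℝ) ^ (d - 1) * m / 2 := by
      have e5 : (m : ℝ) ≤ c' * (u : ℝ) ^ (d - 1) :=
        hmc.trans (mul_le_mul_of_nonneg_right (min_le_left _ _) hud.le)
      have e6 : (m : ℝ) * (C4 ^ 2 * 3 ^ (d - 1)) ≤ p0 ^ 2 * c5 * (u : ℝ) ^ (d - 1) := by
        have e7 : c' * (C4 ^ 2 * 3 ^ (d - 1)) = p0 ^ 2 * c5 := by
          rw [hc']
          field_simp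
        calc (m : ℝ) * (C4 ^ 2 * 3 ^ (d - 1)) ≤ c' * (u : ℝ) ^ (d - 1) * (C4 ^ 2 * 3 ^ (d - 1)) :=
              mul_le_mul_of_nonneg_right e5 (by positivity)
          _ = (c' * (C4 ^ 2 * 3 ^ (d - 1))) * (u : ℝ) ^ (d - 1) := by ring
          _ = _ := by rw [e7]
      have e8 : (m : ℝ) ^ 2 / 2 * (C4 * 3 ^ (d - 1) / (t : ℝ) ^ (d - 1) *
          (C4 / (u : ℝ) ^ (d - 1))) =
          (m * (C4 ^ 2 * 3 ^ (d - 1))) * (m / (2 * (t : ℝ) ^ (d - 1) * (u : ℝ) ^ (d - 1))) := by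
        field_simp
      rw [e8]
      calc (m * (C4 ^ 2 * 3 ^ (d - 1))) * (m / (2 * (t : ℝ) ^ (d - 1) * (u : ℝ) ^ (d - 1)))
          ≤ (p0 ^ 2 * c5 * (u : ℝ) ^ (d - 1)) *
            (m / (2 * (t : ℝ) ^ (d - 1) * (u : ℝ) ^ (d - 1))) :=
            mul_le_mul_of_nonneg_right e6 (by positivity)
        _ = _ := by field_simp
    have e9 : 2 * q ≤ p0 ^ 2 * c5 / (t : ℝ) ^ (d - 1) * m / 2 := by
      have e10 : c ≤ p0 ^ 2 * c5 / 4 := min_le_right _ _
      have e11 : 2 * q = c * (2 * m / (t : ℝ) ^ (d - 1)) := by rw [hq]; ring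
      rw [e11]
      calc c * (2 * m / (t : ℝ) ^ (d - 1)) ≤ p0 ^ 2 * c5 / 4 * (2 * m / (t : ℝ) ^ (d - 1)) :=
            mul_le_mul_of_nonneg_right e10 (by positivity)
        _ = _ := by ring
    linarith
  have hq1 : q < 1 := by
    have h1 : Ex p (4 * t ^ 2)
        (fun x => ind (∃ j ∈ Finset.range m, FB a w' n (u ^ 2) j x)) ≤ 1 := by
      refine (Ex_mono hp' (ψ := fun _ => 1) fun x _ => ind_le_one _).trans ?_
      rw [Ex_const hs]
    linarith
  have hres := seq_bound hp' hs hJ (fun _ => True)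
    (fun _ y => ∃ j ∈ Finset.range m, FB a w' n (u ^ 2) j y) hq0 hq1 (by
      intro v _
      have h1 : q ≤ Ex p (4 * t ^ 2)
        (fun x => ind (∃ j ∈ Finset.range m, FB a w' n (u ^ 2) j x)) := by linarith
      refine h1.trans (le_of_eq ?_)
      rfl) (fun x => ¬ BlkIn a w x) J (by
      intro x _ hbad
      refine ⟨fun k _ _ hsucc => ?_, by simp⟩
      apply hbad
      obtain ⟨j, _, hj⟩ := hsucc
      obtain ⟨pre, v, post, e1, e2⟩ := FB_block hnN hj
      refine ⟨x.take (k * (4 * t ^ 2)) ++ pre, v,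
        post ++ (x.drop (k * (4 * t ^ 2))).drop (4 * t ^ 2), ?_, ?_⟩
      · have e3 := List.take_append_drop (k * (4 * t ^ 2)) x
        have e4 := List.take_append_drop (4 * t ^ 2) (x.drop (k * (4 * t ^ 2)))
        rw [e1] at e4
        conv_lhs => rw [← e3, ← e4]
        simp
      · funext i
        rw [hww i, ← e2 i]
        rfl)
  exact hres

end Pool.Agent.Helper40_Random
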