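import Mathlib
import Pool.Agent.Helper40_Random.EventA2
import Pool.Agent.Helper40_Random.Chain2

/-!
# Nearly aligned letters in two words
-/

set_option autoImplicit false

namespace Pool.Agent.Helper40_Random

open Finset
open Pool.Agent.Helper94_Pisot

variable {d : ℕ}

/-- a block with a letter `a` at the right place -/
def SuccB (l : Fin d → ℝ) (a : Fin d) (η T' : ℝ) (y : List (Fin d)) : Prop :=
  ∃ c post, y = c ++ a :: post ∧ η ≤ T' - wt l c ∧ T' - wt l c ≤ 2 * η

theorem attempt {l α : Fin d → ℝ} (hα : ∀ i, 0 < α i) (hα1 : ∑ i, α i = 1) (hd : 2 ≤ d)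
    {p0 C1 : ℝ} (hp0 : 0 < p0) (hC1 : 1 ≤ C1) :
    ∃ c : ℝ, 0 < c ∧ ∃ v0 : ℕ, ∀ (p : Fin d → ℝ), (∀ i, p0 ≤ p i) → ∑ i, p i = 1 →
      ∀ (v : ℕ) (η : ℝ), v0 ≤ v → 0 < η → η ≤ 1 →
        (∀ T : ℝ, ∃ w : Fin d → ℤ, |lr l (re w) - T| ≤ η / 2 ∧ ‖qr l α (re w)‖ ≤ C1 * v) →
        (∀ i, |p i - α i| * (4 * (v : ℝ) ^ 2) ≤ 1) →
        ∀ (a : Fin d) (T' : ℝ), 2 * (v : ℝ) ^ 2 ≤ T' → T' ≤ 3 * (v : ℝ) ^ 2 →
          c / (v : ℝ) ^ (d - 1) ≤ Ex p (4 * v ^ 2) (fun y => ind (SuccB l a η T' y)) := by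
  obtain ⟨am, ham0, ham⟩ := exists_min_α hα
  set K2 : ℝ := (1 + d) * C1 + 3 with hK2
  have hK2' : 1 ≤ K2 := by
    have : 0 ≤ (1 + (d : ℝ)) * C1 := by positivity
    linarith
  obtain ⟨c5, hc5, t1, hnear⟩ := pm_near (d := d) hp0 hK2' (by omega)
  refine ⟨c5 * p0, by positivity, t1 + ⌈2 * (C1 + 1) / am⌉₊ + ⌈8 * d * C1⌉₊ + 4, ?_⟩
  intro p hp hs v η hv hη hη1 hcov hpα a T' hT1 hT2
  have hp' : ∀ i, 0 ≤ p i := fun i => hp0.le.trans (hp i)
  have hv4 : (4 : ℝ) ≤ v := by
    have : 4 ≤ v := by omega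
    exact_mod_cast this
  have hV1 : 2 * (C1 + 1) ≤ v * am := by
    have h1 := Nat.le_ceil (2 * (C1 + 1) / am)
    have h2 : (⌈2 * (C1 + 1) / am⌉₊ : ℝ) ≤ v := by
      have : ⌈2 * (C1 + 1) / am⌉₊ ≤ v := by omega
      exact_mod_cast this
    rw [← div_le_iff₀ ham0]
    linarith
  have hV2 : 8 * d * C1 ≤ v := by
    have h1 := Nat.le_ceil (8 * d * C1)
    have h2 : (⌈8 * d * C1⌉₊ : ℝ) ≤ v := by
      have : ⌈8 * d * C1⌉₊ ≤ v := by omega
      exact_mod_cast this
    linarith
  have hv16 : (16 : ℝ) ≤ (v : ℝ) ^ 2 := aux3 hv4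
  obtain ⟨w, hw1, hw2⟩ := hcov (T' - 3 / 2 * η)
  rw [abs_le] at hw1
  obtain ⟨w', hww, hw1', hwn, hwi⟩ := vec_data (l := l) (lo := (v : ℝ) ^ 2 / 2) hα hα1 ham
    (by linarith) (by positivity) hw2 (aux1 hv4 hV1)
  set n : ℕ := ∑ i, w' i with hn
  have hdK : d * (C1 * v) ≤ (v : ℝ) ^ 2 / 8 := aux2 hv4 hV2
  rw [abs_le] at hwn
  have hn1 : (v : ℝ) ^ 2 ≤ n := by linarith
  have hn2 : (n : ℝ) ≤ 25 * (v : ℝ) ^ 2 / 8 := by linarith
  have hnlt : n < 4 * v ^ 2 := by
    have : (n : ℝ) < ((4 * v ^ 2 : ℕ) : ℝ) := by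
      push_cast
      linarith
    exact_mod_cast this
  have hP1 : c5 / (v : ℝ) ^ (d - 1) ≤ pm p n w' := by
    apply hnear p hp hs n v (by omega) (by linarith) (by linarith) w' rfl
    intro i
    have e2 := hwi i
    have e3 : |(n : ℝ) * α i - n * p i| ≤ 1 := by
      rw [← mul_sub, abs_mul, abs_of_nonneg (Nat.cast_nonneg n), abs_sub_comm, mul_comm]
      refine le_trans ?_ (hpα i)
      refine mul_le_mul_of_nonneg_left ?_ (abs_nonneg _)
      linarith
    have e5 : (w' i : ℝ) - n * p i =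
        ((w' i : ℝ) - n * α i) + ((n : ℝ) * α i - n * p i) := by ring
    rw [e5]
    refine (abs_add_le _ _).trans ?_
    have e8 : (1 + (d : ℝ)) * (C1 * v) + 3 ≤ K2 * v := by
      rw [hK2, ← mul_assoc]
      exact aux4 hv4
    linarith
  have h1 : Ex p (4 * v ^ 2) (fun y => ind (∀ i, (y.take n).count i = w' i) *
      ind ((y.drop n).head? = some a)) = pm p n w' * p a := by
    rw [Ex_indep p (show 4 * v ^ 2 = n + (4 * v ^ 2 - n) by omega)
      (fun u => ind (∀ i, u.count i = w' i)) (fun u => ind (u.head? = some a)),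
      Ex_head hs (by omega), pm_eq_ind]
  have h2 : c5 * p0 / (v : ℝ) ^ (d - 1) ≤ pm p n w' * p a := by
    have e1 : c5 * p0 / (v : ℝ) ^ (d - 1) = c5 / (v : ℝ) ^ (d - 1) * p0 := by ring
    rw [e1]
    exact mul_le_mul hP1 (hp a) hp0.le (pm_nonneg hp' _ _)
  refine h2.trans ?_
  rw [← h1]
  refine Ex_mono hp' fun y _ => ?_
  rw [← ind_and]
  apply ind_mono
  rintro ⟨f1, f2⟩
  obtain ⟨post, hpost⟩ : ∃ post, y.drop n = a :: post := by
    cases hx : y.drop n with
    | nil => rw [hx] at f2; simp at f2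
    | cons b z =>
      rw [hx] at f2
      simp only [List.head?_cons, Option.some.injEq] at f2
      exact ⟨z, by rw [f2]⟩
  have hab : ab (y.take n) = w := by
    funext i
    rw [hww i, ← f1 i]
    rfl
  have hwt : wt l (y.take n) = lr l (re w) := by rw [wt_eq_lr, hab]
  refine ⟨y.take n, post, ?_, ?_, ?_⟩
  · rw [← hpost, List.take_append_drop]
  · rw [hwt]; linarith
  · rw [hwt]; linarith

/-! ### Gaps -/

/-- each block of length `g` contains `a` -/
def Gap (a : Fin d) (g : ℕ) (W : List (Fin d)) : Prop :=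
  ∀ pre mid post, W = pre ++ (mid ++ post) → mid.length = g → a ∈ mid

theorem Gap.of_append {a : Fin d} {g : ℕ} {u v : List (Fin d)} (h : Gap a g (u ++ v)) :
    Gap a g u := by
  intro pre mid post hu hm
  exact h pre mid (post ++ v) (by rw [hu]; simp) hm

theorem gap_valid {l : Fin d → ℝ} (hl : ∀ i, 0 < l i) {lM : ℝ} (hlM0 : 0 < lM)
    (hlM : ∀ i, l i ≤ lM) {W : List (Fin d)} {a : Fin d} {g : ℕ} (hgap : Gap a g W) {y0 : ℝ}
    (hy0 : 0 ≤ y0) (h : y0 + (g + 1) * lM ≤ wt l W) :
    ∃ pre post, W = pre ++ a :: post ∧ y0 ≤ wt l pre ∧ wt l pre ≤ y0 + (g + 1) * lM := by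
  have hg : (0 : ℝ) ≤ g * lM := by positivity
  obtain ⟨p0, g0, s0, e1, e2, e3⟩ := exists_tile (l := l) W y0 hy0 (by linarith)
  have h1 : wt l W = wt l p0 + l g0 + wt l s0 := by
    rw [e1, wt_append, wt_cons]
    ring
  have h2 := hlM g0
  have h3 := wt_le hlM s0
  have h4 : (g : ℝ) ≤ s0.length := by
    have : g * lM ≤ s0.length * lM := by linarith
    exact le_of_mul_le_mul_right this hlM0
  have h5 : g ≤ s0.length := by exact_mod_cast h4
  have h6 : a ∈ s0.take g := by
    apply hgap (p0 ++ [g0]) (s0.take g) (s0.drop g)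
    · rw [List.take_append_drop, e1]
      simp
    · rw [List.length_take]
      omega
  obtain ⟨m1, m2, hm⟩ := List.append_of_mem h6
  have h7 : m1.length ≤ g := by
    have e4 := congrArg List.length hm
    rw [List.length_take, List.length_append, List.length_cons] at e4
    omega
  have h8 : s0 = m1 ++ a :: (m2 ++ s0.drop g) := by
    have h9 := List.take_append_drop g s0
    rw [hm] at h9
    refine h9.symm.trans ?_
    simp
  refine ⟨p0 ++ g0 :: m1, m2 ++ s0.drop g, ?_, ?_, ?_⟩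
  · rw [e1]
    conv_lhs => rw [h8]
    simp
  · rw [wt_append, wt_cons]
    have := wt_nonneg hl m1
    linarith
  · rw [wt_append, wt_cons]
    have h9 := wt_le hlM m1
    have h10 : lM * (m1.length : ℝ) ≤ lM * g := by
      have : (m1.length : ℝ) ≤ g := by exact_mod_cast h7
      exact mul_le_mul_of_nonneg_left this hlM0.le
    linarith

/-- counting the valid blocks -/
theorem count_valid {l : Fin d → ℝ} (hl : ∀ i, 0 < l i) {lM : ℝ} (hlM0 : 0 < lM)
    (hlM : ∀ i, l i ≤ lM) {x : List (Fin d)} {b J m : ℕ} (hb : 1 ≤ b) (hJ : x.length < (J + 1) * b)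
    {xA xB : ℝ} (hxA : 0 ≤ xA) (h1 : xA + (m + 1) * (b * lM) ≤ xB) (h2 : xB + b * lM ≤ wt l x) :
    (open Classical in m ≤ ((Finset.range J).filter (fun k => xA ≤ wt l (x.take (k * b)) ∧
      wt l (x.take (k * b)) ≤ xB)).card) := by
  classical
  set f : ℕ → ℝ := fun k => wt l (x.take (k * b)) with hf
  have hδ : 0 < b * lM := by
    have : (0 : ℝ) < b := by exact_mod_cast hb
    positivity
  have hstep : ∀ k, f (k + 1) ≤ f k + b * lM := by
    intro k
    have e1 : x.take ((k + 1) * b) = x.take (k * b) ++ (x.drop (k * b)).take b := by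
      rw [Nat.succ_mul, List.take_add]
    simp only [hf]
    rw [e1, wt_append]
    have e2 := wt_le hlM ((x.drop (k * b)).take b)
    have e3 : (((x.drop (k * b)).take b).length : ℝ) ≤ b := by
      have : ((x.drop (k * b)).take b).length ≤ b := by rw [List.length_take]; omega
      exact_mod_cast this
    have e4 : lM * (((x.drop (k * b)).take b).length : ℝ) ≤ lM * b :=
      mul_le_mul_of_nonneg_left e3 hlM0.le
    linarith
  have hmono : ∀ k k', k ≤ k' → f k ≤ f k' := by
    intro k k' hk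
    obtain ⟨j, rfl⟩ := Nat.exists_eq_add_of_le hk
    have e1 : x.take ((k + j) * b) = x.take (k * b) ++ (x.drop (k * b)).take (j * b) := by
      rw [Nat.add_mul, List.take_add]
    simp only [hf]
    rw [e1, wt_append]
    have := wt_nonneg hl ((x.drop (k * b)).take (j * b))
    linarith
  have hfJ : wt l x - b * lM ≤ f J := by
    have e1 : wt l x = wt l (x.take (J * b)) + wt l (x.drop (J * b)) := by
      rw [← wt_append, List.take_append_drop]
    have e2 := wt_le hlM (x.drop (J * b))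
    have e3 : ((x.drop (J * b)).length : ℝ) ≤ b := by
      have : (x.drop (J * b)).length ≤ b := by
        rw [List.length_drop]
        have : (J + 1) * b = J * b + b := by ring
        omega
      exact_mod_cast this
    have e4 : lM * ((x.drop (J * b)).length : ℝ) ≤ lM * b :=
      mul_le_mul_of_nonneg_left e3 hlM0.le
    simp only [hf]
    linarith
  have hm0 : (0 : ℝ) ≤ m * (b * lM) := by positivity
  have hex : ∃ k, xA ≤ f k := ⟨J, by linarith⟩
  set k1 := Nat.find hex with hk1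
  have hk1s : xA ≤ f k1 := Nat.find_spec hex
  have hk1b : f k1 ≤ xA + b * lM := by
    rcases Nat.eq_zero_or_pos k1 with h0 | h0
    · rw [h0]
      simp only [hf, Nat.zero_mul, List.take_zero, wt_nil]
      linarith
    · have e1 : ¬ xA ≤ f (k1 - 1) := Nat.find_min hex (by omega)
      push Not at e1
      have e2 := hstep (k1 - 1)
      rw [Nat.sub_add_cancel h0] at e2
      linarith
  have hup : ∀ i : ℕ, f (k1 + i) ≤ xA + b * lM + i * (b * lM) := by
    intro i
    induction i with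
    | zero => simpa using hk1b
    | succ i ih =>
      have := hstep (k1 + i)
      rw [← Nat.add_assoc]
      push_cast
      linarith
  have hin : ∀ i ∈ Finset.range m, k1 + i ∈ (Finset.range J).filter
      (fun k => xA ≤ wt l (x.take (k * b)) ∧ wt l (x.take (k * b)) ≤ xB) := by
    intro i hi
    rw [Finset.mem_range] at hi
    have hi' : (i : ℝ) + 1 ≤ m := by exact_mod_cast hi
    have e1 : f (k1 + i) ≤ xA + m * (b * lM) := by
      have e2 := hup i
      have e3 : ((i : ℝ) + 1) * (b * lM) ≤ m * (b * lM) :=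
        mul_le_mul_of_nonneg_right hi' hδ.le
      linarith
    rw [Finset.mem_filter, Finset.mem_range]
    refine ⟨?_, hk1s.trans (hmono _ _ (by omega)), ?_⟩
    · by_contra hcon
      push Not at hcon
      have e4 := hmono J (k1 + i) hcon
      linarith
    · change f (k1 + i) ≤ xB
      linarith
  calc m = ((Finset.range m).image (fun i => k1 + i)).card := by
        rw [Finset.card_image_of_injective _ (fun a b h => by simpa using h), Finset.card_range]
    _ ≤ _ := by
        apply Finset.card_le_card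
        intro k hk
        rw [Finset.mem_image] at hk
        obtain ⟨i, hi, rfl⟩ := hk
        exact hin i hi

end Pool.Agent.Helper40_Random
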