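import Mathlib
import Pool.Agent.Helper40_Random.EventB

/-!
# The other events
-/

set_option autoImplicit false

namespace Pool.Agent.Helper40_Random

open Finset
open Pool.Agent.Helper94_Pisot

variable {d : ℕ}

/-! ### Gaps -/

theorem Ex_avoid {p : Fin d → ℝ} (hs : ∑ i, p i = 1) (a : Fin d) (g : ℕ) :
    Ex p g (fun y => ind (a ∉ y)) = (1 - p a) ^ g := by
  induction g with
  | zero =>
    rw [Ex_zero, pow_zero]
    exact ind_true (by simp)
  | succ g ih =>
    rw [Ex_succ]
    have h1 : ∀ i, p i * Ex p g (fun w => ind (a ∉ i :: w)) =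
        (p i - if i = a then p a else 0) * (1 - p a) ^ g := by
      intro i
      by_cases hi : i = a
      · subst hi
        rw [if_pos rfl, sub_self, zero_mul, Ex_congr p (ψ := fun _ => 0) fun w _ => ?_,
          Ex_zero_fun, mul_zero]
        exact ind_false (by simp)
      · rw [if_neg hi, sub_zero, ← ih]
        congr 1
        refine Ex_congr p fun w _ => ?_
        by_cases hw : a ∈ w
        · rw [ind_false (by simp [hw]), ind_false (by simp [hw])]
        · rw [ind_true (by simp [hw, Ne.symm hi]), ind_true hw]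
    rw [Finset.sum_congr rfl fun i _ => h1 i, ← Finset.sum_mul, Finset.sum_sub_distrib, hs]
    simp only [Finset.sum_ite_eq', Finset.mem_univ, if_true]
    ring

theorem eventGap {p : Fin d → ℝ} (hp : ∀ i, 0 ≤ p i) (hs : ∑ i, p i = 1) (a : Fin d)
    (g L : ℕ) : Ex p L (fun x => ind (¬ Gap a g x)) ≤ ((L : ℝ) + 1) * (1 - p a) ^ g := by
  have hpa : p a ≤ 1 := by
    rw [← hs]
    exact Finset.single_le_sum (f := p) (fun j _ => hp j) (Finset.mem_univ a)
  have h1 : ∀ x : List (Fin d), x.length = L → ind (¬ Gap a g x) ≤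
      ∑ s ∈ Finset.range (L + 1), ind (s + g ≤ L) * ind (a ∉ (x.drop s).take g) := by
    intro x hx
    by_cases hG : Gap a g x
    · rw [ind_false (by simpa using hG)]
      exact Finset.sum_nonneg fun s _ => mul_nonneg (ind_nonneg _) (ind_nonneg _)
    · rw [ind_true hG]
      simp only [Gap, not_forall] at hG
      obtain ⟨pre, mid, post, e1, e2, e3⟩ := hG
      have hlen : pre.length + g + post.length = L := by
        rw [← hx, e1, List.length_append, List.length_append, e2]
        omega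
      have hin : pre.length ∈ Finset.range (L + 1) := by
        rw [Finset.mem_range]
        omega
      have h2 := Finset.single_le_sum (f := fun s => ind (s + g ≤ L) *
        ind (a ∉ (x.drop s).take g)) (fun s _ => mul_nonneg (ind_nonneg _) (ind_nonneg _)) hin
      refine le_trans (le_of_eq ?_) h2
      have e4 : (x.drop pre.length).take g = mid := by
        rw [e1, List.drop_left' rfl, List.take_left' e2]
      rw [e4, ind_true (by omega), ind_true e3, mul_one]
  refine (Ex_mono hp h1).trans ?_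
  rw [Ex_sum]
  have h2 : ∀ s ∈ Finset.range (L + 1), Ex p L (fun x => ind (s + g ≤ L) *
      ind (a ∉ (x.drop s).take g)) ≤ (1 - p a) ^ g := by
    intro s _
    by_cases hsg : s + g ≤ L
    · rw [Ex_const_mul, ind_true hsg, one_mul,
        Ex_drop hs (show L = s + (L - s) by omega) (fun z => ind (a ∉ z.take g)),
        Ex_take hs (show g ≤ L - s by omega) (fun z => ind (a ∉ z)), Ex_avoid hs]
    · rw [Ex_const_mul, ind_false hsg, zero_mul]
      exact pow_nonneg (by linarith) _
  refine (Finset.sum_le_sum h2).trans ?_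
  rw [Finset.sum_const, Finset.card_range, nsmul_eq_mul]
  push_cast
  exact le_rfl

/-! ### Periods -/

theorem diverge_or (s W : List (Fin d)) (h : s.length ≤ W.length) :
    s <+: W ∨ ∃ u x y s' s'', W = u ++ x :: s' ∧ s = u ++ y :: s'' ∧ x ≠ y := by
  induction s generalizing W with
  | nil => exact Or.inl (List.nil_prefix)
  | cons y s ih =>
    cases W with
    | nil => simp at h
    | cons x W =>
      by_cases hxy : x = y
      · subst hxy
        rcases ih W (by simpa using h) with h1 | ⟨u, x', y', s', s'', e1, e2, e3⟩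
        · left
          exact (List.prefix_cons_inj x).2 h1
        · right
          exact ⟨x :: u, x', y', s', s'', by rw [e1]; rfl, by rw [e2]; rfl, e3⟩
      · right
        exact ⟨[], x, y, W, s, rfl, rfl, hxy⟩

theorem Ex_one (p : Fin d → ℝ) (φ : List (Fin d) → ℝ) : Ex p 1 φ = ∑ i, p i * φ [i] := rfl

theorem eventPer {p : Fin d → ℝ} (hp : ∀ i, 0 ≤ p i) (hs : ∑ i, p i = 1) {p0 : ℝ}
    (hp0 : 0 < p0) (hp1 : p0 < 1) (hpm : ∀ i, p i ≤ 1 - p0) {m L : ℕ} (hm : 1 ≤ m) :
    Ex p L (fun x => ind (x.drop m <+: x)) ≤ (1 - p0) ^ (L - m) := by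
  classical
  have h := seq_bound hp hs (b := 1) (J := L) (N := L) (by omega) (fun u => m ≤ u.length)
    (fun u y => y.head? ≠ u[u.length - m]?) hp0 hp1 (by
      intro u _
      rw [Ex_one]
      cases ho : u[u.length - m]? with
      | none =>
        calc p0 ≤ 1 := hp1.le
          _ = ∑ i, p i := hs.symm
          _ ≤ _ := Finset.sum_le_sum fun i _ => by simp
      | some c =>
        have e1 : ∑ i, (p i - if i = c then p c else 0) = 1 - p c := by
          rw [Finset.sum_sub_distrib, hs]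
          simp only [Finset.sum_ite_eq', Finset.mem_univ, if_true]
        calc p0 ≤ 1 - p c := by
              have := hpm c
              linarith
          _ = ∑ i, (p i - if i = c then p c else 0) := e1.symm
          _ ≤ _ := Finset.sum_le_sum fun i _ => by
              by_cases hi : i = c
              · subst hi
                simp
              · simp [hi]) (fun x => x.drop m <+: x) (L - m) (by
      intro x hx hbad
      obtain ⟨t, ht⟩ := hbad
      constructor
      · intro k hk hv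
        rw [not_not, Nat.mul_one]
        rw [Nat.mul_one, List.length_take] at hv
        have hmk : m ≤ k := by omega
        have e1 : (x.drop k).head? = x[k]? := by
          rw [List.head?_drop]
        have e2 : ((x.drop k).take 1).head? = (x.drop k).head? := by
          cases x.drop k <;> simp
        rw [e2, e1, List.length_take]
        have e3 : min k x.length - m = k - m := by omega
        rw [e3, List.getElem?_take_of_lt (by omega)]
        have e4 : x[k - m]? = (x.drop m ++ t)[k - m]? := by rw [ht]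
        rw [e4, List.getElem?_append_left (by rw [List.length_drop]; omega), List.getElem?_drop]
        congr 1
        omega
      · have e5 : Finset.Ico m L ⊆ (Finset.range L).filter (fun k => m ≤ (x.take (k * 1)).length) := by
          intro k hk
          rw [Finset.mem_Ico] at hk
          rw [Finset.mem_filter, Finset.mem_range, Nat.mul_one, List.length_take]
          omega
        have e6 := Finset.card_le_card e5
        rw [Nat.card_Ico] at e6
        convert e6)
  refine le_trans (le_of_eq ?_) h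
  refine Ex_congr p fun x _ => ?_
  unfold ind
  rfl

theorem eventC {p : Fin d → ℝ} (hp : ∀ i, 0 ≤ p i) (hs : ∑ i, p i = 1) {p0 : ℝ}
    (hp0 : 0 < p0) (hp1 : p0 < 1) (hpm : ∀ i, p i ≤ 1 - p0) {P L : ℕ} (hPL : P ≤ L) {P' : ℝ}
    (hP' : P' < (P : ℝ) + 1) :
    Ex p L (fun x => ind (¬ EvC x P')) ≤ P * (1 - p0) ^ (L - P) := by
  have h1 : ∀ x : List (Fin d), x.length = L → ind (¬ EvC x P') ≤
      ∑ m ∈ Finset.Icc 1 P, ind (x.drop m <+: x) := by
    intro x hx
    by_cases hE : EvC x P'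
    · rw [ind_false (by simpa using hE)]
      exact Finset.sum_nonneg fun s _ => ind_nonneg _
    · rw [ind_true hE]
      simp only [EvC, not_forall] at hE
      obtain ⟨pre, s, e1, e2, e3, e4⟩ := hE
      have hle : pre.length ≤ P := by
        have : (pre.length : ℝ) < (P : ℝ) + 1 := lt_of_le_of_lt e3 hP'
        have : pre.length < P + 1 := by exact_mod_cast this
        omega
      have h2 := Finset.single_le_sum (f := fun m => ind (x.drop m <+: x))
        (fun s _ => ind_nonneg _) (Finset.mem_Icc.2 ⟨e2, hle⟩)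
      refine le_trans (le_of_eq ?_) h2
      rw [ind_true]
      have e5 : x.drop pre.length = s := by
        rw [e1]
        exact List.drop_left' rfl
      rw [e5]
      rcases diverge_or s x (by rw [e1]; simp) with h3 | h3
      · exact h3
      · exact absurd h3 e4
  refine (Ex_mono hp h1).trans ?_
  rw [Ex_sum]
  have h2 : ∀ m ∈ Finset.Icc 1 P, Ex p L (fun x => ind (x.drop m <+: x)) ≤
      (1 - p0) ^ (L - P) := by
    intro m hm
    rw [Finset.mem_Icc] at hm
    refine (eventPer hp hs hp0 hp1 hpm hm.1).trans ?_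
    exact pow_le_pow_of_le_one (by linarith) (by linarith) (by omega)
  refine (Finset.sum_le_sum h2).trans ?_
  rw [Finset.sum_const, Nat.card_Icc, nsmul_eq_mul]
  simp

/-! ### The second event -/

theorem eventB0 {l : Fin d → ℝ} {p : Fin d → ℝ} (hp : ∀ i, 0 ≤ p i) (hs : ∑ i, p i = 1)
    {a : Fin d} {v : ℕ} {η q : ℝ} (hq0 : 0 < q) (hq1 : q < 1)
    (hatt : ∀ T' : ℝ, 2 * (v : ℝ) ^ 2 ≤ T' → T' ≤ 3 * (v : ℝ) ^ 2 →
      q ≤ Ex p (4 * v ^ 2) (fun y => ind (SuccB l a η T' y)))
    (R : List (Fin d) → List (Fin d)) (T : ℝ) {L J : ℕ} (hJ : J * (4 * v ^ 2) ≤ L) (m : ℕ)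
    (bad : List (Fin d) → Prop)
    (hbad1 : ∀ x, bad x → ∀ u y s pre' post', x = u ++ (y ++ s) → R u = pre' ++ a :: post' →
      ¬ SuccB l a η (T + wt l pre' - wt l u) y)
    {xA xB : ℝ}
    (hbad2 : ∀ x, x.length = L → bad x → ∀ u s, x = u ++ s → xA ≤ wt l u → wt l u ≤ xB →
      ∃ pre' post', R u = pre' ++ a :: post' ∧ 2 * (v : ℝ) ^ 2 ≤ T + wt l pre' - wt l u ∧
        T + wt l pre' - wt l u ≤ 3 * (v : ℝ) ^ 2)
    (hbad3 : ∀ x, x.length = L → bad x → (open Classical in m ≤ ((Finset.range J).filter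
      (fun k => xA ≤ wt l (x.take (k * (4 * v ^ 2))) ∧
      wt l (x.take (k * (4 * v ^ 2))) ≤ xB)).card)) :
    Ex p L (fun x => ind (bad x)) ≤ (1 - q) ^ m := by
  classical
  have h := seq_bound hp hs hJ
    (fun u => ∃ pre' post', R u = pre' ++ a :: post' ∧ 2 * (v : ℝ) ^ 2 ≤ T + wt l pre' - wt l u ∧
        T + wt l pre' - wt l u ≤ 3 * (v : ℝ) ^ 2)
    (fun u y => ∃ pre' post', R u = pre' ++ a :: post' ∧ SuccB l a η (T + wt l pre' - wt l u) y)
    hq0 hq1 (by
      rintro u ⟨pre', post', e1, e2, e3⟩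
      refine (hatt _ e2 e3).trans (Ex_mono hp fun y _ => ?_)
      refine (ind_mono (Q := ∃ pre' post', R u = pre' ++ a :: post' ∧
        SuccB l a η (T + wt l pre' - wt l u) y) fun h => ⟨pre', post', e1, h⟩).trans (le_of_eq ?_)
      rfl) bad m (by
      intro x hx hb
      constructor
      · rintro k hk - ⟨pre', post', e1, e2⟩
        refine hbad1 x hb (x.take (k * (4 * v ^ 2))) ((x.drop (k * (4 * v ^ 2))).take (4 * v ^ 2))
          ((x.drop (k * (4 * v ^ 2))).drop (4 * v ^ 2)) pre' post' ?_ e1 e2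
        rw [List.take_append_drop, List.take_append_drop]
      · refine (hbad3 x hx hb).trans ?_
        apply Finset.card_le_card
        intro k hk
        rw [Finset.mem_filter] at hk ⊢
        refine ⟨hk.1, ?_⟩
        exact hbad2 x hx hb (x.take (k * (4 * v ^ 2))) (x.drop (k * (4 * v ^ 2)))
          (List.take_append_drop _ _).symm hk.2.1 hk.2.2)
  refine le_trans (le_of_eq ?_) h
  refine Ex_congr p fun x _ => ?_
  unfold ind
  rfl

/-- The second event for two different words; the second one is fixed. -/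
theorem eventB1 {l : Fin d → ℝ} (hl : ∀ i, 0 < l i) {lM : ℝ} (hlM0 : 0 < lM)
    (hlM : ∀ i, l i ≤ lM) {p : Fin d → ℝ} (hp : ∀ i, 0 ≤ p i) (hs : ∑ i, p i = 1)
    {a : Fin d} {v g : ℕ} (hv : 1 ≤ v) (hg : ((g : ℝ) + 1) * lM ≤ (v : ℝ) ^ 2)
    {η q : ℝ} (hq0 : 0 < q) (hq1 : q < 1)
    (hatt : ∀ T' : ℝ, 2 * (v : ℝ) ^ 2 ≤ T' → T' ≤ 3 * (v : ℝ) ^ 2 →
      q ≤ Ex p (4 * v ^ 2) (fun y => ind (SuccB l a η T' y)))
    (W' : List (Fin d)) (hW' : Gap a g W') (T X1 : ℝ) {L m : ℕ}
    (hm : max 0 T + (m + 1) * ((4 * (v : ℝ) ^ 2) * lM) ≤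
      min (X1 - (4 * (v : ℝ) ^ 2) * lM) (T + wt l W' - 3 * (v : ℝ) ^ 2)) :
    Ex p L (fun x => ind (wt l x = X1 ∧ ¬ EvB l x W' a η T)) ≤ (1 - q) ^ m := by
  have hb : 1 ≤ 4 * v ^ 2 := by
    have : 1 ≤ v ^ 2 := Nat.one_le_pow _ _ hv
    omega
  refine eventB0 (l := l) (a := a) (J := L / (4 * v ^ 2)) (xA := max 0 T)
    (xB := min (X1 - (4 * (v : ℝ) ^ 2) * lM) (T + wt l W' - 3 * (v : ℝ) ^ 2))
    hp hs hq0 hq1 hatt (fun _ => W') T
    (Nat.div_mul_le_self _ _) m
    (fun x => wt l x = X1 ∧ ¬ EvB l x W' a η T) ?_ ?_ ?_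
  · rintro x ⟨_, hx⟩ u y s pre' post' e1 e2 ⟨c, post, f1, f2, f3⟩
    apply hx
    refine ⟨u ++ c, post ++ s, pre', post', ?_, e2, ?_, ?_⟩
    · rw [e1, f1]; simp
    · rw [wt_append]; linarith
    · rw [wt_append]; linarith
  · intro x _ _ u s _ h1 h2
    have h3 := (le_min_iff.1 h2).2
    have h4 := (max_le_iff.1 h1)
    obtain ⟨pre', post', e1, e2, e3⟩ := gap_valid hl hlM0 hlM hW'
      (y0 := wt l u + 2 * (v : ℝ) ^ 2 - T) (by
        have : (0 : ℝ) ≤ (v : ℝ) ^ 2 := by positivity
        linarith [h4.2]) (by linarith)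
    exact ⟨pre', post', e1, by linarith, by linarith⟩
  · rintro x hx ⟨hx1, _⟩
    apply count_valid hl hlM0 hlM hb (by
      rw [hx]
      have := Nat.div_add_mod L (4 * v ^ 2)
      have := Nat.mod_lt L (show 0 < 4 * v ^ 2 by omega)
      have e : (L / (4 * v ^ 2) + 1) * (4 * v ^ 2) = 4 * v ^ 2 * (L / (4 * v ^ 2)) + 4 * v ^ 2 := by
        ring
      omega) (le_max_left _ _)
    · push_cast
      exact hm
    · rw [hx1]
      have := min_le_left (X1 - (4 * (v : ℝ) ^ 2) * lM) (T + wt l W' - 3 * (v : ℝ) ^ 2)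
      push_cast
      linarith

/-- The second event for one word and its shift. -/
theorem eventB2 {l : Fin d → ℝ} (hl : ∀ i, 0 < l i) {lM : ℝ} (hlM0 : 0 < lM)
    (hlM : ∀ i, l i ≤ lM) {p : Fin d → ℝ} (hp : ∀ i, 0 ≤ p i) (hs : ∑ i, p i = 1)
    {a : Fin d} {v g : ℕ} (hv : 1 ≤ v) (hg : ((g : ℝ) + 1) * lM ≤ (v : ℝ) ^ 2)
    {η q : ℝ} (hq0 : 0 < q) (hq1 : q < 1)
    (hatt : ∀ T' : ℝ, 2 * (v : ℝ) ^ 2 ≤ T' → T' ≤ 3 * (v : ℝ) ^ 2 →
      q ≤ Ex p (4 * v ^ 2) (fun y => ind (SuccB l a η T' y)))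
    (T X1 : ℝ) (hT : 3 * (v : ℝ) ^ 2 ≤ T) {L m : ℕ}
    (hm : T + (m + 1) * ((4 * (v : ℝ) ^ 2) * lM) ≤ X1 - (4 * (v : ℝ) ^ 2) * lM) :
    Ex p L (fun x => ind (wt l x = X1 ∧ Gap a g x ∧ ¬ EvB l x x a η T)) ≤ (1 - q) ^ m := by
  have hb : 1 ≤ 4 * v ^ 2 := by
    have : 1 ≤ v ^ 2 := Nat.one_le_pow _ _ hv
    omega
  have hT0 : 0 ≤ T := by
    have : (0 : ℝ) ≤ (v : ℝ) ^ 2 := by positivity
    linarith
  refine eventB0 (l := l) (a := a) (J := L / (4 * v ^ 2)) (xA := T)
    (xB := X1 - (4 * (v : ℝ) ^ 2) * lM) hp hs hq0 hq1 hatt (fun u => u) T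
    (Nat.div_mul_le_self _ _) m
    (fun x => wt l x = X1 ∧ Gap a g x ∧ ¬ EvB l x x a η T) ?_ ?_ ?_
  · rintro x ⟨_, _, hx⟩ u y s pre' post' e1 e2 ⟨c, post, f1, f2, f3⟩
    apply hx
    refine ⟨u ++ c, post ++ s, pre', post' ++ (y ++ s), ?_, ?_, ?_, ?_⟩
    · rw [e1, f1]; simp
    · have e3 : u = pre' ++ a :: post' := e2
      rw [e1, e3]; simp
    · rw [wt_append]; linarith
    · rw [wt_append]; linarith
  · rintro x _ ⟨_, hG, _⟩ u s e0 h1 h2
    have hGu : Gap a g u := by
      apply Gap.of_append (v := s)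
      rw [← e0]
      exact hG
    obtain ⟨pre', post', e1, e2, e3⟩ := gap_valid hl hlM0 hlM hGu
      (y0 := wt l u + 2 * (v : ℝ) ^ 2 - T) (by
        have : (0 : ℝ) ≤ (v : ℝ) ^ 2 := by positivity
        linarith) (by linarith)
    exact ⟨pre', post', e1, by linarith, by linarith⟩
  · rintro x hx ⟨hx1, _, _⟩
    apply count_valid hl hlM0 hlM hb (by
      rw [hx]
      have := Nat.div_add_mod L (4 * v ^ 2)
      have := Nat.mod_lt L (show 0 < 4 * v ^ 2 by omega)
      have e : (L / (4 * v ^ 2) + 1) * (4 * v ^ 2) = 4 * v ^ 2 * (L / (4 * v ^ 2)) + 4 * v ^ 2 := by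
        ring
      omega) hT0
    · push_cast
      exact hm
    · rw [hx1]
      push_cast
      linarith

end Pool.Agent.Helper40_Random
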