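import Mathlib
import Pool.Agent.Helper40_Random.EventC

/-!
# Counting substitutions
-/

set_option autoImplicit false

namespace Pool.Agent.Helper40_Random

open Finset Matrix
open Pool.Agent.Helper94_Pisot

open Classical in
/-- the number of elements of a finite set with a property, as a real number -/
noncomputable def cf {β : Type*} (Ω : Finset β) (P : β → Prop) : ℝ := ((Ω.filter P).card : ℝ)

theorem cf_nonneg {β : Type*} (Ω : Finset β) (P : β → Prop) : 0 ≤ cf Ω P := Nat.cast_nonneg _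

theorem cf_mono {β : Type*} {Ω : Finset β} {P Q : β → Prop} (h : ∀ x ∈ Ω, P x → Q x) :
    cf Ω P ≤ cf Ω Q := by
  classical
  unfold cf
  have : (Ω.filter P).card ≤ (Ω.filter Q).card := by
    apply Finset.card_le_card
    intro x hx
    rw [Finset.mem_filter] at hx ⊢
    exact ⟨hx.1, h x hx.1 hx.2⟩
  exact_mod_cast this

theorem cf_false {β : Type*} {Ω : Finset β} {P : β → Prop} (h : ∀ x ∈ Ω, ¬ P x) :
    cf Ω P = 0 := by
  classical
  unfold cf
  rw [Finset.filter_false_of_mem h]
  simp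

theorem cf_or {β : Type*} (Ω : Finset β) (P Q : β → Prop) :
    cf Ω (fun x => P x ∨ Q x) ≤ cf Ω P + cf Ω Q := by
  classical
  unfold cf
  have h1 : (Ω.filter (fun x => P x ∨ Q x)).card ≤ (Ω.filter P ∪ Ω.filter Q).card := by
    apply Finset.card_le_card
    intro x hx
    rw [Finset.mem_filter] at hx
    rw [Finset.mem_union, Finset.mem_filter, Finset.mem_filter]
    rcases hx.2 with h | h
    · exact Or.inl ⟨hx.1, h⟩
    · exact Or.inr ⟨hx.1, h⟩
  have h2 := h1.trans (Finset.card_union_le _ _)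
  have h3 : ((Ω.filter (fun x => P x ∨ Q x)).card : ℝ) ≤
      ((Ω.filter P).card : ℝ) + ((Ω.filter Q).card : ℝ) := by exact_mod_cast h2
  convert h3

theorem cf_exists {β γ : Type*} (Ω : Finset β) (S : Finset γ) (B : γ → β → Prop) {e : ℝ}
    (h : ∀ s ∈ S, cf Ω (B s) ≤ e) : cf Ω (fun τ => ∃ s ∈ S, B s τ) ≤ S.card * e := by
  classical
  induction S using Finset.induction_on with
  | empty =>
    rw [cf_false (by simp)]
    simp
  | insert a S ha ih =>
    have h1 : cf Ω (fun τ => ∃ s ∈ insert a S, B s τ) ≤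
        cf Ω (fun τ => B a τ ∨ ∃ s ∈ S, B s τ) := by
      apply cf_mono
      rintro x _ ⟨s, hs, hB⟩
      rw [Finset.mem_insert] at hs
      rcases hs with rfl | hs
      · exact Or.inl hB
      · exact Or.inr ⟨s, hs, hB⟩
    have h2 := cf_or Ω (B a) (fun τ => ∃ s ∈ S, B s τ)
    have h3 := ih fun s hs => h s (Finset.mem_insert_of_mem hs)
    have h4 := h a (Finset.mem_insert_self a S)
    rw [Finset.card_insert_of_notMem ha]
    push_cast
    linarith

/-- Resampling one coordinate. -/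
theorem resample {ι β : Type*} [Fintype ι] [DecidableEq ι] (A : ι → Finset β)
    (Bad : (ι → β) → Prop) (i : ι) {ε : ℝ}
    (h : ∀ τ ∈ Fintype.piFinset A,
      cf (A i) (fun w => Bad (Function.update τ i w)) ≤ ε * (A i).card) :
    cf (Fintype.piFinset A) Bad ≤ ε * (Fintype.piFinset A).card := by
  classical
  unfold cf at h ⊢
  rcases (A i).eq_empty_or_nonempty with h0 | h0
  · have h1 : Fintype.piFinset A = ∅ := by
      rw [Fintype.piFinset_eq_empty]
      exact ⟨i, h0⟩
    rw [h1]
    simp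
  have hpos : (0 : ℝ) < (A i).card := by exact_mod_cast Finset.card_pos.2 h0
  set S : Finset ((ι → β) × β) := (Fintype.piFinset A ×ˢ A i).filter
    (fun q => Bad (Function.update q.1 i q.2)) with hS
  have h1 : (((Fintype.piFinset A).filter Bad) ×ˢ (A i)).card ≤ S.card := by
    apply Finset.card_le_card_of_injOn (fun q => (Function.update q.1 i q.2, q.1 i))
    · intro q hq
      rw [Finset.mem_coe, Finset.mem_product, Finset.mem_filter] at hq
      rw [Finset.mem_coe, hS, Finset.mem_filter, Finset.mem_product]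
      refine ⟨⟨?_, ?_⟩, ?_⟩
      · rw [Fintype.mem_piFinset]
        intro j
        by_cases hj : j = i
        · subst hj
          simpa using hq.2
        · simp only [Function.update_of_ne hj]
          exact (Fintype.mem_piFinset.1 hq.1.1) j
      · exact (Fintype.mem_piFinset.1 hq.1.1) i
      · simp only [Function.update_idem, Function.update_eq_self]
        exact hq.1.2
    · intro q _ q' _ hqq
      simp only [Prod.mk.injEq] at hqq
      have e1 : q.2 = q'.2 := by
        have := congrFun hqq.1 i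
        simpa using this
      have e2 : q.1 = q'.1 := by
        funext j
        by_cases hj : j = i
        · rw [hj]; exact hqq.2
        · have := congrFun hqq.1 j
          simpa [Function.update_of_ne hj] using this
      exact Prod.ext e2 e1
  have h2 : (S.card : ℝ) ≤ ε * (A i).card * (Fintype.piFinset A).card := by
    have e1 : S.card = ∑ τ ∈ Fintype.piFinset A,
        ((A i).filter (fun w => Bad (Function.update τ i w))).card := by
      rw [hS, Finset.card_filter, Finset.sum_product]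
      refine Finset.sum_congr rfl fun τ _ => ?_
      rw [Finset.card_filter]
    rw [e1]
    push_cast
    refine (Finset.sum_le_sum h).trans ?_
    rw [Finset.sum_const, nsmul_eq_mul]
    apply le_of_eq
    ring
  rw [Finset.card_product] at h1
  have h3 : (((Fintype.piFinset A).filter Bad).card : ℝ) * (A i).card ≤
      ε * (A i).card * (Fintype.piFinset A).card := by
    refine le_trans ?_ h2
    exact_mod_cast h1
  have h4 : (((Fintype.piFinset A).filter Bad).card : ℝ) * (A i).card ≤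
      (ε * (Fintype.piFinset A).card) * (A i).card := by
    refine h3.trans (le_of_eq ?_)
    ring
  exact le_of_mul_le_mul_right h4 hpos

variable {d : ℕ}

/-- integer vectors with entries at most `B` in modulus -/
noncomputable def BoxI (d B : ℕ) : Finset (Fin d → ℤ) :=
  Fintype.piFinset (fun _ => Finset.Icc (-(B : ℤ)) B)

theorem card_BoxI (d B : ℕ) : (BoxI d B).card = (2 * B + 1) ^ d := by
  rw [BoxI, Fintype.card_piFinset]
  simp only [Int.card_Icc, Finset.prod_const, Finset.card_univ, Fintype.card_fin]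
  congr 1
  omega

theorem mem_BoxI {B : ℕ} {v : Fin d → ℤ} (h : ∀ i, |(v i : ℝ)| ≤ B) : v ∈ BoxI d B := by
  rw [BoxI, Fintype.mem_piFinset]
  intro i
  have h1 := h i
  have h2 : |v i| ≤ (B : ℤ) := by exact_mod_cast h1
  rw [Finset.mem_Icc]
  exact abs_le.1 h2

/-- the contents of the columns -/
def col (M : Matrix (Fin d) (Fin d) ℤ) (N : ℕ) (j : Fin d) : Fin d → ℕ :=
  fun i => ((M ^ N) i j).toNat

/-- the substitutions with incidence matrix `M ^ N` -/
def Om (M : Matrix (Fin d) (Fin d) ℤ) (N : ℕ) : Finset (Fin d → List (Fin d)) :=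
  Fintype.piFinset (fun j => arr (col M N j))

theorem sub_of_mem {M : Matrix (Fin d) (Fin d) ℤ} {N : ℕ} (hd : 0 < d)
    (hpos : ∀ i j, 0 < (M ^ N) i j)
    {τ : Fin d → List (Fin d)} (hτ : τ ∈ Om M N) : Sub τ (M ^ N) := by
  have h1 : ∀ i j, (M ^ N) i j = ((τ j).count i : ℤ) := by
    intro i j
    have h2 := mem_arr.1 ((Fintype.mem_piFinset.1 hτ) j) i
    rw [h2, col, Int.toNat_of_nonneg (hpos i j).le]
  refine ⟨fun j hj => ?_, h1⟩
  have h3 := h1 ⟨0, hd⟩ j
  rw [hj] at h3
  have := hpos ⟨0, hd⟩ j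
  simp at h3
  omega

theorem mem_Om {M : Matrix (Fin d) (Fin d) ℤ} {N : ℕ} (hpos : ∀ i j, 0 < (M ^ N) i j)
    {τ : Fin d → List (Fin d)} : τ ∈ Om M N ↔ ∀ i j, (M ^ N) i j = ((τ j).count i : ℤ) := by
  rw [Om, Fintype.mem_piFinset]
  constructor
  · intro h i j
    rw [mem_arr.1 (h j) i, col, Int.toNat_of_nonneg (hpos i j).le]
  · intro h j
    rw [mem_arr]
    intro i
    rw [col, h i j]
    simp

section

variable {M : Matrix (Fin d) (Fin d) ℤ} {r : ℝ} {α l : Fin d → ℝ} {C ρ : ℝ} {N : ℕ} {lm lM : ℝ}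
  {k1 : ℕ}

/-- the indices of the first event -/
def IA (l α : Fin d → ℝ) (X R1 : ℝ) (w : Fin d → ℤ) : Prop :=
  X / 2 ≤ lr l (re w) ∧ lr l (re w) ≤ 2 * X ∧ ‖qr l α (re w)‖ ≤ 3 * R1

/-- the indices of the second event -/
def IB (l : Fin d → ℝ) (δ B0 Λ : ℝ) (q : (Fin d × Fin d) × (Fin d → ℤ)) : Prop :=
  Ov l δ q.1.1 q.1.2 q.2 ∧ (q.1.1 ≠ q.1.2 ∨ B0 ≤ Λ * lr l (re q.2))

/-- the bad events cover the exceptional substitutions -/
theorem bad_cover (H : Lev M r α l C ρ N lm lM k1) (hpos : ∀ i j, 0 < (M ^ N) i j)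
    {a : Fin d} {η R1 B0 : ℝ} {k2 g : ℕ} (hη : 0 < η) (hR1 : 0 ≤ R1)
    (hcov : ∀ T : ℝ, ∃ w : Fin d → ℤ, |lr l (re w) - T| ≤ η / 2 ∧ ‖qr l α (re w)‖ ≤ R1)
    (hk2 : (C * ρ ^ N) ^ k2 * (8 * (1 + lM) * (lM / lm) * r ^ N) ≤ R1)
    (hB0 : 0 < B0) (hbig1 : 2 * B0 < r ^ N * lm) (hbig2 : B0 + lM ≤ r ^ N * lm)
    {BW BD : ℕ} (hBW : 2 * (r ^ N * η) + 3 * R1 ≤ BW)
    (hBD : lM + 8 * (1 + lM) * (lM / lm) * r ^ N ≤ BD)
    {τ : Fin d → List (Fin d)} (hτ1 : τ ∈ Om M N) (hτ2 : ¬ SwapSmall τ (r ^ N)) :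
    (((∃ w ∈ BoxI d BW, IA l α (r ^ N * η) R1 w ∧ ¬ BlkIn a w (τ a)) ∨
      (∃ j ∈ (Finset.univ : Finset (Fin d)), ¬ Gap a g (τ j))) ∨
      (∃ j ∈ (Finset.univ : Finset (Fin d)), ¬ EvC (τ j) ((B0 + lM) / lm))) ∨
      (∃ q ∈ (Finset.univ : Finset (Fin d × Fin d)) ×ˢ (BoxI d BD), IB l (lm / 2) B0 (r ^ N) q ∧
        Gap a g (τ q.1.2) ∧ ¬ EvB l (τ q.1.1) (τ q.1.2) a η (r ^ N * lr l (re q.2))) := by
  have hd : 0 < d := by have := H.S.two_le; omega
  by_contra hcon
  apply hτ2
  simp only [not_or] at hcon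
  obtain ⟨⟨⟨m1, m2⟩, m3⟩, m4⟩ := hcon
  push Not at m1 m2 m3 m4
  have hsubτ := sub_of_mem hd hpos hτ1
  apply swapSmall_of_events H hsubτ (a := a) (k2 := k2) hη (hA := ?_) hR1 hcov hk2 (hB := ?_) hB0
    (fun i => m3 i (Finset.mem_univ i)) hbig1 hbig2
  · intro w h1 h2 h3
    refine m1 w ?_ ⟨h1, h2, h3⟩
    apply mem_BoxI
    intro i
    have e1 : (w i : ℝ) = lr l (re w) * α i + qr l α (re w) i := by
      simp only [qr, re]
      ring
    have e2 : |qr l α (re w) i| ≤ 3 * R1 := by
      rw [← Real.norm_eq_abs]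
      exact (norm_le_pi_norm _ i).trans h3
    have e3 := H.S.α_pos i
    have e4 := H.S.α_le_one i
    have hΛη : 0 < r ^ N * η := mul_pos (by linarith [H.Λ_gt]) hη
    rw [e1]
    refine (abs_add_le _ _).trans ?_
    have e5 : |lr l (re w) * α i| ≤ 2 * (r ^ N * η) := by
      rw [abs_mul, abs_of_pos e3, abs_of_nonneg (by linarith)]
      calc lr l (re w) * α i ≤ lr l (re w) * 1 :=
            mul_le_mul_of_nonneg_left e4 (by linarith)
        _ ≤ _ := by rw [mul_one]; exact h2
    linarith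
  · intro i j D hD hov hg
    refine m4 ((i, j), D) ?_ ⟨hov, hg⟩ (m2 j (Finset.mem_univ j))
    rw [Finset.mem_product]
    refine ⟨Finset.mem_univ _, ?_⟩
    apply mem_BoxI
    intro s
    have e1 : (D s : ℝ) = lr l (re D) * α s + qr l α (re D) s := by
      simp only [qr, re]
      ring
    rw [Box] at hD
    have e2 : |qr l α (re D) s| ≤ 8 * (1 + lM) * (lM / lm) * r ^ N := by
      rw [← Real.norm_eq_abs]
      exact (norm_le_pi_norm _ s).trans hD
    have e3 := H.S.α_pos s
    have e4 := H.S.α_le_one s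
    have hlm := H.lm_pos
    rw [e1]
    refine (abs_add_le _ _).trans ?_
    have e6 : |lr l (re D)| ≤ lM := by
      rw [abs_le]
      obtain ⟨o1, o2⟩ := hov
      have := H.le_lM i
      have := H.le_lM j
      constructor <;> linarith
    have e5 : |lr l (re D) * α s| ≤ lM := by
      rw [abs_mul, abs_of_pos e3]
      calc |lr l (re D)| * α s ≤ |lr l (re D)| * 1 :=
            mul_le_mul_of_nonneg_left e4 (abs_nonneg _)
        _ ≤ _ := by rw [mul_one]; exact e6
    linarith

/-- The proportion of exceptional substitutions, from the estimates for single words. -/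
theorem level_bound (H : Lev M r α l C ρ N lm lM k1) (hpos : ∀ i j, 0 < (M ^ N) i j)
    {a : Fin d} {η R1 B0 : ℝ} {k2 g : ℕ} (hη : 0 < η) (hR1 : 0 ≤ R1)
    (hcov : ∀ T : ℝ, ∃ w : Fin d → ℤ, |lr l (re w) - T| ≤ η / 2 ∧ ‖qr l α (re w)‖ ≤ R1)
    (hk2 : (C * ρ ^ N) ^ k2 * (8 * (1 + lM) * (lM / lm) * r ^ N) ≤ R1)
    (hB0 : 0 < B0) (hbig1 : 2 * B0 < r ^ N * lm) (hbig2 : B0 + lM ≤ r ^ N * lm)
    {BW BD : ℕ} (hBW : 2 * (r ^ N * η) + 3 * R1 ≤ BW)
    (hBD : lM + 8 * (1 + lM) * (lM / lm) * r ^ N ≤ BD) {eA eB eC eG : ℝ}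
    (hA : ∀ w : Fin d → ℤ, IA l α (r ^ N * η) R1 w →
      cf (arr (col M N a)) (fun x => ¬ BlkIn a w x) ≤ eA * (arr (col M N a)).card)
    (hA0 : 0 ≤ eA)
    (hG : ∀ j, cf (arr (col M N j)) (fun x => ¬ Gap a g x) ≤ eG * (arr (col M N j)).card)
    (hC : ∀ j, cf (arr (col M N j)) (fun x => ¬ EvC x ((B0 + lM) / lm)) ≤
        eC * (arr (col M N j)).card)
    (heB : 0 ≤ eB)
    (hB1 : ∀ i j (T : ℝ), lm / 2 * r ^ N ≤ r ^ N * l i - T → lm / 2 * r ^ N ≤ T + r ^ N * l j →
      ∀ W' : List (Fin d), wt l W' = r ^ N * l j → Gap a g W' →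
      cf (arr (col M N i)) (fun x => ¬ EvB l x W' a η T) ≤ eB * (arr (col M N i)).card)
    (hB2 : ∀ i (T : ℝ), lm / 2 * r ^ N ≤ r ^ N * l i - T → B0 ≤ T →
      cf (arr (col M N i)) (fun x => Gap a g x ∧ ¬ EvB l x x a η T) ≤
        eB * (arr (col M N i)).card) :
    cf (Om M N) (fun τ => ¬ SwapSmall τ (r ^ N)) ≤
      (((2 * BW + 1) ^ d : ℕ) * eA + d * eG + d * eC +
        (((d * d) * (2 * BD + 1) ^ d : ℕ) : ℝ) * eB) * (Om M N).card := by
  have hd : 0 < d := by have := H.S.two_le; omega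
  have h0 := cf_mono (Ω := Om M N) (fun τ h1 h2 => bad_cover H hpos (a := a) (g := g) hη hR1 hcov
    hk2 hB0 hbig1 hbig2 hBW hBD h1 h2)
  have h1 := cf_or (Om M N) (fun τ => ((∃ w ∈ BoxI d BW, IA l α (r ^ N * η) R1 w ∧
      ¬ BlkIn a w (τ a)) ∨
      (∃ j ∈ (Finset.univ : Finset (Fin d)), ¬ Gap a g (τ j))) ∨
      (∃ j ∈ (Finset.univ : Finset (Fin d)), ¬ EvC (τ j) ((B0 + lM) / lm)))
    (fun τ => ∃ q ∈ (Finset.univ : Finset (Fin d × Fin d)) ×ˢ (BoxI d BD),
        IB l (lm / 2) B0 (r ^ N) q ∧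
        Gap a g (τ q.1.2) ∧ ¬ EvB l (τ q.1.1) (τ q.1.2) a η (r ^ N * lr l (re q.2)))
  have h2 := cf_or (Om M N) (fun τ => (∃ w ∈ BoxI d BW, IA l α (r ^ N * η) R1 w ∧
      ¬ BlkIn a w (τ a)) ∨
      (∃ j ∈ (Finset.univ : Finset (Fin d)), ¬ Gap a g (τ j)))
      (fun τ => ∃ j ∈ (Finset.univ : Finset (Fin d)), ¬ EvC (τ j) ((B0 + lM) / lm))
  have h3 := cf_or (Om M N) (fun τ => ∃ w ∈ BoxI d BW, IA l α (r ^ N * η) R1 w ∧
      ¬ BlkIn a w (τ a))
      (fun τ => ∃ j ∈ (Finset.univ : Finset (Fin d)), ¬ Gap a g (τ j))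
  have hΩ0 : (0 : ℝ) ≤ (Om M N).card := Nat.cast_nonneg _
  have bA := cf_exists (Om M N) (BoxI d BW) (fun w τ => IA l α (r ^ N * η) R1 w ∧
      ¬ BlkIn a w (τ a)) (e := eA * (Om M N).card) (by
        intro w _
        by_cases hw : IA l α (r ^ N * η) R1 w
        · refine resample (fun j => arr (col M N j))
            (fun τ => IA l α (r ^ N * η) R1 w ∧ ¬ BlkIn a w (τ a)) a ?_
          intro τ _
          refine (cf_mono ?_).trans (hA w hw)
          intro x _ hx
          simpa using hx.2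
        · rw [cf_false (fun x _ hx => hw hx.1)]
          positivity)
  have bG := cf_exists (Om M N) (Finset.univ : Finset (Fin d)) (fun j τ => ¬ Gap a g (τ j))
      (e := eG * (Om M N).card) (by
        intro j _
        refine resample (fun j => arr (col M N j)) (fun τ => ¬ Gap a g (τ j)) j ?_
        intro τ _
        refine (cf_mono ?_).trans (hG j)
        intro x _ hx
        simpa using hx)
  have bC := cf_exists (Om M N) (Finset.univ : Finset (Fin d))
      (fun j τ => ¬ EvC (τ j) ((B0 + lM) / lm)) (e := eC * (Om M N).card) (by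
        intro j _
        refine resample (fun j => arr (col M N j)) (fun τ => ¬ EvC (τ j) ((B0 + lM) / lm)) j ?_
        intro τ _
        refine (cf_mono ?_).trans (hC j)
        intro x _ hx
        simpa using hx)
  have bB := cf_exists (Om M N) ((Finset.univ : Finset (Fin d × Fin d)) ×ˢ (BoxI d BD))
      (fun q τ => IB l (lm / 2) B0 (r ^ N) q ∧ Gap a g (τ q.1.2) ∧
      ¬ EvB l (τ q.1.1) (τ q.1.2) a η (r ^ N * lr l (re q.2))) (e := eB * (Om M N).card) (by
        rintro ⟨⟨i, j⟩, D⟩ _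
        by_cases hq : IB l (lm / 2) B0 (r ^ N) ((i, j), D)
        · obtain ⟨⟨o1, o2⟩, hg⟩ := hq
          have o1' : lm / 2 ≤ l i - lr l (re D) := o1
          have o2' : lm / 2 ≤ lr l (re D) + l j := o2
          have hg1 : i ≠ j ∨ B0 ≤ r ^ N * lr l (re D) := hg
          have hΛ0 : 0 < r ^ N := by linarith [H.Λ_gt]
          have q1 : lm / 2 * r ^ N ≤ r ^ N * l i - r ^ N * lr l (re D) := by
            have := mul_le_mul_of_nonneg_left o1' hΛ0.le
            linarith
          have q2 : lm / 2 * r ^ N ≤ r ^ N * lr l (re D) + r ^ N * l j := by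
            have := mul_le_mul_of_nonneg_left o2' hΛ0.le
            linarith
          by_cases hij : i = j
          · subst hij
            have hg' : B0 ≤ r ^ N * lr l (re D) := by
              rcases hg1 with h | h
              · exact absurd rfl h
              · exact h
            refine (cf_mono (Q := fun τ => Gap a g (τ i) ∧
              ¬ EvB l (τ i) (τ i) a η (r ^ N * lr l (re D))) ?_).trans
              (resample (fun j => arr (col M N j)) (fun τ => Gap a g (τ i) ∧
              ¬ EvB l (τ i) (τ i) a η (r ^ N * lr l (re D))) i ?_)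
            · intro x _ hx
              exact hx.2
            · intro τ _
              refine (cf_mono ?_).trans (hB2 i _ q1 hg')
              intro x _ hx
              simpa using hx
          · refine (cf_mono (Q := fun τ => Gap a g (τ j) ∧
              ¬ EvB l (τ i) (τ j) a η (r ^ N * lr l (re D))) ?_).trans
              (resample (fun j => arr (col M N j)) (fun τ => Gap a g (τ j) ∧
              ¬ EvB l (τ i) (τ j) a η (r ^ N * lr l (re D))) i ?_)
            · intro x _ hx
              exact hx.2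
            · intro τ hτ
              by_cases hgap : Gap a g (τ j)
              · refine (cf_mono ?_).trans (hB1 i j _ q1 q2 (τ j)
                  (wt_word H (sub_of_mem hd hpos hτ) j) hgap)
                intro x _ hx
                have h5 := hx.2
                rw [Function.update_self, Function.update_of_ne (Ne.symm hij)] at h5
                exact h5
              · rw [cf_false]
                · positivity
                · intro x _ hx
                  have h5 := hx.1
                  rw [Function.update_of_ne (Ne.symm hij)] at h5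
                  exact hgap h5
        · rw [cf_false (fun x _ hx => hq hx.1)]
          positivity)
  rw [card_BoxI] at bA
  rw [Finset.card_univ, Fintype.card_fin] at bG bC
  rw [Finset.card_product, card_BoxI, Finset.card_univ, Fintype.card_prod, Fintype.card_fin] at bB
  refine h0.trans (h1.trans ?_)
  have e1 : (((2 * BW + 1) ^ d : ℕ) * eA + d * eG + d * eC +
        (((d * d) * (2 * BD + 1) ^ d : ℕ) : ℝ) * eB) * (Om M N).card =
      ((2 * BW + 1) ^ d : ℕ) * (eA * (Om M N).card) + d * (eG * (Om M N).card) +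
        d * (eC * (Om M N).card) +
        (((d * d) * (2 * BD + 1) ^ d : ℕ) : ℝ) * (eB * (Om M N).card) := by ring
  rw [e1]
  linarith

end

end Pool.Agent.Helper40_Random
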