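import Mathlib
import Pool.Agent.Helper40_Random.Count

/-!
# The letter frequencies of the words
-/

set_option autoImplicit false

namespace Pool.Agent.Helper40_Random

open Finset Matrix
open Pool.Agent.Helper94_Pisot

variable {d : ℕ} {M : Matrix (Fin d) (Fin d) ℤ} {r : ℝ} {α l : Fin d → ℝ} {C ρ : ℝ} {N : ℕ}
  {lm lM : ℝ} {k1 : ℕ}

/-- the length of the word of `j` -/
def len (M : Matrix (Fin d) (Fin d) ℤ) (N : ℕ) (j : Fin d) : ℕ := ∑ i, col M N j i

/-- the letter frequencies of the word of `j` -/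
noncomputable def freq (M : Matrix (Fin d) (Fin d) ℤ) (N : ℕ) (j : Fin d) : Fin d → ℝ :=
  fun i => (col M N j i : ℝ) / (len M N j : ℝ)

theorem col_pos (hpos : ∀ i j, 0 < (M ^ N) i j) (j i : Fin d) : 1 ≤ col M N j i := by
  have := hpos i j
  rw [col]
  omega

theorem col_cast (hpos : ∀ i j, 0 < (M ^ N) i j) (j i : Fin d) :
    (col M N j i : ℝ) = ((M ^ N) i j : ℝ) := by
  have h1 : ((col M N j i : ℕ) : ℤ) = (M ^ N) i j := by
    rw [col, Int.toNat_of_nonneg (hpos i j).le]
  exact_mod_cast congrArg (fun z : ℤ => (z : ℝ)) h1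

theorem len_pos (hd : 0 < d) (hpos : ∀ i j, 0 < (M ^ N) i j) (j : Fin d) : 0 < len M N j := by
  have h1 := col_pos hpos j ⟨0, hd⟩
  have h2 := Finset.single_le_sum (f := fun i => col M N j i) (fun i _ => Nat.zero_le _)
    (Finset.mem_univ (⟨0, hd⟩ : Fin d))
  rw [len]
  have h3 : col M N j ⟨0, hd⟩ ≤ ∑ i, col M N j i := h2
  omega

theorem col_vec (j : Fin d) : re ((M ^ N) *ᵥ (Pi.single j 1)) = fun i => ((M ^ N) i j : ℝ) := by
  funext i
  simp only [re, Matrix.mulVec_single_one]
  rfl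

theorem col_weight (H : Lev M r α l C ρ N lm lM k1) (hpos : ∀ i j, 0 < (M ^ N) i j) (j : Fin d) :
    ∑ i, l i * (col M N j i : ℝ) = r ^ N * l j := by
  have h1 := H.S.lr_mul N (Pi.single j 1)
  rw [lr_single, col_vec] at h1
  rw [← h1, lr]
  exact Finset.sum_congr rfl fun i _ => by rw [col_cast hpos]

theorem len_bounds (H : Lev M r α l C ρ N lm lM k1) (hpos : ∀ i j, 0 < (M ^ N) i j) (j : Fin d) :
    r ^ N * (lm / lM) ≤ len M N j ∧ (len M N j : ℝ) ≤ r ^ N * (lM / lm) := by
  have hlm := H.lm_pos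
  have hlM := H.lM_pos
  have hΛ : 0 < r ^ N := by linarith [H.Λ_gt]
  have h1 := col_weight H hpos j
  have h2 : lm * (len M N j : ℝ) ≤ ∑ i, l i * (col M N j i : ℝ) := by
    rw [len]
    push_cast
    rw [Finset.mul_sum]
    exact Finset.sum_le_sum fun i _ => mul_le_mul_of_nonneg_right (H.lm_le i) (Nat.cast_nonneg _)
  have h3 : ∑ i, l i * (col M N j i : ℝ) ≤ lM * (len M N j : ℝ) := by
    rw [len]
    push_cast
    rw [Finset.mul_sum]
    exact Finset.sum_le_sum fun i _ => mul_le_mul_of_nonneg_right (H.le_lM i) (Nat.cast_nonneg _)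
  have h4 := H.lm_le j
  have h5 := H.le_lM j
  constructor
  · rw [mul_div_assoc', div_le_iff₀ hlM]
    nlinarith
  · rw [mul_div_assoc', le_div_iff₀ hlm]
    nlinarith

theorem freq_sum (hd : 0 < d) (hpos : ∀ i j, 0 < (M ^ N) i j) (j : Fin d) :
    ∑ i, freq M N j i = 1 := by
  have h := len_pos hd hpos j
  have h0 : (0 : ℝ) < len M N j := by exact_mod_cast h
  simp only [freq]
  rw [← Finset.sum_div, div_eq_one_iff_eq h0.ne', len]
  push_cast
  rfl

/-- the constant in the estimate for the frequencies -/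
noncomputable def freqC (d : ℕ) (C lm lM : ℝ) : ℝ := (1 + d) * (C * (1 + lM)) * (lM / lm)

theorem freq_near (H : Lev M r α l C ρ N lm lM k1) (hpos : ∀ i j, 0 < (M ^ N) i j) (j i : Fin d) :
    |freq M N j i - α i| ≤ freqC d C lm lM / r ^ N := by
  have hd : 0 < d := by have := H.S.two_le; omega
  have hlm := H.lm_pos
  have hlM := H.lM_pos
  have hC := H.S.one_le
  have hΛ : 0 < r ^ N := by linarith [H.Λ_gt]
  have hL0 : (0 : ℝ) < len M N j := by exact_mod_cast len_pos hd hpos j
  set w : Fin d → ℤ := (M ^ N) *ᵥ (Pi.single j 1) with hw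
  set Q : ℝ := C * (1 + lM) with hQ
  have hq : ‖qr l α (re w)‖ ≤ Q := by
    refine (H.S.decay N _).trans ?_
    have h1 := norm_qr_single H.S H.le_lM j
    have h2 : ρ ^ N ≤ 1 := pow_le_one₀ H.S.ρ_pos.le H.S.ρ_lt.le
    have h3 : 0 < ρ ^ N := pow_pos H.S.ρ_pos N
    calc C * ρ ^ N * ‖qr l α (re (Pi.single j 1))‖ ≤ C * 1 * (1 + lM) := by
          refine mul_le_mul (mul_le_mul_of_nonneg_left h2 (by linarith)) h1 (norm_nonneg _)
            (by linarith)
      _ = Q := by rw [hQ]; ring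
  have hqi : ∀ i, |qr l α (re w) i| ≤ Q := fun i => by
    rw [← Real.norm_eq_abs]
    exact (norm_le_pi_norm _ i).trans hq
  have hk : ∀ i, (col M N j i : ℝ) = lr l (re w) * α i + qr l α (re w) i := by
    intro i
    rw [col_cast hpos]
    simp only [qr]
    have : re w i = ((M ^ N) i j : ℝ) := by rw [hw, col_vec]
    rw [this]
    ring
  have hL : (len M N j : ℝ) = lr l (re w) + ∑ i, qr l α (re w) i := by
    rw [len]
    push_cast
    rw [Finset.sum_congr rfl fun i _ => hk i, Finset.sum_add_distrib, ← Finset.mul_sum,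
      H.S.α_sum, mul_one]
  have hsq : |∑ i, qr l α (re w) i| ≤ d * Q := by
    refine (Finset.abs_sum_le_sum_abs _ _).trans ?_
    refine (Finset.sum_le_sum fun i _ => hqi i).trans ?_
    simp
  have h1 : |(col M N j i : ℝ) - len M N j * α i| ≤ (1 + d) * Q := by
    rw [hL, hk i]
    have e : lr l (re w) * α i + qr l α (re w) i - (lr l (re w) + ∑ i, qr l α (re w) i) * α i =
        qr l α (re w) i - (∑ i, qr l α (re w) i) * α i := by ring
    rw [e]
    calc |qr l α (re w) i - (∑ i, qr l α (re w) i) * α i|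
        ≤ |qr l α (re w) i| + |(∑ i, qr l α (re w) i) * α i| := abs_sub _ _
      _ ≤ Q + d * Q := by
          refine add_le_add (hqi i) ?_
          rw [abs_mul, abs_of_pos (H.S.α_pos i)]
          calc |∑ i, qr l α (re w) i| * α i ≤ |∑ i, qr l α (re w) i| * 1 :=
                mul_le_mul_of_nonneg_left (H.S.α_le_one i) (abs_nonneg _)
            _ ≤ _ := by rw [mul_one]; exact hsq
      _ = (1 + d) * Q := by ring
  have h2 : freq M N j i - α i = ((col M N j i : ℝ) - len M N j * α i) / len M N j := by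
    rw [freq]
    field_simp
  rw [h2, abs_div, abs_of_pos hL0, div_le_div_iff₀ hL0 hΛ]
  have h3 := (len_bounds H hpos j).1
  have h4 : r ^ N ≤ (lM / lm) * len M N j := by
    have e1 : (lM / lm) * (r ^ N * (lm / lM)) = r ^ N := by field_simp
    calc r ^ N = (lM / lm) * (r ^ N * (lm / lM)) := e1.symm
      _ ≤ _ := mul_le_mul_of_nonneg_left h3 (by positivity)
  have hQ0 : 0 ≤ (1 + (d : ℝ)) * Q := by positivity
  calc |(col M N j i : ℝ) - len M N j * α i| * r ^ N
      ≤ ((1 + d) * Q) * ((lM / lm) * len M N j) :=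
        mul_le_mul h1 h4 hΛ.le hQ0
    _ = freqC d C lm lM * len M N j := by
        rw [freqC, hQ]
        ring

theorem freq_lower (H : Lev M r α l C ρ N lm lM k1) (hpos : ∀ i j, 0 < (M ^ N) i j)
    {am : ℝ} (ham : ∀ i, am ≤ α i) (hbig : freqC d C lm lM / r ^ N ≤ am / 2) (j i : Fin d) :
    am / 2 ≤ freq M N j i := by
  have h1 := (abs_le.1 (freq_near H hpos j i)).1
  have h2 := ham i
  linarith

theorem freq_upper (H : Lev M r α l C ρ N lm lM k1) (hpos : ∀ i j, 0 < (M ^ N) i j)
    {p0 : ℝ} (hp0 : 0 ≤ p0) (hp : ∀ j i, p0 ≤ freq M N j i) (j i : Fin d) :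
    freq M N j i ≤ 1 - p0 := by
  have hd2 := H.S.two_le
  have h1 := freq_sum (by omega) hpos j
  obtain ⟨i', hi'⟩ : ∃ i' : Fin d, i' ≠ i := by
    have : Nontrivial (Fin d) := Fin.nontrivial_iff_two_le.2 hd2
    exact exists_ne i
  have h2 := Finset.add_sum_erase Finset.univ (freq M N j) (Finset.mem_univ i)
  have h3 : freq M N j i' ≤ ∑ x ∈ Finset.univ.erase i, freq M N j x :=
    Finset.single_le_sum (f := freq M N j) (fun x _ => hp0.trans (hp j x))
      (Finset.mem_erase.2 ⟨hi', Finset.mem_univ _⟩)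
  have h4 := hp j i'
  linarith

/-- transfer from independent letters to the uniform law -/
theorem transfer (hd : 0 < d) (hpos : ∀ i j, 0 < (M ^ N) i j) (j : Fin d)
    (B : List (Fin d) → Prop) {e : ℝ} (h : Ex (freq M N j) (len M N j) (fun x => ind (B x)) ≤ e) :
    cf (arr (col M N j)) B ≤ (((len M N j : ℝ) + 1) ^ d * e) * (arr (col M N j)).card := by
  classical
  have h1 := arr_bound (col_pos hpos j) (L := len M N j) rfl (len_pos hd hpos j) B
  have h2 : cf (arr (col M N j)) B = (((arr (col M N j)).filter B).card : ℝ) := by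
    unfold cf
    congr
  rw [h2]
  have h3 : (((arr (col M N j)).filter B).card : ℝ) ≤
      ((len M N j : ℝ) + 1) ^ d * Ex (freq M N j) (len M N j) (fun x => ind (B x)) *
        (arr (col M N j)).card := by
    convert h1
    · rfl
    · unfold ind
      split_ifs <;> rfl
  refine h3.trans ?_
  refine mul_le_mul_of_nonneg_right ?_ (Nat.cast_nonneg _)
  exact mul_le_mul_of_nonneg_left h (by positivity)

/-- the weight of the words of the right content -/
theorem wt_of_mem (H : Lev M r α l C ρ N lm lM k1) (hpos : ∀ i j, 0 < (M ^ N) i j) (j : Fin d)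
    {x : List (Fin d)} (hx : x ∈ arr (col M N j)) : wt l x = r ^ N * l j := by
  rw [← col_weight H hpos j, wt_eq_lr, lr]
  refine Finset.sum_congr rfl fun i _ => ?_
  rw [← mem_arr.1 hx i]
  rfl

end Pool.Agent.Helper40_Random
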