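import Mathlib

/-!
# The parameters
-/

set_option autoImplicit false

namespace Pool.Agent.Helper40_Random

/-- exponent of the number of starting places -/
def nu (d : ℕ) : ℕ := d ^ 2 + d + 1

/-- the basic exponent -/
def g1 (d : ℕ) : ℕ := 3 * nu d + 2

/-- the exponent of the dilatation -/
def EE (d : ℕ) : ℕ := (d + 1) * g1 d

theorem mono_pow {x K : ℝ} {a b : ℕ} (hx : 1 ≤ x) (hK : K ≤ x) (hab : a + 1 ≤ b) :
    K * x ^ a ≤ x ^ b := by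
  calc K * x ^ a ≤ x * x ^ a := mul_le_mul_of_nonneg_right hK (by positivity)
    _ = x ^ (a + 1) := by rw [pow_succ]; ring
    _ ≤ x ^ b := pow_le_pow_right₀ hx hab

/-- the numerical facts about the parameters -/
structure Par (d n : ℕ) (K Λ : ℝ) : Prop where
  a : n ^ (nu d) * (n ^ (nu d + 1)) ^ 2 * 8 ≤ (n ^ (g1 d + d)) ^ 2
  b : K * (n : ℝ) ^ (nu d) ≤ ((n : ℝ) ^ (nu d + 1)) ^ (d - 1)
  c : K * ((n : ℝ) ^ (g1 d + d)) ^ 2 ≤ Λ
  dd : K * Λ ≤ ((n : ℝ) ^ (g1 d + d)) ^ 2 * ((n : ℝ) ^ (g1 d + d)) ^ (d - 1)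
  e : K * Λ ≤ ((n : ℝ) ^ (g1 d + d)) ^ 2 * ((n : ℝ) ^ (g1 d - 1)) ^ (d - 1)
  f : K * ((n : ℝ) ^ (g1 d - 1)) ^ 2 ≤ Λ
  g : (n : ℝ) * (((n : ℝ) ^ (g1 d - 1)) ^ 2 * ((n : ℝ) ^ (g1 d - 1)) ^ (d - 1)) ≤ Λ
  h : (n : ℝ) * (((n : ℝ) ^ (g1 d + d)) ^ 2 * ((n : ℝ) ^ (g1 d + d)) ^ (d - 1)) ≤
    (n : ℝ) ^ (nu d) * Λ
  i : K * (n : ℝ) ^ (nu d) ≤ ((n : ℝ) ^ (g1 d + d)) ^ (d - 1)
  nv : (n : ℝ) ≤ (n : ℝ) ^ (g1 d - 1)
  nt : (n : ℝ) ≤ (n : ℝ) ^ (g1 d + d)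
  nu' : (n : ℝ) ≤ (n : ℝ) ^ (nu d + 1)
  nvd : (n : ℝ) ≤ ((n : ℝ) ^ (g1 d - 1)) ^ (d - 1)
  pos : 1 ≤ n

theorem params {d : ℕ} (hd : 2 ≤ d) {K : ℝ} (hK0 : 0 ≤ K) {n : ℕ} (hn8 : 8 ≤ n)
    (hK : K * 2 ^ (EE d) ≤ n) {Λ : ℝ} (h1 : (n : ℝ) ^ (EE d) ≤ Λ)
    (h2 : Λ < ((n : ℝ) + 1) ^ (EE d)) : Par d n K Λ := by
  set x : ℝ := (n : ℝ) with hx
  have hx8 : (8 : ℝ) ≤ x := by
    rw [hx]
    exact_mod_cast hn8
  have hx1 : (1 : ℝ) ≤ x := by linarith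
  have h2E : (1 : ℝ) ≤ 2 ^ (EE d) := one_le_pow₀ (by norm_num)
  have hKx : K ≤ x := by
    calc K = K * 1 := (mul_one K).symm
      _ ≤ K * 2 ^ (EE d) := mul_le_mul_of_nonneg_left h2E hK0
      _ ≤ x := hK
  have hΛ : Λ ≤ 2 ^ (EE d) * x ^ (EE d) := by
    rw [← mul_pow]
    refine h2.le.trans (pow_le_pow_left₀ (by linarith) (by linarith) _)
  obtain ⟨e, rfl⟩ : ∃ e, d = e + 2 := ⟨d - 2, by omega⟩
  have hnu : nu (e + 2) = e ^ 2 + 5 * e + 7 := by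
    unfold nu
    ring
  have hg1 : g1 (e + 2) = 3 * (e ^ 2 + 5 * e + 7) + 2 := by
    unfold g1
    rw [hnu]
  have hgpos : 1 ≤ g1 (e + 2) := by
    rw [hg1]
    omega
  obtain ⟨G, hG⟩ : ∃ G, g1 (e + 2) = G + 1 := ⟨g1 (e + 2) - 1, by omega⟩
  have hE : EE (e + 2) = (e + 3) * (G + 1) := by
    unfold EE
    rw [hG]
  have hGval : G = 3 * (e ^ 2 + 5 * e + 7) + 1 := by omega
  have hd1 : e + 2 - 1 = e + 1 := by omega
  have hG1 : G + 1 - 1 = G := by omega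
  have hΛ0 : 0 ≤ Λ := le_trans (by positivity) h1
  constructor
  · -- a
    rw [← pow_mul, ← pow_add, ← pow_mul]
    calc n ^ (nu (e + 2) + (nu (e + 2) + 1) * 2) * 8
        ≤ n ^ (nu (e + 2) + (nu (e + 2) + 1) * 2) * n := Nat.mul_le_mul_left _ hn8
      _ = n ^ (nu (e + 2) + (nu (e + 2) + 1) * 2 + 1) := (pow_succ _ _).symm
      _ ≤ n ^ ((g1 (e + 2) + (e + 2)) * 2) := by
          apply Nat.pow_le_pow_right (by omega)
          rw [hg1, hnu]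
          nlinarith
  · -- b
    rw [← pow_mul, hd1]
    apply mono_pow hx1 hKx
    nlinarith
  · -- c
    rw [← pow_mul]
    refine (mono_pow (b := EE (e + 2)) hx1 hKx ?_).trans h1
    rw [hE, hG]
    nlinarith
  · -- dd
    rw [← pow_mul, ← pow_mul, ← pow_add, hd1]
    calc K * Λ ≤ K * (2 ^ (EE (e + 2)) * x ^ (EE (e + 2))) := mul_le_mul_of_nonneg_left hΛ hK0
      _ = (K * 2 ^ (EE (e + 2))) * x ^ (EE (e + 2)) := by ring
      _ ≤ _ := by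
          apply mono_pow hx1 hK
          rw [hE, hG]
          nlinarith
  · -- e
    rw [← pow_mul, ← pow_mul, ← pow_add, hd1]
    calc K * Λ ≤ K * (2 ^ (EE (e + 2)) * x ^ (EE (e + 2))) := mul_le_mul_of_nonneg_left hΛ hK0
      _ = (K * 2 ^ (EE (e + 2))) * x ^ (EE (e + 2)) := by ring
      _ ≤ _ := by
          apply mono_pow hx1 hK
          rw [hE, hG, hG1]
          nlinarith
  · -- f
    rw [← pow_mul]
    refine (mono_pow (b := EE (e + 2)) hx1 hKx ?_).trans h1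
    rw [hE, hG, hG1]
    nlinarith
  · -- g
    rw [← pow_mul, ← pow_mul, ← pow_add, hd1]
    refine (mono_pow (b := EE (e + 2)) hx1 le_rfl ?_).trans h1
    rw [hE, hG, hG1]
    nlinarith
  · -- h
    rw [← pow_mul, ← pow_mul, ← pow_add, hd1]
    calc x * x ^ ((g1 (e + 2) + (e + 2)) * 2 + (g1 (e + 2) + (e + 2)) * (e + 1))
        ≤ x ^ (nu (e + 2) + EE (e + 2)) := by
          apply mono_pow hx1 le_rfl
          rw [hE, hG, hnu]
          nlinarith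
      _ = x ^ (nu (e + 2)) * x ^ (EE (e + 2)) := by rw [pow_add]
      _ ≤ x ^ (nu (e + 2)) * Λ := mul_le_mul_of_nonneg_left h1 (by positivity)
  · -- i
    rw [← pow_mul, hd1]
    apply mono_pow hx1 hKx
    rw [hG, hnu, hGval]
    nlinarith
  · -- nv
    rw [hG, hG1]
    exact le_self_pow₀ hx1 (by omega)
  · exact le_self_pow₀ hx1 (by omega)
  · exact le_self_pow₀ hx1 (by omega)
  · rw [← pow_mul, hd1, hG, hG1]
    apply le_self_pow₀ hx1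
    have : 0 < G * (e + 1) := by
      apply Nat.mul_pos <;> omega
    omega
  · omega

/-- the integer part of a root -/
theorem exists_root (E : ℕ) (hE : 1 ≤ E) {Λ : ℝ} (hΛ : 1 ≤ Λ) :
    ∃ n : ℕ, (n : ℝ) ^ E ≤ Λ ∧ Λ < ((n : ℝ) + 1) ^ E := by
  have hex : ∃ n : ℕ, Λ < ((n : ℝ) + 1) ^ E := by
    obtain ⟨n, hn⟩ := exists_nat_gt Λ
    refine ⟨n, ?_⟩
    calc Λ < n := hn
      _ ≤ (n : ℝ) + 1 := by linarith
      _ ≤ ((n : ℝ) + 1) ^ E := le_self_pow₀ (by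
          have : (0 : ℝ) ≤ n := Nat.cast_nonneg n
          linarith) (by omega)
  classical
  set n := Nat.find hex with hn
  refine ⟨n, ?_, Nat.find_spec hex⟩
  rcases Nat.eq_zero_or_pos n with h0 | h0
  · rw [h0, Nat.cast_zero, zero_pow (by omega)]
    linarith
  · have h1 := Nat.find_min hex (show n - 1 < n by omega)
    push Not at h1
    have h2 : ((n - 1 : ℕ) : ℝ) + 1 = n := by
      rw [Nat.cast_sub h0]
      simp
    rwa [h2] at h1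

end Pool.Agent.Helper40_Random
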