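import Mathlib
import Pool.Agent.Helper40_Random.Column
import Pool.Agent.Helper40_Random.Param

/-!
# The estimates for the single events at one level
-/

set_option autoImplicit false

namespace Pool.Agent.Helper40_Random

open Finset Matrix
open Pool.Agent.Helper94_Pisot

theorem exp_bound {q X : ℝ} {m : ℕ} (h1 : q ≤ 1) (hX : X - 1 ≤ q * m) :
    (1 - q) ^ m ≤ Real.exp 1 * Real.exp (-X) := by
  calc (1 - q) ^ m ≤ (Real.exp (-q)) ^ m := by
        apply pow_le_pow_left₀ (by linarith)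
        have := Real.add_one_le_exp (-q)
        linarith
    _ = Real.exp (-(q * m)) := by
        rw [← Real.exp_nat_mul]
        congr 1
        ring
    _ ≤ Real.exp (1 + -X) := by
        rw [Real.exp_le_exp]
        linarith
    _ = _ := Real.exp_add _ _

theorem numA {c m1 td t2 Λ L lmM x : ℝ} {J : ℕ} (hc : 0 < c) (htd : 0 < td)
    (ht2 : 0 < t2) (hm : 0 < m1) (hq1 : c * m1 ≤ td) (hL : Λ * lmM ≤ L) (hlmM : 0 < lmM)
    (hJ : L < ((J : ℝ) + 1) * (4 * t2)) (hx : x * (t2 * td) ≤ m1 * Λ) :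
    c * lmM / 4 * x - 1 ≤ c * m1 / td * J := by
  have hq : c * m1 / td ≤ 1 := by
    rw [div_le_one htd]
    exact hq1
  have h1 : Λ * lmM / (4 * t2) ≤ (J : ℝ) + 1 := by
    rw [div_le_iff₀ (by positivity)]
    linarith
  have h2 : c * m1 / td * (Λ * lmM / (4 * t2)) ≤ c * m1 / td * ((J : ℝ) + 1) :=
    mul_le_mul_of_nonneg_left h1 (by positivity)
  have h3 : c * lmM / 4 * x ≤ c * m1 / td * (Λ * lmM / (4 * t2)) := by
    have e : c * m1 / td * (Λ * lmM / (4 * t2)) = c * lmM / 4 * (m1 * Λ / (t2 * td)) := by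
      field_simp
    rw [e]
    refine mul_le_mul_of_nonneg_left ?_ (by positivity)
    rw [le_div_iff₀ (by positivity)]
    exact hx
  linarith

theorem numB {c vd v2 Λ lm lM x : ℝ} {m : ℕ} (hc : 0 < c) (hvd : 0 < vd) (hv2 : 0 < v2)
    (hlm : 0 < lm) (hlM : 0 < lM) (hq1 : c ≤ vd) (hm : Λ * lm / (16 * v2 * lM) < (m : ℝ) + 1)
    (hx : x * (v2 * vd) ≤ Λ) :
    c * lm / (16 * lM) * x - 1 ≤ c / vd * m := by
  have hq : c / vd ≤ 1 := by
    rw [div_le_one hvd]
    exact hq1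
  have h2 : c / vd * (Λ * lm / (16 * v2 * lM)) ≤ c / vd * ((m : ℝ) + 1) :=
    mul_le_mul_of_nonneg_left hm.le (by positivity)
  have h3 : c * lm / (16 * lM) * x ≤ c / vd * (Λ * lm / (16 * v2 * lM)) := by
    have e : c / vd * (Λ * lm / (16 * v2 * lM)) = c * lm / (16 * lM) * (Λ / (v2 * vd)) := by
      field_simp
    rw [e]
    refine mul_le_mul_of_nonneg_left ?_ (by positivity)
    rw [le_div_iff₀ (by positivity)]
    exact hx
  linarith

variable {d : ℕ} {M : Matrix (Fin d) (Fin d) ℤ} {r : ℝ} {α l : Fin d → ℝ} {C ρ : ℝ} {N : ℕ}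
  {lm lM : ℝ} {k1 : ℕ}

section

variable (H : Lev M r α l C ρ N lm lM k1) (hpos : ∀ i j, 0 < (M ^ N) i j)
  {am p0 : ℝ} (hp0 : 0 < p0) (hp : ∀ j i, p0 ≤ freq M N j i)

include H hpos hp0 hp

/-- the gaps -/
theorem evG_bound (a : Fin d) {v : ℕ} {x κ : ℝ} (hxv : x ≤ v) (hκ : κ ≤ p0)
    (hx0 : 0 ≤ x) (j : Fin d) :
    cf (arr (col M N j)) (fun y => ¬ Gap a v y) ≤
      (((len M N j : ℝ) + 1) ^ d * (((len M N j : ℝ) + 1) * Real.exp (-(κ * x)))) *
        (arr (col M N j)).card := by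
  have hd : 0 < d := by have := H.S.two_le; omega
  apply transfer hd hpos j
  have hnn : ∀ i, 0 ≤ freq M N j i := fun i => hp0.le.trans (hp j i)
  refine (eventGap hnn (freq_sum hd hpos j) a v (len M N j)).trans ?_
  refine mul_le_mul_of_nonneg_left ?_ (by positivity)
  have hup := freq_upper H hpos hp0.le hp j a
  calc (1 - freq M N j a) ^ v ≤ (Real.exp (-p0)) ^ v := by
        apply pow_le_pow_left₀ (by linarith)
        have h1 := Real.add_one_le_exp (-p0)
        have h2 := hp j a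
        linarith
    _ = Real.exp (-(p0 * v)) := by
        rw [← Real.exp_nat_mul]
        congr 1
        ring
    _ ≤ Real.exp (-(κ * x)) := by
        rw [Real.exp_le_exp, neg_le_neg_iff]
        exact mul_le_mul hκ hxv hx0 hp0.le

/-- the periods -/
theorem evC_bound {P : ℕ} {P' x κ : ℝ} (hP' : P' < (P : ℝ) + 1) (j : Fin d)
    (hPL : (P : ℝ) + x ≤ len M N j) (hκ : κ ≤ p0) (hx0 : 0 ≤ x) :
    cf (arr (col M N j)) (fun y => ¬ EvC y P') ≤
      (((len M N j : ℝ) + 1) ^ d * (P * Real.exp (-(κ * x)))) * (arr (col M N j)).card := by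
  have hd : 0 < d := by have := H.S.two_le; omega
  have hd2 := H.S.two_le
  apply transfer hd hpos j
  have hnn : ∀ i, 0 ≤ freq M N j i := fun i => hp0.le.trans (hp j i)
  have hup := freq_upper H hpos hp0.le hp j
  have hp1 : p0 < 1 := by
    have h1 := hup ⟨0, hd⟩
    have h2 := hp j ⟨0, hd⟩
    linarith
  have hPL' : P ≤ len M N j := by
    have : (P : ℝ) ≤ len M N j := by linarith
    exact_mod_cast this
  refine (eventC hnn (freq_sum hd hpos j) hp0 hp1 hup hPL' hP').trans ?_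
  refine mul_le_mul_of_nonneg_left ?_ (Nat.cast_nonneg _)
  calc (1 - p0) ^ (len M N j - P) ≤ (Real.exp (-p0)) ^ (len M N j - P) := by
        apply pow_le_pow_left₀ (by linarith)
        have h1 := Real.add_one_le_exp (-p0)
        linarith
    _ = Real.exp (-(p0 * ((len M N j - P : ℕ) : ℝ))) := by
        rw [← Real.exp_nat_mul]
        congr 1
        ring
    _ ≤ Real.exp (-(κ * x)) := by
        rw [Real.exp_le_exp, neg_le_neg_iff]
        apply mul_le_mul hκ _ hx0 hp0.le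
        rw [Nat.cast_sub hPL']
        linarith

/-- the second event -/
theorem evB_bound {a : Fin d} {v : ℕ} (hv : 1 ≤ v) (hg : ((v : ℝ) + 1) * lM ≤ (v : ℝ) ^ 2)
    {η c x : ℝ} (hc : 0 < c) (hcv : c < (v : ℝ) ^ (d - 1))
    (hatt : ∀ (p : Fin d → ℝ), (∃ j, p = freq M N j) →
      ∀ T' : ℝ, 2 * (v : ℝ) ^ 2 ≤ T' → T' ≤ 3 * (v : ℝ) ^ 2 →
      c / (v : ℝ) ^ (d - 1) ≤ Ex p (4 * v ^ 2) (fun y => ind (SuccB l a η T' y)))
    (hbig : (32 * lM + 12) * (v : ℝ) ^ 2 ≤ r ^ N * lm)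
    (hx : x * ((v : ℝ) ^ 2 * (v : ℝ) ^ (d - 1)) ≤ r ^ N) :
    (∀ i j (T : ℝ), lm / 2 * r ^ N ≤ r ^ N * l i - T → lm / 2 * r ^ N ≤ T + r ^ N * l j →
      ∀ W' : List (Fin d), wt l W' = r ^ N * l j → Gap a v W' →
      cf (arr (col M N i)) (fun y => ¬ EvB l y W' a η T) ≤
        (((len M N i : ℝ) + 1) ^ d * (Real.exp 1 * Real.exp (-(c * lm / (16 * lM) * x)))) *
          (arr (col M N i)).card) ∧
    (∀ i (T : ℝ), lm / 2 * r ^ N ≤ r ^ N * l i - T → 3 * (v : ℝ) ^ 2 ≤ T →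
      cf (arr (col M N i)) (fun y => Gap a v y ∧ ¬ EvB l y y a η T) ≤
        (((len M N i : ℝ) + 1) ^ d * (Real.exp 1 * Real.exp (-(c * lm / (16 * lM) * x)))) *
          (arr (col M N i)).card) := by
  have hd : 0 < d := by have := H.S.two_le; omega
  have hlm := H.lm_pos
  have hlM := H.lM_pos
  have hΛ : 0 < r ^ N := by linarith [H.Λ_gt]
  have hv1 : (1 : ℝ) ≤ v := by exact_mod_cast hv
  have hv2 : (0 : ℝ) < (v : ℝ) ^ 2 := by positivity
  have hvd : (0 : ℝ) < (v : ℝ) ^ (d - 1) := by positivity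
  set q : ℝ := c / (v : ℝ) ^ (d - 1) with hq
  have hq0 : 0 < q := by positivity
  have hq1 : q < 1 := by
    rw [hq, div_lt_one hvd]
    exact hcv
  set m : ℕ := ⌊r ^ N * lm / (16 * (v : ℝ) ^ 2 * lM)⌋₊ with hm
  have hm1 : (m : ℝ) ≤ r ^ N * lm / (16 * (v : ℝ) ^ 2 * lM) := Nat.floor_le (by positivity)
  have hm2 : r ^ N * lm / (16 * (v : ℝ) ^ 2 * lM) < (m : ℝ) + 1 := Nat.lt_floor_add_one _
  have hm3 : (m : ℝ) * (4 * (v : ℝ) ^ 2 * lM) ≤ r ^ N * lm / 4 := by
    calc (m : ℝ) * (4 * (v : ℝ) ^ 2 * lM)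
        ≤ r ^ N * lm / (16 * (v : ℝ) ^ 2 * lM) * (4 * (v : ℝ) ^ 2 * lM) :=
          mul_le_mul_of_nonneg_right hm1 (by positivity)
      _ = r ^ N * lm / 4 := by
          field_simp
          norm_num
  have hm4 : ((m : ℝ) + 2) * (4 * (v : ℝ) ^ 2 * lM) + 3 * (v : ℝ) ^ 2 ≤ r ^ N * lm / 2 := by
    linarith
  have hexp : (1 - q) ^ m ≤ Real.exp 1 * Real.exp (-(c * lm / (16 * lM) * x)) :=
    exp_bound hq1.le (numB hc hvd hv2 hlm hlM hcv.le hm2 hx)
  constructor
  · intro i j T h1 h2 W' hW' hgap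
    have h3 : cf (arr (col M N i)) (fun y => ¬ EvB l y W' a η T) ≤
        cf (arr (col M N i)) (fun y => wt l y = r ^ N * l i ∧ ¬ EvB l y W' a η T) :=
      cf_mono fun y hy h => ⟨wt_of_mem H hpos i hy, h⟩
    refine h3.trans (transfer hd hpos i _ ?_)
    have hnn : ∀ s, 0 ≤ freq M N i s := fun s => hp0.le.trans (hp i s)
    refine (eventB1 H.S.l_pos hlM H.le_lM hnn (freq_sum hd hpos i) hv hg hq0 hq1
      (hatt _ ⟨i, rfl⟩) W' hgap T (r ^ N * l i) (m := m) ?_).trans hexp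
    rw [hW']
    have h5 : lm * r ^ N ≤ r ^ N * l i := by
      have := mul_le_mul_of_nonneg_left (H.lm_le i) hΛ.le
      linarith
    have h6 : lm * r ^ N ≤ r ^ N * l j := by
      have := mul_le_mul_of_nonneg_left (H.lm_le j) hΛ.le
      linarith
    have h7 : 0 ≤ (4 * (v : ℝ) ^ 2) * lM := by positivity
    have h8 : 0 ≤ lm * r ^ N := by positivity
    rw [le_min_iff]
    constructor
    · have : max 0 T ≤ r ^ N * l i - lm / 2 * r ^ N :=
        max_le (by linarith) (by linarith)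
      linarith
    · have : max 0 T ≤ T + r ^ N * l j - lm / 2 * r ^ N :=
        max_le (by linarith) (by linarith)
      linarith
  · intro i T h1 h2
    have h3 : cf (arr (col M N i)) (fun y => Gap a v y ∧ ¬ EvB l y y a η T) ≤
        cf (arr (col M N i)) (fun y => wt l y = r ^ N * l i ∧ Gap a v y ∧ ¬ EvB l y y a η T) :=
      cf_mono fun y hy h => ⟨wt_of_mem H hpos i hy, h⟩
    refine h3.trans (transfer hd hpos i _ ?_)
    have hnn : ∀ s, 0 ≤ freq M N i s := fun s => hp0.le.trans (hp i s)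
    refine (eventB2 H.S.l_pos hlM H.le_lM hnn (freq_sum hd hpos i) hv hg hq0 hq1
      (hatt _ ⟨i, rfl⟩) T (r ^ N * l i) h2 (m := m) ?_).trans hexp
    linarith

end

/-- the first event -/
theorem evA_bound (H : Lev M r α l C ρ N lm lM k1) (hpos : ∀ i j, 0 < (M ^ N) i j)
    {a : Fin d} {t m1 : ℕ} (ht : 1 ≤ t) (hm1 : 1 ≤ m1) {c x : ℝ} (hc : 0 < c)
    (hcm : c * m1 ≤ (t : ℝ) ^ (d - 1)) {w : Fin d → ℤ}
    (hEx : ∀ J : ℕ, J * (4 * t ^ 2) ≤ len M N a →
      Ex (freq M N a) (len M N a) (fun y => ind (¬ BlkIn a w y)) ≤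
        (1 - c * m1 / (t : ℝ) ^ (d - 1)) ^ J)
    (hx : x * ((t : ℝ) ^ 2 * (t : ℝ) ^ (d - 1)) ≤ m1 * r ^ N) :
    cf (arr (col M N a)) (fun y => ¬ BlkIn a w y) ≤
        (((len M N a : ℝ) + 1) ^ d * (Real.exp 1 * Real.exp (-(c * (lm / lM) / 4 * x)))) *
          (arr (col M N a)).card := by
  have hd : 0 < d := by have := H.S.two_le; omega
  have hlm := H.lm_pos
  have hlM := H.lM_pos
  have ht1 : (1 : ℝ) ≤ t := by exact_mod_cast ht
  have hm1' : (1 : ℝ) ≤ m1 := by exact_mod_cast hm1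
  apply transfer hd hpos a
  set J : ℕ := len M N a / (4 * t ^ 2) with hJ
  have hJ1 : J * (4 * t ^ 2) ≤ len M N a := Nat.div_mul_le_self _ _
  have hJ2 : (len M N a : ℝ) < ((J : ℝ) + 1) * (4 * (t : ℝ) ^ 2) := by
    have h1 := Nat.div_add_mod (len M N a) (4 * t ^ 2)
    have h2 := Nat.mod_lt (len M N a) (show 0 < 4 * t ^ 2 by positivity)
    have h3 : len M N a < (J + 1) * (4 * t ^ 2) := by
      have : (J + 1) * (4 * t ^ 2) = 4 * t ^ 2 * J + 4 * t ^ 2 := by ring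
      rw [this, hJ]
      omega
    exact_mod_cast h3
  refine (hEx J hJ1).trans ?_
  apply exp_bound
  · rw [div_le_one (by positivity)]
    exact hcm
  · exact numA hc (by positivity) (by positivity) (by linarith) hcm (len_bounds H hpos a).1
      (by positivity) hJ2 hx

end Pool.Agent.Helper40_Random
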