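import Mathlib
import Pool.Agent.Helper40_Random.Main1

/-!
# The main estimate
-/

set_option autoImplicit false

namespace Pool.Agent.Helper40_Random

open Finset Matrix Filter
open Pool.Agent.Helper94_Pisot

variable {d : ℕ} {M : Matrix (Fin d) (Fin d) ℤ} {r : ℝ} {α l : Fin d → ℝ} {C ρ : ℝ}

/-- all the conditions on the exponent hold eventually -/
theorem eventually_lev (S : Setup M r α l C ρ) {lm lM : ℝ} (hlm : 0 < lm) (hlml : ∀ i, lm ≤ l i)
    (hlM : ∀ i, l i ≤ lM) (k1 : ℕ) (hk1 : ρ ^ k1 * r ≤ 1 / 2) (B : ℝ) :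
    ∀ᶠ N : ℕ in atTop, Lev M r α l C ρ N lm lM k1 ∧ (∀ i j, 0 < (M ^ N) i j) ∧
      (C * ρ ^ N) ^ k1 * (8 * (1 + lM) * (lM / lm) * r ^ N) ≤ 1 ∧ B ≤ r ^ N := by
  have hr := S.one_lt
  have hr0 : 0 < r := by linarith
  have hC := S.one_le
  have hρ0 := S.ρ_pos
  have hd := S.two_le
  have hlM0 : 0 < lM := (S.l_pos ⟨0, by omega⟩).trans_le (hlM _)
  have hhalf : Tendsto (fun N : ℕ => ((1 : ℝ) / 2) ^ N) atTop (nhds 0) :=
    tendsto_pow_atTop_nhds_zero_of_lt_one (by norm_num) (by norm_num)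
  have hρN : Tendsto (fun N : ℕ => C * ρ ^ N) atTop (nhds 0) := by
    simpa using (tendsto_pow_atTop_nhds_zero_of_lt_one S.ρ_pos.le S.ρ_lt).const_mul C
  have hrN : Tendsto (fun N : ℕ => r ^ N) atTop atTop := tendsto_pow_atTop_atTop_of_one_lt hr
  set K : ℝ := C * (8 * (1 + lM) * (lM / lm) + (1 + lM)) with hK
  set K' : ℝ := C ^ k1 * (8 * (1 + lM) * (lM / lm)) with hK'
  have hKlim : Tendsto (fun N : ℕ => K * ((1 : ℝ) / 2) ^ N) atTop (nhds 0) := by
    simpa using hhalf.const_mul K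
  have hKlim' : Tendsto (fun N : ℕ => K' * ((1 : ℝ) / 2) ^ N) atTop (nhds 0) := by
    simpa using hhalf.const_mul K'
  obtain ⟨N1, hN1⟩ := S.prim
  filter_upwards [eventually_ge_atTop N1, eventually_ge_atTop 1,
    hρN.eventually (gt_mem_nhds (show (0 : ℝ) < 1 / 2 by norm_num)),
    hrN.eventually_ge_atTop (4 * (lM + 1)), hrN.eventually_ge_atTop B,
    hKlim.eventually (gt_mem_nhds (show (0 : ℝ) < 1 / 2 by norm_num)),
    hKlim'.eventually (gt_mem_nhds (show (0 : ℝ) < 1 by norm_num))] with N a1 a2 a3 a4 a5 a6 a7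
  have hpr : ρ ^ (N * k1) * r ^ N ≤ ((1 : ℝ) / 2) ^ N := by
    rw [mul_comm N k1, pow_mul, ← mul_pow]
    exact pow_le_pow_left₀ (by positivity) hk1 N
  have hrN1 : 1 ≤ r ^ N := one_le_pow₀ hr.le
  have hp1 : ρ ^ (N * k1) ≤ ((1 : ℝ) / 2) ^ N := by
    refine le_trans ?_ hpr
    exact le_mul_of_one_le_right (by positivity) hrN1
  refine ⟨⟨S, a2, hlm, hlml, hlM, a3.le, ?_, a4⟩, hN1 N a1, ?_, a5⟩
  · calc C * ρ ^ (N * k1) * (8 * (1 + lM) * (lM / lm) * r ^ N + (1 + lM))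
        = C * (8 * (1 + lM) * (lM / lm)) * (ρ ^ (N * k1) * r ^ N) +
          C * (1 + lM) * ρ ^ (N * k1) := by ring
      _ ≤ C * (8 * (1 + lM) * (lM / lm)) * ((1 : ℝ) / 2) ^ N +
          C * (1 + lM) * ((1 : ℝ) / 2) ^ N := by
          apply add_le_add
          · exact mul_le_mul_of_nonneg_left hpr (by positivity)
          · exact mul_le_mul_of_nonneg_left hp1 (by positivity)
      _ = K * ((1 : ℝ) / 2) ^ N := by rw [hK]; ring
      _ ≤ 1 / 2 := a6.le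
  · calc (C * ρ ^ N) ^ k1 * (8 * (1 + lM) * (lM / lm) * r ^ N)
        = K' * (ρ ^ (N * k1) * r ^ N) := by
          rw [mul_pow, ← pow_mul, hK']
          ring
      _ ≤ K' * ((1 : ℝ) / 2) ^ N := mul_le_mul_of_nonneg_left hpr (by positivity)
      _ ≤ 1 := a7.le

theorem aux9 {v lM : ℝ} (h : 2 * lM ≤ v) (hv : 1 ≤ v) :
    (v + 1) * lM ≤ v ^ 2 := by
  nlinarith

theorem aux10 {c t : ℝ} (hc : 1 ≤ c) (ht : 1 ≤ t) : 1 ≤ c * t := by nlinarith

theorem aux11 {A K L X : ℝ} (h : 0 ≤ L * X) : A * (K * L) * X ≤ (A * K + 1) * L * X := by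
  have e : (A * K + 1) * L * X = A * (K * L) * X + L * X := by ring
  rw [e]
  linarith

theorem sum_max_le {K : ℝ} {L : List ℝ} (hnn : ∀ x ∈ L, 0 ≤ x) (h : L.sum ≤ K) :
    ∀ x ∈ L, x ≤ K := by
  intro x hx
  exact (List.single_le_sum hnn x hx).trans h

/-- the main estimate at one level -/
theorem main_bound (S : Setup M r α l C ρ) : ∃ κ K5 : ℝ, 0 < κ ∧ 0 < K5 ∧ ∃ n0 : ℕ,
    ∀ᶠ N : ℕ in atTop, ∀ n : ℕ, n0 ≤ n → (n : ℝ) ^ (EE d) ≤ r ^ N →
      r ^ N < ((n : ℝ) + 1) ^ (EE d) →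
      cf (Om M N) (fun τ => ¬ SwapSmall τ (r ^ N)) ≤
        K5 * (r ^ N) ^ (2 * d + 1) * Real.exp (-(κ * n)) * (Om M N).card := by
  have hd := S.two_le
  have hdpos : 0 < d := by omega
  have hne : (Finset.univ : Finset (Fin d)).Nonempty := ⟨⟨0, hdpos⟩, Finset.mem_univ _⟩
  obtain ⟨i1, -, hi1⟩ := Finset.exists_min_image Finset.univ l hne
  obtain ⟨i2, -, hi2⟩ := Finset.exists_max_image Finset.univ l hne
  set lm := l i1
  set lM := l i2
  have hlml : ∀ i, lm ≤ l i := fun i => hi1 i (Finset.mem_univ i)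
  have hlMl : ∀ i, l i ≤ lM := fun i => hi2 i (Finset.mem_univ i)
  have hlm : 0 < lm := S.l_pos i1
  have hlM : 0 < lM := S.l_pos i2
  obtain ⟨am, ham0, ham⟩ := exists_min_α S.α_pos
  obtain ⟨C1, hC1, hcover⟩ := cover S
  set p0 : ℝ := am / 2 with hp0def
  have hp0 : 0 < p0 := by positivity
  obtain ⟨cA, hcA, tA, hevA⟩ := eventA (l := l) S.α_pos S.α_sum hd hp0
    (show (1 : ℝ) ≤ 3 * C1 by linarith)
  obtain ⟨cB, hcB, vB, hevB⟩ := attempt (l := l) S.α_pos S.α_sum hd hp0 hC1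
  obtain ⟨k1, hk1⟩ : ∃ k1 : ℕ, ρ ^ k1 * r ≤ 1 / 2 := by
    have h1 : Tendsto (fun k : ℕ => ρ ^ k * r) atTop (nhds 0) := by
      simpa using (tendsto_pow_atTop_nhds_zero_of_lt_one S.ρ_pos.le S.ρ_lt).mul_const r
    obtain ⟨k1, hk⟩ := (h1.eventually (gt_mem_nhds (show (0 : ℝ) < 1 / 2 by norm_num))).exists
    exact ⟨k1, hk.le⟩
  set F := freqC d C lm lM with hF
  have hC0 := S.one_le
  have hF0 : 0 ≤ F := by
    rw [hF, freqC]
    positivity
  set κ : ℝ := min (min (cA * (lm / lM) / 4) (cB * lm / (16 * lM))) p0 with hκ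
  have hκ0 : 0 < κ := lt_min (lt_min (by positivity) (by positivity)) hp0
  have hκA : κ ≤ cA * (lm / lM) / 4 := (min_le_left _ _).trans (min_le_left _ _)
  have hκB : κ ≤ cB * lm / (16 * lM) := (min_le_left _ _).trans (min_le_right _ _)
  have hκP : κ ≤ p0 := min_le_right _ _
  -- the big constants
  set L : List ℝ := [4 * F, 2 * F / am, 1 / cA, 2 * C1, cA, cB, 2 * lM, 7 / lm, (3 + lM) / lm,
    (32 * lM + 12) / lm, (lM / lm) * ((3 + lM) / lm + 2), 1] with hL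
  have hLnn : ∀ x ∈ L, 0 ≤ x := by
    intro x hx
    simp only [hL, List.mem_cons, List.not_mem_nil, or_false] at hx
    rcases hx with h | h | h | h | h | h | h | h | h | h | h | h <;> rw [h] <;> positivity
  set K : ℝ := L.sum with hK
  have hKle := sum_max_le hLnn le_rfl (K := K)
  have hK0 : 0 ≤ K := List.sum_nonneg hLnn
  set K3 : ℝ := (lM / lm + 1) + (7 + 6 * C1) + (2 * lM + 16 * (1 + lM) * (lM / lm) + 3) +
    ((3 + lM) / lm + 1) with hK3
  have hK30 : 0 < K3 := by positivity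
  refine ⟨κ, (d ^ 2 + 2 * d + 1) * Real.exp 1 * K3 ^ (2 * d + 1) + 1, hκ0, by positivity,
    ⌈K * 2 ^ (EE d)⌉₊ + 8 + tA + vB, ?_⟩
  filter_upwards [eventually_lev S hlm hlml hlMl k1 hk1 1] with N hN n hn h1 h2
  obtain ⟨H, hpos, hk2, hΛ1⟩ := hN
  have hnK : K * 2 ^ (EE d) ≤ n := by
    have h3 := Nat.le_ceil (K * 2 ^ (EE d))
    have h4 : (⌈K * 2 ^ (EE d)⌉₊ : ℝ) ≤ n := by
      have : ⌈K * 2 ^ (EE d)⌉₊ ≤ n := by omega
      exact_mod_cast this
    linarith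
  have hP := params hd hK0 (show 8 ≤ n by omega) hnK h1 h2
  set Λ := r ^ N with hΛdef
  have hΛ0 : 0 < Λ := by linarith
  set v : ℕ := n ^ (g1 d - 1) with hv
  set t : ℕ := n ^ (g1 d + d) with ht
  set u : ℕ := n ^ (nu d + 1) with hu
  set m1 : ℕ := n ^ (nu d) with hm1
  have hvR : (v : ℝ) = (n : ℝ) ^ (g1 d - 1) := by rw [hv]; push_cast; rfl
  have htR : (t : ℝ) = (n : ℝ) ^ (g1 d + d) := by rw [ht]; push_cast; rfl
  have huR : (u : ℝ) = (n : ℝ) ^ (nu d + 1) := by rw [hu]; push_cast; rfl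
  have hmR : (m1 : ℝ) = (n : ℝ) ^ (nu d) := by rw [hm1]; push_cast; rfl
  obtain ⟨pa, pb, pc, pdd, pe, pf, pg, ph, pi', pnv, pnt, pnu, pnvd, ppos⟩ := hP
  rw [← htR] at pc pdd pe ph pi' pnt
  rw [← hvR] at pe pf pg pnv pnvd
  rw [← huR] at pb pnu
  rw [← hmR] at pb ph pi'
  have hn1 : (1 : ℝ) ≤ n := by exact_mod_cast ppos
  have ht1 : (1 : ℝ) ≤ t := hn1.trans pnt
  have hv1 : (1 : ℝ) ≤ v := hn1.trans pnv
  have hu1 : (1 : ℝ) ≤ u := hn1.trans pnu
  have ht1N : 1 ≤ t := by exact_mod_cast ht1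
  have hv1N : 1 ≤ v := by exact_mod_cast hv1
  have hm1N : 1 ≤ m1 := Nat.one_le_pow _ _ (by omega)
  have hntN : n ≤ t := by exact_mod_cast pnt
  have hnuN : n ≤ u := by exact_mod_cast pnu
  have hnvN : n ≤ v := by exact_mod_cast pnv
  have ht2 : (0 : ℝ) < (t : ℝ) ^ 2 := by positivity
  have hv2 : (0 : ℝ) < (v : ℝ) ^ 2 := by positivity
  have htd : (0 : ℝ) < (t : ℝ) ^ (d - 1) := by positivity
  have hvd : (0 : ℝ) < (v : ℝ) ^ (d - 1) := by positivity
  have hud : (0 : ℝ) < (u : ℝ) ^ (d - 1) := by positivity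
  have h2E : (1 : ℝ) ≤ 2 ^ (EE d) := one_le_pow₀ (by norm_num)
  have hKn : K ≤ n := by
    calc K = K * 1 := (mul_one K).symm
      _ ≤ K * 2 ^ (EE d) := mul_le_mul_of_nonneg_left h2E hK0
      _ ≤ n := hnK
  -- consequences of the choice of K
  have q1 : 4 * F ≤ K := hKle _ (by simp [hL])
  have q2 : 2 * F / am ≤ K := hKle _ (by simp [hL])
  have q3 : 1 / cA ≤ K := hKle _ (by simp [hL])
  have q4 : 2 * C1 ≤ K := hKle _ (by simp [hL])
  have q5 : cA ≤ K := hKle _ (by simp [hL])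
  have q7 : 2 * lM ≤ K := hKle _ (by simp [hL])
  have q8 : 7 / lm ≤ K := hKle _ (by simp [hL])
  have q9 : (3 + lM) / lm ≤ K := hKle _ (by simp [hL])
  have q10 : (32 * lM + 12) / lm ≤ K := hKle _ (by simp [hL])
  have q11 : (lM / lm) * ((3 + lM) / lm + 2) ≤ K := hKle _ (by simp [hL])
  have q12 : 1 ≤ K := hKle _ (by simp [hL])
  have q6 : cB < K := by
    have : cB + 1 ≤ K := by
      have e1 : L.sum = 4 * F + 2 * F / am + 1 / cA + 2 * C1 + cA + cB + 2 * lM + 7 / lm +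
          (3 + lM) / lm + (32 * lM + 12) / lm + (lM / lm) * ((3 + lM) / lm + 2) + 1 := by
        simp only [hL, List.sum_cons, List.sum_nil]
        ring
      have e2 : 0 ≤ 4 * F + 2 * F / am + 1 / cA + 2 * C1 + cA + 2 * lM + 7 / lm +
          (3 + lM) / lm + (32 * lM + 12) / lm + (lM / lm) * ((3 + lM) / lm + 2) := by positivity
      rw [hK, e1]
      linarith
    linarith
  have useK : ∀ {c X Y : ℝ}, c ≤ K → 0 ≤ X → K * X ≤ Y → c * X ≤ Y := by
    intro c X Y hc hX hY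
    exact (mul_le_mul_of_nonneg_right hc hX).trans hY
  have hvt : (v : ℝ) ^ 2 ≤ Λ := by
    have := useK q12 hv2.le pf
    linarith
  have htΛ : (t : ℝ) ^ 2 ≤ Λ := by
    have := useK q12 ht2.le pc
    linarith
  -- frequencies
  have hfreq : ∀ j i, p0 ≤ freq M N j i := by
    intro j i
    refine freq_lower H hpos ham ?_ j i
    rw [div_le_iff₀ hΛ0]
    have e1 := useK q2 ht2.le pc
    have e2 : (1 : ℝ) ≤ (t : ℝ) ^ 2 := one_le_pow₀ ht1
    have e3 : 2 * F / am ≤ Λ := by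
      have : 0 ≤ 2 * F / am := by positivity
      calc 2 * F / am = 2 * F / am * 1 := (mul_one _).symm
        _ ≤ 2 * F / am * (t : ℝ) ^ 2 := mul_le_mul_of_nonneg_left e2 this
        _ ≤ Λ := e1
    rw [div_le_iff₀ ham0] at e3
    linarith
  have hfs : ∀ j, ∑ i, freq M N j i = 1 := fun j => freq_sum hdpos hpos j
  have hfn : ∀ j i, |freq M N j i - α i| * (4 * (t : ℝ) ^ 2) ≤ 1 := by
    intro j i
    have e1 := freq_near H hpos j i
    have e2 := useK q1 ht2.le pc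
    calc |freq M N j i - α i| * (4 * (t : ℝ) ^ 2) ≤ F / Λ * (4 * (t : ℝ) ^ 2) :=
          mul_le_mul_of_nonneg_right e1 (by positivity)
      _ = (4 * F * (t : ℝ) ^ 2) / Λ := by ring
      _ ≤ 1 := by
          rw [div_le_one hΛ0]
          exact e2
  have hvtle : (v : ℝ) ≤ t := by
    rw [hvR, htR]
    exact pow_le_pow_right₀ hn1 (by omega)
  have hfn3 : ∀ j i, |freq M N j i - α i| * (3 * (t : ℝ) ^ 2) ≤ 1 := by
    intro j i
    refine le_trans ?_ (hfn j i)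
    refine mul_le_mul_of_nonneg_left ?_ (abs_nonneg _)
    linarith
  have hfnv : ∀ j i, |freq M N j i - α i| * (4 * (v : ℝ) ^ 2) ≤ 1 := by
    intro j i
    refine le_trans ?_ (hfn j i)
    refine mul_le_mul_of_nonneg_left ?_ (abs_nonneg _)
    have : (v : ℝ) ^ 2 ≤ (t : ℝ) ^ 2 := pow_le_pow_left₀ (by positivity) hvtle 2
    linarith
  -- the parameter η
  set η : ℝ := (t : ℝ) ^ 2 / Λ with hη
  have hη0 : 0 < η := by positivity
  have hη1 : η ≤ 1 := by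
    rw [hη, div_le_one hΛ0]
    exact htΛ
  have hΛη : Λ * η = (t : ℝ) ^ 2 := by
    rw [hη]
    field_simp
  have hcovt : ∀ T : ℝ, ∃ w : Fin d → ℤ, |lr l (re w) - T| ≤ η / 2 ∧
      ‖qr l α (re w)‖ ≤ C1 * t := by
    intro T
    obtain ⟨w, hw1, hw2⟩ := hcover T t ht1N
    refine ⟨w, hw1.trans ?_, hw2⟩
    rw [hη, div_div, div_le_div_iff₀ htd (by positivity)]
    have := useK q4 hΛ0.le pdd
    linarith
  have hcovv : ∀ T : ℝ, ∃ w : Fin d → ℤ, |lr l (re w) - T| ≤ η / 2 ∧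
      ‖qr l α (re w)‖ ≤ C1 * v := by
    intro T
    obtain ⟨w, hw1, hw2⟩ := hcover T v hv1N
    refine ⟨w, hw1.trans ?_, hw2⟩
    rw [hη, div_div, div_le_div_iff₀ hvd (by positivity)]
    have := useK q4 hΛ0.le pe
    linarith
  -- B0
  have hbig7 : 7 * (v : ℝ) ^ 2 ≤ Λ * lm := by
    have := useK q8 hv2.le pf
    rw [div_mul_eq_mul_div, div_le_iff₀ hlm] at this
    exact this
  have hbig3 : (3 + lM) * (v : ℝ) ^ 2 ≤ Λ * lm := by
    have := useK q9 hv2.le pf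
    rw [div_mul_eq_mul_div, div_le_iff₀ hlm] at this
    exact this
  have hv2one : (1 : ℝ) ≤ (v : ℝ) ^ 2 := one_le_pow₀ hv1
  have hBW : 2 * (Λ * η) + 3 * (C1 * t) ≤ (⌈2 * (t : ℝ) ^ 2 + 3 * (C1 * t)⌉₊ : ℝ) := by
    rw [hΛη]
    exact Nat.le_ceil _
  have hBD : lM + 8 * (1 + lM) * (lM / lm) * Λ ≤ (⌈lM + 8 * (1 + lM) * (lM / lm) * Λ⌉₊ : ℝ) :=
    Nat.le_ceil _
  set BW : ℕ := ⌈2 * (t : ℝ) ^ 2 + 3 * (C1 * t)⌉₊ with hBWdef
  set BD : ℕ := ⌈lM + 8 * (1 + lM) * (lM / lm) * Λ⌉₊ with hBDdef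
  -- sizes
  have hlen : ∀ j, (len M N j : ℝ) + 1 ≤ K3 * Λ := by
    intro j
    have e1 := (len_bounds H hpos j).2
    have e2 : (lM / lm + 1) * Λ ≤ K3 * Λ := by
      refine mul_le_mul_of_nonneg_right ?_ hΛ0.le
      rw [hK3]
      have : 0 ≤ (7 + 6 * C1) + (2 * lM + 16 * (1 + lM) * (lM / lm) + 3) +
        ((3 + lM) / lm + 1) := by positivity
      linarith
    have e3 : Λ * (lM / lm) + 1 ≤ (lM / lm + 1) * Λ := by linarith
    linarith
  have htt : (t : ℝ) ≤ (t : ℝ) ^ 2 := le_self_pow₀ ht1 (by norm_num)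
  have hBWs : 2 * (BW : ℝ) + 1 ≤ K3 * Λ := by
    have e1 : (BW : ℝ) < 2 * (t : ℝ) ^ 2 + 3 * (C1 * t) + 1 := Nat.ceil_lt_add_one (by positivity)
    have e2 : (7 + 6 * C1) * Λ ≤ K3 * Λ := by
      refine mul_le_mul_of_nonneg_right ?_ hΛ0.le
      rw [hK3]
      have : 0 ≤ (lM / lm + 1) + (2 * lM + 16 * (1 + lM) * (lM / lm) + 3) +
        ((3 + lM) / lm + 1) := by positivity
      linarith
    have e3 : C1 * t ≤ C1 * Λ := mul_le_mul_of_nonneg_left (htt.trans htΛ) (by linarith)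
    linarith
  have hBDs : 2 * (BD : ℝ) + 1 ≤ K3 * Λ := by
    have e1 : (BD : ℝ) < lM + 8 * (1 + lM) * (lM / lm) * Λ + 1 := Nat.ceil_lt_add_one (by positivity)
    have e2 : (2 * lM + 16 * (1 + lM) * (lM / lm) + 3) * Λ ≤ K3 * Λ := by
      refine mul_le_mul_of_nonneg_right ?_ hΛ0.le
      rw [hK3]
      have : 0 ≤ (lM / lm + 1) + (7 + 6 * C1) + ((3 + lM) / lm + 1) := by positivity
      linarith
    have e3 : lM * 1 ≤ lM * Λ := mul_le_mul_of_nonneg_left hΛ1 hlM.le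
    linarith
  set P : ℕ := ⌈(3 * (v : ℝ) ^ 2 + lM) / lm⌉₊ with hPdef
  have hP1 : (3 * (v : ℝ) ^ 2 + lM) / lm < (P : ℝ) + 1 := by
    have := Nat.le_ceil ((3 * (v : ℝ) ^ 2 + lM) / lm)
    linarith
  have hP2 : (P : ℝ) ≤ ((3 + lM) / lm + 1) * (v : ℝ) ^ 2 := by
    have e1 : (P : ℝ) < (3 * (v : ℝ) ^ 2 + lM) / lm + 1 := Nat.ceil_lt_add_one (by positivity)
    have e2 : (3 * (v : ℝ) ^ 2 + lM) / lm ≤ (3 + lM) / lm * (v : ℝ) ^ 2 := by
      rw [div_mul_eq_mul_div]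
      apply div_le_div_of_nonneg_right _ hlm.le
      have : lM * 1 ≤ lM * (v : ℝ) ^ 2 := mul_le_mul_of_nonneg_left hv2one hlM.le
      linarith
    linarith
  have hPs : (P : ℝ) ≤ K3 * Λ := by
    have e1 : ((3 + lM) / lm + 1) * (v : ℝ) ^ 2 ≤ ((3 + lM) / lm + 1) * Λ :=
      mul_le_mul_of_nonneg_left hvt (by positivity)
    have e2 : ((3 + lM) / lm + 1) * Λ ≤ K3 * Λ := by
      refine mul_le_mul_of_nonneg_right ?_ hΛ0.le
      rw [hK3]
      have : 0 ≤ (lM / lm + 1) + (7 + 6 * C1) + (2 * lM + 16 * (1 + lM) * (lM / lm) + 3) := by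
        positivity
      linarith
    linarith
  have hPlen : ∀ j, (P : ℝ) + n ≤ len M N j := by
    intro j
    have e1 := (len_bounds H hpos j).1
    have e2 : (n : ℝ) ≤ (v : ℝ) ^ 2 := pnv.trans (le_self_pow₀ hv1 (by norm_num))
    have e3 := useK q11 hv2.le pf
    have e4 : ((3 + lM) / lm + 2) * (v : ℝ) ^ 2 ≤ Λ * (lm / lM) := by
      have e5 : ((3 + lM) / lm + 2) * (v : ℝ) ^ 2 =
          ((lM / lm) * ((3 + lM) / lm + 2) * (v : ℝ) ^ 2) * (lm / lM) := by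
        field_simp
      rw [e5]
      exact mul_le_mul_of_nonneg_right e3 (by positivity)
    linarith
  set X : ℝ := Real.exp (-(κ * n)) with hX
  have hX0 : 0 < X := Real.exp_pos _
  have hKΛ0 : 0 < K3 * Λ := by positivity
  have hKΛ1 : 1 ≤ K3 * Λ := by
    have := hlen ⟨0, hdpos⟩
    have h0 : (0 : ℝ) ≤ len M N ⟨0, hdpos⟩ := Nat.cast_nonneg _
    linarith
  have hpowlen : ∀ j, ((len M N j : ℝ) + 1) ^ d ≤ (K3 * Λ) ^ d := fun j =>
    pow_le_pow_left₀ (by positivity) (hlen j) d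
  have hexpmono : ∀ c : ℝ, κ ≤ c → Real.exp (-(c * n)) ≤ X := by
    intro c hc
    rw [hX, Real.exp_le_exp, neg_le_neg_iff]
    exact mul_le_mul_of_nonneg_right hc (by linarith)
  have he1 : (1 : ℝ) ≤ Real.exp 1 := Real.one_le_exp (by norm_num)
  set e0 : ℝ := (K3 * Λ) ^ d * (Real.exp 1 * X) with he0
  set e1 : ℝ := (K3 * Λ) ^ d * (K3 * Λ * X) with he1def
  have he00 : 0 ≤ e0 := by positivity
  have he10 : 0 ≤ e1 := by positivity
  have hcard0 : ∀ j, (0 : ℝ) ≤ (arr (col M N j)).card := fun j => Nat.cast_nonneg _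
  obtain ⟨a⟩ : Nonempty (Fin d) := ⟨⟨0, hdpos⟩⟩
  -- the second event
  obtain ⟨hB1, hB2⟩ := evB_bound H hpos hp0 hfreq (a := a) (v := v) hv1N (by
      have e2 : 2 * lM ≤ (v : ℝ) := (q7.trans hKn).trans pnv
      exact aux9 e2 hv1) (η := η) (c := cB) (x := n) hcB (by
      have : (n : ℝ) ≤ (v : ℝ) ^ (d - 1) := pnvd
      linarith) (by
      rintro p ⟨j, rfl⟩ T' hT1 hT2
      exact hevB (freq M N j) (hfreq j) (hfs j) v η (by omega) hη0 hη1 hcovv (hfnv j) a T' hT1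
        hT2) (by
      have := useK q10 hv2.le pf
      rw [div_mul_eq_mul_div, div_le_iff₀ hlm] at this
      exact this) pg
  have hres := level_bound H hpos (a := a) (η := η) (R1 := C1 * t) (B0 := 3 * (v : ℝ) ^ 2)
    (k2 := k1) (g := v) hη0 (by positivity) hcovt (hk2.trans (aux10 hC1 ht1)) (by positivity)
    (by linarith) (by
      have : lM * 1 ≤ lM * (v : ℝ) ^ 2 := mul_le_mul_of_nonneg_left hv2one hlM.le
      linarith) hBW hBD
    (eA := e0) (eG := e1) (eC := e1) (eB := e0) (by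
      rintro w ⟨hw1, hw2, hw3⟩
      rw [← hΛdef, hΛη] at hw1 hw2
      refine (evA_bound H hpos ht1N hm1N hcA (c := cA) (x := n) ?_ (w := w) ?_ ph).trans ?_
      · exact useK q5 (by positivity) pi'
      · intro J hJ
        refine hevA (freq M N a) (hfreq a) (hfs a) t u m1 (len M N a) J (by omega) (by omega)
          hm1N pa ?_ (hfn3 a) hJ a w hw1 hw2 (hw3.trans (le_of_eq (by ring)))
        have e5 : 1 / cA * m1 ≤ (u : ℝ) ^ (d - 1) := useK q3 (by positivity) pb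
        rw [div_mul_eq_mul_div, one_mul, div_le_iff₀ hcA] at e5
        linarith
      · refine mul_le_mul_of_nonneg_right ?_ (hcard0 a)
        refine mul_le_mul (hpowlen a) ?_ (by positivity) (by positivity)
        exact mul_le_mul_of_nonneg_left (hexpmono _ hκA) (by positivity)) he00 (by
      intro j
      refine (evG_bound H hpos hp0 hfreq a (x := n) pnv hκP (by positivity) j).trans ?_
      refine mul_le_mul_of_nonneg_right ?_ (hcard0 j)
      refine mul_le_mul (hpowlen j) ?_ (by positivity) (by positivity)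
      exact mul_le_mul_of_nonneg_right (hlen j) hX0.le) (by
      intro j
      refine (evC_bound H hpos hp0 hfreq hP1 j (x := n) (hPlen j) hκP (by positivity)).trans ?_
      refine mul_le_mul_of_nonneg_right ?_ (hcard0 j)
      refine mul_le_mul (hpowlen j) ?_ (by positivity) (by positivity)
      exact mul_le_mul_of_nonneg_right hPs hX0.le) he00 (by
      intro i j T hT1 hT2 W' hW' hgap
      refine (hB1 i j T hT1 hT2 W' hW' hgap).trans ?_
      refine mul_le_mul_of_nonneg_right ?_ (hcard0 i)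
      refine mul_le_mul (hpowlen i) ?_ (by positivity) (by positivity)
      exact mul_le_mul_of_nonneg_left (hexpmono _ hκB) (by positivity)) (by
      intro i T hT1 hT2
      refine (hB2 i T hT1 hT2).trans ?_
      refine mul_le_mul_of_nonneg_right ?_ (hcard0 i)
      refine mul_le_mul (hpowlen i) ?_ (by positivity) (by positivity)
      exact mul_le_mul_of_nonneg_left (hexpmono _ hκB) (by positivity))
  refine hres.trans ?_
  refine mul_le_mul_of_nonneg_right ?_ (Nat.cast_nonneg _)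
  -- collect
  set Y : ℝ := K3 * Λ with hY
  have hYd : 1 ≤ Y ^ d := one_le_pow₀ hKΛ1
  have b1 : (((2 * BW + 1) ^ d : ℕ) : ℝ) ≤ Y ^ d := by
    push_cast
    exact pow_le_pow_left₀ (by positivity) hBWs d
  have b2 : (((d * d) * (2 * BD + 1) ^ d : ℕ) : ℝ) ≤ d ^ 2 * Y ^ d := by
    push_cast
    have := pow_le_pow_left₀ (by positivity) hBDs d
    calc (d : ℝ) * d * (2 * (BD : ℝ) + 1) ^ d = d ^ 2 * (2 * (BD : ℝ) + 1) ^ d := by ring
      _ ≤ _ := mul_le_mul_of_nonneg_left this (by positivity)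
  have hYY : Y ^ (2 * d + 1) = Y ^ d * (Y ^ d * Y) := by
    rw [show 2 * d + 1 = d + (d + 1) by ring, pow_add, pow_succ]
  have c1 : (((2 * BW + 1) ^ d : ℕ) : ℝ) * e0 ≤ Real.exp 1 * Y ^ (2 * d + 1) * X := by
    calc (((2 * BW + 1) ^ d : ℕ) : ℝ) * e0 ≤ Y ^ d * e0 :=
          mul_le_mul_of_nonneg_right b1 he00
      _ = Real.exp 1 * (Y ^ d * (Y ^ d * 1)) * X := by rw [he0]; ring
      _ ≤ Real.exp 1 * (Y ^ d * (Y ^ d * Y)) * X := by gcongr
      _ = _ := by rw [hYY]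
  have c2 : (d : ℝ) * e1 ≤ d * Real.exp 1 * Y ^ (2 * d + 1) * X := by
    calc (d : ℝ) * e1 = d * 1 * (1 * (Y ^ d * Y)) * X := by rw [he1def]; ring
      _ ≤ d * Real.exp 1 * (Y ^ d * (Y ^ d * Y)) * X := by gcongr
      _ = _ := by rw [hYY]
  have c3 : (((d * d) * (2 * BD + 1) ^ d : ℕ) : ℝ) * e0 ≤
      d ^ 2 * Real.exp 1 * Y ^ (2 * d + 1) * X := by
    calc (((d * d) * (2 * BD + 1) ^ d : ℕ) : ℝ) * e0 ≤ (d ^ 2 * Y ^ d) * e0 :=
          mul_le_mul_of_nonneg_right b2 he00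
      _ = d ^ 2 * Real.exp 1 * (Y ^ d * (Y ^ d * 1)) * X := by rw [he0]; ring
      _ ≤ d ^ 2 * Real.exp 1 * (Y ^ d * (Y ^ d * Y)) * X := by gcongr
      _ = _ := by rw [hYY]
  have hYpow : Y ^ (2 * d + 1) = K3 ^ (2 * d + 1) * Λ ^ (2 * d + 1) := by rw [hY, mul_pow]
  have hfin : (d ^ 2 + 2 * d + 1) * Real.exp 1 * Y ^ (2 * d + 1) * X ≤
      ((d ^ 2 + 2 * d + 1) * Real.exp 1 * K3 ^ (2 * d + 1) + 1) * Λ ^ (2 * d + 1) * X := by
    rw [hYpow]
    exact aux11 (by positivity)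
  refine le_trans ?_ hfin
  linarith

end Pool.Agent.Helper40_Random
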