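import Mathlib
import Pool.Agent.Helper40_Random.Main2

/-!
# The proportion of the exceptional substitutions
-/

set_option autoImplicit false

namespace Pool.Agent.Helper40_Random

open Finset Matrix Filter
open Pool.Agent.Helper94_Pisot

variable {d : ℕ} {M : Matrix (Fin d) (Fin d) ℤ} {r : ℝ} {α l : Fin d → ℝ} {C ρ : ℝ}

theorem real_asym {A B κ b : ℝ} (hA : 0 ≤ A) (hB : 0 ≤ B) (hκ : 0 < κ) (hb : 0 < b) :
    ∀ᶠ N : ℕ in atTop, A + B * N + Real.exp (b * N) ≤ κ * Real.exp (2 * b * N) := by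
  have h1 : Tendsto (fun N : ℕ => Real.exp (b * N)) atTop atTop := by
    apply Real.tendsto_exp_atTop.comp
    exact (tendsto_natCast_atTop_atTop).const_mul_atTop hb
  filter_upwards [h1.eventually_ge_atTop ((A + B / b + 1) / κ), h1.eventually_ge_atTop 1]
    with N hN hN1
  set y := Real.exp (b * N) with hy
  have h2 : Real.exp (2 * b * N) = y * y := by
    rw [hy, ← Real.exp_add]
    congr 1
    ring
  have h3 : b * N ≤ y := by
    have := Real.add_one_le_exp (b * N)
    rw [← hy] at this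
    linarith
  have h4 : B * N ≤ B / b * y := by
    calc B * N = B / b * (b * N) := by field_simp
      _ ≤ B / b * y := mul_le_mul_of_nonneg_left h3 (by positivity)
  rw [h2]
  rw [div_le_iff₀ hκ] at hN
  have h5 : (A + B / b + 1) * y ≤ (y * κ) * y := mul_le_mul_of_nonneg_right hN (by linarith)
  have h6 : A ≤ A * y := le_mul_of_one_le_right hA hN1
  nlinarith

theorem asym (S : Setup M r α l C ρ) : ∃ κ : ℝ, 0 < κ ∧ ∀ᶠ N : ℕ in atTop,
    cf (Om M N) (fun τ => ¬ SwapSmall τ (r ^ N)) ≤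
      Real.exp (-Real.exp (κ * N)) * (Om M N).card := by
  obtain ⟨κ, K5, hκ, hK5, n0, hmain⟩ := main_bound S
  have hr := S.one_lt
  have hr0 : 0 < r := by linarith
  have hlog : 0 < Real.log r := Real.log_pos hr
  have hE : 1 ≤ EE d := by
    unfold EE g1
    nlinarith
  have hE0 : (0 : ℝ) < EE d := by exact_mod_cast hE
  set b : ℝ := Real.log r / (2 * EE d) with hb
  have hb0 : 0 < b := by positivity
  refine ⟨b, hb0, ?_⟩
  set A : ℝ := max 0 (Real.log K5) + κ with hA
  have hA0 : 0 ≤ A := add_nonneg (le_max_left _ _) hκ.le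
  set B : ℝ := (2 * d + 1) * Real.log r with hB
  have hB0 : 0 ≤ B := by positivity
  have hrN : Tendsto (fun N : ℕ => r ^ N) atTop atTop := tendsto_pow_atTop_atTop_of_one_lt hr
  filter_upwards [hmain, real_asym hA0 hB0 hκ hb0,
    hrN.eventually_ge_atTop (((n0 : ℝ) + 1) ^ (EE d)), hrN.eventually_ge_atTop 1]
    with N h1 h2 h3 h4
  obtain ⟨n, hn1, hn2⟩ := exists_root (EE d) hE h4
  have hn0 : n0 ≤ n := by
    have h5 : ((n0 : ℝ) + 1) ^ (EE d) < ((n : ℝ) + 1) ^ (EE d) := lt_of_le_of_lt h3 hn2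
    have h6 : (n0 : ℝ) + 1 < (n : ℝ) + 1 := lt_of_pow_lt_pow_left₀ _ (by positivity) h5
    have h7 : (n0 : ℝ) < n := by linarith
    exact_mod_cast h7.le
  refine (h1 n hn0 hn1 hn2).trans ?_
  refine mul_le_mul_of_nonneg_right ?_ (Nat.cast_nonneg _)
  have hrexp : r ^ N = Real.exp (N * Real.log r) := by
    rw [Real.exp_nat_mul, Real.exp_log hr0]
  -- lower bound for n
  have hn3 : Real.exp (2 * b * N) ≤ (n : ℝ) + 1 := by
    have h5 : (Real.exp (2 * b * N)) ^ (EE d) < ((n : ℝ) + 1) ^ (EE d) := by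
      refine lt_of_eq_of_lt ?_ hn2
      rw [← Real.exp_nat_mul, hrexp]
      congr 1
      rw [hb]
      field_simp
    exact (lt_of_pow_lt_pow_left₀ _ (by positivity) h5).le
  have hpow : (r ^ N) ^ (2 * d + 1) = Real.exp (B * N) := by
    rw [hrexp, ← Real.exp_nat_mul]
    congr 1
    rw [hB]
    push_cast
    ring
  have hK : K5 ≤ Real.exp (max 0 (Real.log K5)) := by
    calc K5 = Real.exp (Real.log K5) := (Real.exp_log hK5).symm
      _ ≤ _ := Real.exp_le_exp.2 (le_max_right _ _)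
  calc K5 * (r ^ N) ^ (2 * d + 1) * Real.exp (-(κ * n))
      ≤ Real.exp (max 0 (Real.log K5)) * Real.exp (B * N) * Real.exp (-(κ * n)) := by
        rw [hpow]
        gcongr
    _ = Real.exp (max 0 (Real.log K5) + B * N + -(κ * n)) := by
        rw [Real.exp_add, Real.exp_add]
    _ ≤ Real.exp (-Real.exp (b * N)) := by
        rw [Real.exp_le_exp]
        have h8 : κ * Real.exp (2 * b * N) ≤ κ * ((n : ℝ) + 1) :=
          mul_le_mul_of_nonneg_left hn3 hκ.le
        rw [hA] at h2
        linarith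

end Pool.Agent.Helper40_Random
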